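import Mathlib
import Pool.Agent.H475.QZ.Defs
import Pool.Agent.H410.FC.Defs

/-!
Definitions for the theorem: for the Lucas sequences `U_n, V_n` with
`αβ = ε = ±1` (real roots) and a sign `δ` (`δ = 1` if `ε = 1`) the four numbers
`1, ∑ δ^n/U_n, ∑ δ^n V_n/U_n^2, ∑ (δε)^n/U_n^3` are linearly independent over `ℚ` (helper410).
Everything which does not depend on the weight is taken from `Pool.Agent.H410.FC.Defs`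
(`OK, U, sD, al, be, pp, DK, Cj, Rl, Tt, xt, XX, QQ, pik, VV, EE, FF, ea, ww, C3, BF, rr`).
-/

namespace Pool.Agent.H410.FL

open Finset
open Pool.Agent.H475.QZ (nu)
open Pool.Agent.H410.FC (OK U sD al be pp DK Cj Rl Tt xt XX QQ pik VV EE FF ea ww C3 BF rr)

/-! ### arithmetic data -/

/-- The companion sequence `V 0 = 2, V 1 = a, V (n+2) = a V (n+1) - ε V n`. -/
def V (a ε : ℤ) : ℕ → ℤ
  | 0 => 2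
  | 1 => a
  | (n + 2) => a * V a ε (n + 1) - ε * V a ε n

/-- Admissible signs: `δ = ±1`, and `δ = 1` if `ε = 1`. -/
def Sg (ε δ : ℤ) : Prop := (δ = 1 ∨ δ = -1) ∧ (ε = 1 → δ = 1)

/-- `x = - δ α`. -/
noncomputable def xd (a ε δ : ℤ) : ℝ := -(δ * al a ε)

/-- The three sums `∑ δ^n/U_n`, `∑ δ^n V_n/U_n^2`, `∑ (δ ε)^n/U_n^3` (`n ≥ 1`). -/
noncomputable def S1 (a ε δ : ℤ) : ℝ := ∑' n : ℕ, (δ : ℝ) ^ (n + 1) / (U a ε (n + 1) : ℝ)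
/-- see `S1` -/
noncomputable def S2 (a ε δ : ℤ) : ℝ :=
  ∑' n : ℕ, (δ : ℝ) ^ (n + 1) * (V a ε (n + 1) : ℝ) / (U a ε (n + 1) : ℝ) ^ 2
/-- see `S1` -/
noncomputable def S3 (a ε δ : ℤ) : ℝ :=
  ∑' n : ℕ, ((δ : ℝ) * ε) ^ (n + 1) / (U a ε (n + 1) : ℝ) ^ 3

/-- `h_l = 2 (r 0 δ^l/U_l + r 1 δ^l V_l/U_l^2 + r 2 (δε)^l/U_l^3)`. -/
noncomputable def hl (a ε δ : ℤ) (r : Fin 3 → ℤ) (l : ℕ) : ℝ :=
  2 * ((r 0 : ℝ) * ((δ : ℝ) ^ l / (U a ε l : ℝ)) +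
    (r 1 : ℝ) * ((δ : ℝ) ^ l * (V a ε l : ℝ) / (U a ε l : ℝ) ^ 2) +
    (r 2 : ℝ) * (((δ : ℝ) * ε) ^ l / (U a ε l : ℝ) ^ 3))

/-- `∑_{l ≥ 1} h_l`. -/
noncomputable def SH (a ε δ : ℤ) (r : Fin 3 → ℤ) : ℝ := ∑' l : ℕ, hl a ε δ r (l + 1)

/-! ### weights, the numbers `c_m` and `a(K,J)` -/

/-- The weight `W(m) = w 0 + w 1 m + w 2 m^2`. -/
noncomputable def Wt (w : Fin 3 → ℝ) (m : ℝ) : ℝ := w 0 + w 1 * m + w 2 * m ^ 2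

/-- The weight of the problem: with `D = a² - 4 ε`,
`W(m) = √D (2 r 0 + D r 2 m(m+1)) + 2 D r 1 (2m+1)`. -/
noncomputable def wr (a ε : ℤ) (r : Fin 3 → ℤ) : Fin 3 → ℝ :=
  ![2 * (r 0 : ℝ) * sD a ε + 2 * sD a ε ^ 2 * (r 1 : ℝ),
    4 * sD a ε ^ 2 * (r 1 : ℝ) + sD a ε ^ 3 * (r 2 : ℝ),
    sD a ε ^ 3 * (r 2 : ℝ)]

/-- Hypotheses on the real numbers `p`, `x` in the analytic part. -/
def Hpx (p x : ℝ) : Prop :=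
  2 ≤ |p| ∧ 1 ≤ |x| ∧ |x| ≤ |p| ∧ 1 / 4 ≤ |1 + x| ∧ 1 / 4 ≤ |1 + x * p⁻¹|

/-- The size of the weight. -/
noncomputable def nw (w : Fin 3 → ℝ) : ℝ := |w 0| + |w 1| + |w 2|

/-- `c_m = W(m)/(1 + x p^m)`, `m ∈ ℤ`. -/
noncomputable def cc (w : Fin 3 → ℝ) (p x : ℝ) (m : ℤ) : ℝ := Wt w (m : ℝ) / (1 + x * p ^ m)

/-- `a(K,J) = ∑_{e ≥ 1} p^{-K e} c_{e+J}`, `J ∈ ℤ` (used for `K ≥ 1`). -/
noncomputable def ac (w : Fin 3 → ℝ) (p x : ℝ) (K : ℕ) (J : ℤ) : ℝ :=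
  ∑' e : ℕ, (p ^ (K * (e + 1)))⁻¹ * cc w p x ((e : ℤ) + 1 + J)

/-- The matrix `(a(K, J0 + j))`, `K = 1, …, N`, `0 ≤ j < N`. -/
noncomputable def AM (w : Fin 3 → ℝ) (p x : ℝ) (J0 : ℤ) (N : ℕ) : Matrix (Fin N) (Fin N) ℝ :=
  Matrix.of fun k j => ac w p x ((k : ℕ) + 1) (J0 + ((j : ℕ) : ℤ))

/-! ### denominators -/

/-- `η_d = δ ε^((d-1)/2)`. -/
noncomputable def eta (ε δ : ℤ) (d : ℕ) : ℝ := (δ : ℝ) * (ε : ℝ) ^ ((d - 1) / 2)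

/-- `Δ_J(y)`: product of `Φ_d(η_d y)` over the odd `d ≤ 2J+1` and of `Φ_d(-η_d y)` over the odd
`d` with `3d ≤ 2J+1`. -/
noncomputable def Dl (ε δ : ℤ) (y : ℝ) (J : ℕ) : ℝ :=
  (∏ d ∈ (Icc 1 (2 * J + 1)).filter (fun d => d % 2 = 1),
    (Polynomial.cyclotomic d ℝ).eval (eta ε δ d * y)) *
  ∏ d ∈ (Icc 1 ((2 * J + 1) / 3)).filter (fun d => d % 2 = 1),
    (Polynomial.cyclotomic d ℝ).eval (-(eta ε δ d * y))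

/-- The column denominators: `Δ_J(y)` for `J ≥ 0`, `1` for `J = -1`, `Δ_{-2-J}(y')` for
`J ≤ -2`. -/
noncomputable def Dc (ε δ : ℤ) (y y' : ℝ) : ℤ → ℝ
  | Int.ofNat j => Dl ε δ y j
  | Int.negSucc 0 => 1
  | Int.negSucc (j + 1) => Dl ε δ y' j

/-- All denominators for the window `-n ≤ J ≤ n`, `1 ≤ K ≤ 2n+1`. -/
noncomputable def DD (ε δ : ℤ) (q y y' : ℝ) (n : ℕ) : ℝ :=
  (∏ k ∈ range (2 * n + 1), |DK q (k + 1)| ^ 3) *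
    ∏ j ∈ range (2 * n + 1), |Dc ε δ y y' (-(n : ℤ) + j)|

/-! ### residue fields -/

/-- The data of a residue field, `g` the image of `α`: `1 + x p^m0 = 0`, the order of `p` is
`T = Tt ε m0`, and the `c_m` with `m = m0`, `m = m0 - T` have poles. -/
structure Dat (a ε δ : ℤ) (r : Fin 3 → ℤ) (m0 : ℕ) (F : Type) [Field F] (g : F) : Prop where
  hm0 : 2 ≤ m0
  hg : g ^ 2 = (a : F) * g - (ε : F)
  hw : (δ : F) * g * ((ε : F) * g ^ 2) ^ m0 = 1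
  hord : ∀ k : ℕ, 0 < k → k < Tt ε m0 → ((ε : F) * g ^ 2) ^ k ≠ 1
  h2 : (2 : F) ≠ 0
  h3 : (3 : F) ≠ 0
  hD : (((a ^ 2 - 4 * ε : ℤ)) : F) ≠ 0
  hr : ∀ i : Fin 3, r i ≠ 0 → ((r i : ℤ) : F) ≠ 0
  hc : cc (wr a ε r) (pp a ε) (xd a ε δ) m0 ≠ 0 ∧
    Rl a ε g (cc (wr a ε r) (pp a ε) (xd a ε δ) m0)⁻¹ 0
  hc' : cc (wr a ε r) (pp a ε) (xd a ε δ) ((m0 : ℤ) - Tt ε m0) ≠ 0 ∧
    Rl a ε g (cc (wr a ε r) (pp a ε) (xd a ε δ) ((m0 : ℤ) - Tt ε m0))⁻¹ 0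

/-- The largest pole order: `3, 2, 1` for `r 2 ≠ 0`, `r 2 = 0 ≠ r 1`, `r 2 = r 1 = 0`. -/
def jt (r : Fin 3 → ℤ) : ℕ := if r 2 ≠ 0 then 3 else if r 1 ≠ 0 then 2 else 1

/-! ### analytic part (real `p` with `|p| ≥ 2`) -/

/-- The functional `D_w f = w_0 f_0 + w_1 f_1 + 2 w_2 f_2` (so `D_w (e^{m h}) = W(m)`). -/
noncomputable def Dg (w : Fin 3 → ℝ) (f : PowerSeries ℝ) : ℝ :=
  w 0 * PowerSeries.coeff 0 f + w 1 * PowerSeries.coeff 1 f + 2 * w 2 * PowerSeries.coeff 2 f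

/-- The weights `w_t = -(-x)^{-t}`: `1/(1+z) = ∑_{t≥1} -(-z)^{-t}` for `|z| > 1`. -/
noncomputable def wt (x : ℝ) (t : ℕ) : ℝ := -((-x) ^ t)⁻¹

/-- `κ_t(F) = w_t D_w[X_t F(X_t)/Q(X_t)]`. -/
noncomputable def kap (w : Fin 3 → ℝ) (p x : ℝ) (N t : ℕ) (F : Polynomial ℝ) : ℝ :=
  wt x t * Dg w (XX p t * Polynomial.aeval (XX p t) F * (QQ p N t)⁻¹)

/-- `L(F,G) = ∑_k ∑_j F(p^(k+1))/π_k a(k+1,j) G_j`. -/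
noncomputable def LL (w : Fin 3 → ℝ) (p x : ℝ) (N : ℕ) (F G : Polynomial ℝ) : ℝ :=
  ∑ k ∈ range N, ∑ j ∈ range N,
    F.eval (p ^ (k + 1)) / pik p N k * ac w p x (k + 1) (j : ℤ) * G.coeff j

/-- The same with the columns `J = -n0 + j`. -/
noncomputable def LW (w : Fin 3 → ℝ) (p x : ℝ) (N n0 : ℕ) (F G : Polynomial ℝ) : ℝ :=
  ∑ k ∈ range N, ∑ j ∈ range N,
    F.eval (p ^ (k + 1)) / pik p N k * ac w p x (k + 1) (-(n0 : ℤ) + (j : ℤ)) * G.coeff j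

end Pool.Agent.H410.FL
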