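import Pool.Agent.H410.FL.Stm

/-!
The statement `S_AA` (adapted from `FC/P_AA.lean` of helper588; for helper410).
-/

set_option autoImplicit false

namespace Pool.Agent.H410.FL.P_AA

open Finset Polynomial
open Pool.Agent.H410.FC (pik ww)

theorem sq_sum : HasSum (fun n : ℕ => ((n : ℝ) + 1) ^ 2 * (2 / 3 : ℝ) ^ n) 45 := by
  have hr : ‖(2 / 3 : ℝ)‖ < 1 := by
    rw [Real.norm_of_nonneg (by norm_num)]
    norm_num
  have h2 := (hasSum_choose_mul_geometric_of_norm_lt_one 2 hr).mul_left 2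
  have h1 := hasSum_choose_mul_geometric_of_norm_lt_one 1 hr
  have h3 := h2.sub h1
  have h4 : (2 : ℝ) * (1 / (1 - 2 / 3) ^ (2 + 1)) - 1 / (1 - 2 / 3) ^ (1 + 1) = 45 := by norm_num
  rw [h4] at h3
  have h5 : (fun n : ℕ => ((n : ℝ) + 1) ^ 2 * (2 / 3 : ℝ) ^ n) = fun n : ℕ =>
      2 * ((((n + 2).choose 2 : ℕ) : ℝ) * (2 / 3 : ℝ) ^ n) -
        (((n + 1).choose 1 : ℕ) : ℝ) * (2 / 3 : ℝ) ^ n := by
    funext n
    have h6 : (((n + 2).choose 2 : ℕ) : ℝ) = ((n : ℝ) + 2) * ((n : ℝ) + 1) / 2 := by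
      rw [Nat.cast_choose_two]
      push_cast
      ring
    rw [h6, Nat.choose_one_right]
    push_cast
    ring
  rw [h5]
  exact h3

/-- the coefficients -/
noncomputable def co (p : ℝ) (N i e : ℕ) : ℝ :=
  ∑ k ∈ range N, (p ^ (k + 1)) ^ i / pik p N k * (p ^ ((k + 1) * (e + 1)))⁻¹

theorem co_small (hDIV : Pool.Agent.H410.FC.S_DIV) {p : ℝ} (hp : 2 ≤ |p|) {N i e : ℕ} (hi : i < N) (he : e < i) :
    co p N i e = 0 := by
  have hp0 : p ≠ 0 := by
    rintro rfl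
    norm_num at hp
  have h1 := (hDIV p hp N (by omega)).1 (X ^ (i - (e + 1))) (by
    rw [natDegree_X_pow]
    omega)
  rw [← h1]
  unfold co
  refine Finset.sum_congr rfl fun k _ => ?_
  have hq : p ^ (k + 1) ≠ 0 := pow_ne_zero _ hp0
  rw [eval_pow, eval_X, pow_mul, div_mul_eq_mul_div]
  congr 1
  have h2 : i = (i - (e + 1)) + (e + 1) := by omega
  conv_lhs => rw [h2, pow_add]
  rw [mul_assoc, mul_inv_cancel₀ (pow_ne_zero _ hq), mul_one]

theorem co_large (hDIV : Pool.Agent.H410.FC.S_DIV) {p : ℝ} (hp : 2 ≤ |p|) {N i n : ℕ} (hi : i < N) :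
    |co p N i (n + i)| ≤ 20 * (2 / 3) ^ n * ww p N := by
  have hp0 : p ≠ 0 := by
    rintro rfl
    norm_num at hp
  have h1 := (hDIV p hp N (by omega)).2 (n + 1) (by omega)
  rw [Nat.add_sub_cancel] at h1
  have h2 : co p N i (n + i) = ∑ k ∈ range N, ((p ^ (k + 1)) ^ (n + 1))⁻¹ / pik p N k := by
    unfold co
    refine Finset.sum_congr rfl fun k _ => ?_
    have hq : p ^ (k + 1) ≠ 0 := pow_ne_zero _ hp0
    rw [pow_mul, div_mul_eq_mul_div]
    congr 1
    have h2 : n + i + 1 = i + (n + 1) := by omega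
    rw [h2, pow_add (p ^ (k + 1)) i, mul_inv, ← mul_assoc, mul_inv_cancel₀ (pow_ne_zero _ hq),
      one_mul]
  rw [h2]
  exact h1

theorem LW_eq (w : Fin 3 → ℝ) (p x : ℝ) {N n0 i j : ℕ} (hj : j < N) :
    LW w p x N n0 (X ^ i) (X ^ j) = ∑ k ∈ range N, (p ^ (k + 1)) ^ i / pik p N k *
      ac w p x (k + 1) (-(n0 : ℤ) + (j : ℤ)) := by
  unfold LW
  refine Finset.sum_congr rfl fun k _ => ?_
  rw [Finset.sum_eq_single j]
  · rw [eval_pow, eval_X, coeff_X_pow_self, mul_one]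
  · intro b _ hb
    rw [coeff_X_pow, if_neg hb, mul_zero]
  · intro h
    exact absurd (Finset.mem_range.2 hj) h

end Pool.Agent.H410.FL.P_AA

namespace Pool.Agent.H410.FL

open Finset Polynomial
open Pool.Agent.H410.FL.P_AA
open Pool.Agent.H410.FC (pik ww)

theorem t_AA (hCB : S_CB) (hSUM : S_SUM) (hDIV : Pool.Agent.H410.FC.S_DIV) : S_AA := by
  intro w p x hpx N n0 i j hn0 hi hj
  have hp := hpx.1
  have hiN : i < N := by omega
  rw [LW_eq w p x (by omega : j < N)]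
  set J : ℤ := -(n0 : ℤ) + (j : ℤ) with hJ
  have h1 : HasSum (fun e : ℕ => co p N i e * cc w p x ((e : ℤ) + 1 + J))
      (∑ k ∈ range N, (p ^ (k + 1)) ^ i / pik p N k * ac w p x (k + 1) J) := by
    have h2 : HasSum (fun e : ℕ => ∑ k ∈ range N, (p ^ (k + 1)) ^ i / pik p N k *
        ((p ^ ((k + 1) * (e + 1)))⁻¹ * cc w p x ((e : ℤ) + 1 + J)))
        (∑ k ∈ range N, (p ^ (k + 1)) ^ i / pik p N k * ac w p x (k + 1) J) :=
      hasSum_sum fun k _ => (hSUM w p x hpx (k + 1) (by omega) J).hasSum.mul_left _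
    have h3 : (fun e : ℕ => co p N i e * cc w p x ((e : ℤ) + 1 + J)) = fun e : ℕ =>
        ∑ k ∈ range N, (p ^ (k + 1)) ^ i / pik p N k *
        ((p ^ ((k + 1) * (e + 1)))⁻¹ * cc w p x ((e : ℤ) + 1 + J)) := by
      funext e
      unfold co
      rw [Finset.sum_mul]
      exact Finset.sum_congr rfl fun k _ => by ring
    rw [h3]
    exact h2
  rw [← hasSum_nat_add_iff' i] at h1
  have h4 : ∑ e ∈ range i, co p N i e * cc w p x ((e : ℤ) + 1 + J) = 0 := by
    refine Finset.sum_eq_zero fun e he => ?_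
    rw [co_small hDIV hp hiN (Finset.mem_range.1 he), zero_mul]
  rw [h4, sub_zero] at h1
  have hw : 0 ≤ ww p N := by
    unfold ww
    positivity
  have hnw : 0 ≤ nw w := by
    unfold nw
    positivity
  have h5 := sq_sum.mul_left (80 * nw w * ((N : ℝ) + 2) ^ 2 * ww p N)
  have h6 := h1.norm_le_of_bounded h5 (fun n => by
    rw [norm_mul, Real.norm_eq_abs, Real.norm_eq_abs]
    have h7 := co_large hDIV hp (n := n) hiN
    have h8 := (hCB w p x hpx (((n + i : ℕ) : ℤ) + 1 + J)).1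
    have h9 : |((((n + i : ℕ) : ℤ) + 1 + J : ℤ) : ℝ)| + 1 ≤ ((N : ℝ) + 2) * ((n : ℝ) + 1) := by
      have ha : (i : ℝ) < n0 := by exact_mod_cast hi
      have hb : (j : ℝ) < n0 := by exact_mod_cast hj
      have hc : (n0 : ℝ) ≤ N := by exact_mod_cast hn0
      have hd : (0 : ℝ) ≤ i := Nat.cast_nonneg i
      have he : (0 : ℝ) ≤ j := Nat.cast_nonneg j
      have hf : (0 : ℝ) ≤ n := Nat.cast_nonneg n
      have hg : (0 : ℝ) ≤ N := Nat.cast_nonneg N
      have hcast : ((((n + i : ℕ) : ℤ) + 1 + J : ℤ) : ℝ) = (n : ℝ) + i + 1 + (-(n0 : ℝ) + j) := by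
        rw [hJ]
        push_cast
        ring
      rw [hcast]
      have hk : |(n : ℝ) + i + 1 + (-(n0 : ℝ) + j)| ≤ (N : ℝ) + n + 1 := by
        rw [abs_le]
        constructor <;> nlinarith
      nlinarith [mul_nonneg hg hf]
    have h10 : |cc w p x (((n + i : ℕ) : ℤ) + 1 + J)| ≤
        4 * nw w * (((N : ℝ) + 2) * ((n : ℝ) + 1)) ^ 2 := by
      refine h8.trans (mul_le_mul_of_nonneg_left (pow_le_pow_left₀ (by positivity) h9 2)
        (by positivity))
    calc |co p N i (n + i)| * |cc w p x (((n + i : ℕ) : ℤ) + 1 + J)|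
        ≤ (20 * (2 / 3) ^ n * ww p N) * (4 * nw w * (((N : ℝ) + 2) * ((n : ℝ) + 1)) ^ 2) :=
          mul_le_mul h7 h10 (abs_nonneg _) (by positivity)
      _ = 80 * nw w * ((N : ℝ) + 2) ^ 2 * ww p N * (((n : ℝ) + 1) ^ 2 * (2 / 3 : ℝ) ^ n) := by ring)
  rw [Real.norm_eq_abs] at h6
  refine h6.trans (le_of_eq (by ring))

end Pool.Agent.H410.FL
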