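import Pool.Agent.H410.FL.Stm

/-!
Series for `a(K,J)`.
-/

namespace Pool.Agent.H410.FL

open Finset Polynomial
open Pool.Agent.H410.FC (OK U sD al be pp DK Cj Rl Tt xt XX QQ pik VV EE FF ea ww C3 BF rr)

namespace P_ASER

/-- The double sequence. -/
noncomputable def f (w : Fin 3 → ℝ) (p x : ℝ) (K J e t : ℕ) : ℝ :=
  wt x (t + 1) * (((p ^ K) ^ (e + 1))⁻¹ *
    Wt w ((e + (J + 1) : ℕ) : ℝ) * (xt p (t + 1)) ^ (e + (J + 1)))

theorem abs_Wt (w : Fin 3 → ℝ) (n : ℕ) :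
    |Wt w (n : ℝ)| ≤ |w 0| + |w 1| * n + |w 2| * n ^ 2 := by
  unfold Wt
  refine (abs_add_le _ _).trans (add_le_add ((abs_add_le _ _).trans (add_le_add le_rfl ?_)) ?_)
  · rw [abs_mul, Nat.abs_cast]
  · rw [abs_mul, abs_of_nonneg (by positivity : (0 : ℝ) ≤ (n : ℝ) ^ 2)]

theorem abs_xt {p : ℝ} (hp : 2 ≤ |p|) (t : ℕ) : |xt p t| ≤ (1 / 2) ^ t := by
  unfold xt
  rw [abs_inv, abs_pow, one_div, inv_pow]
  exact inv_anti₀ (by positivity) (pow_le_pow_left₀ (by norm_num) hp t)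

theorem abs_wt {x : ℝ} (hx : 1 ≤ |x|) (t : ℕ) : |wt x t| ≤ 1 := by
  unfold wt
  rw [abs_neg, abs_inv, abs_pow, abs_neg]
  exact inv_le_one_of_one_le₀ (one_le_pow₀ hx)

theorem abs_f (w : Fin 3 → ℝ) {p x : ℝ} (hp : 2 ≤ |p|) (hx : 1 ≤ |x|) (K J e t : ℕ) :
    |f w p x K J e t| ≤ (|Wt w ((e + (J + 1) : ℕ) : ℝ)| *
      (1 / 2) ^ (e + (J + 1))) * (1 / 2) ^ t := by
  have h1 : |((p ^ K) ^ (e + 1))⁻¹| ≤ 1 := by
    rw [abs_inv, abs_pow, abs_pow]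
    apply inv_le_one_of_one_le₀
    exact one_le_pow₀ (one_le_pow₀ (by linarith))
  have h2 : |(xt p (t + 1)) ^ (e + (J + 1))| ≤ (1 / 2) ^ (e + (J + 1)) * (1 / 2) ^ t := by
    rw [abs_pow]
    calc |xt p (t + 1)| ^ (e + (J + 1)) ≤ ((1 / 2 : ℝ) ^ (t + 1)) ^ (e + (J + 1)) :=
          pow_le_pow_left₀ (abs_nonneg _) (abs_xt hp _) _
      _ = (1 / 2 : ℝ) ^ ((t + 1) * (e + (J + 1))) := by rw [← pow_mul]
      _ ≤ (1 / 2 : ℝ) ^ ((e + (J + 1)) + t) := by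
          apply pow_le_pow_of_le_one (by norm_num) (by norm_num)
          nlinarith [Nat.zero_le (t * e), Nat.zero_le (t * J)]
      _ = _ := by rw [pow_add]
  unfold f
  rw [abs_mul, abs_mul, abs_mul]
  have h4 := abs_wt hx (t + 1)
  calc |wt x (t + 1)| * (|((p ^ K) ^ (e + 1))⁻¹| *
        |Wt w ((e + (J + 1) : ℕ) : ℝ)| * |(xt p (t + 1)) ^ (e + (J + 1))|) ≤
        1 * (1 * |Wt w ((e + (J + 1) : ℕ) : ℝ)| *
        ((1 / 2) ^ (e + (J + 1)) * (1 / 2) ^ t)) := by gcongr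
    _ = _ := by ring

theorem summable_W (w : Fin 3 → ℝ) :
    Summable (fun n : ℕ => |Wt w (n : ℝ)| * (1 / 2 : ℝ) ^ n) := by
  have h11 : Summable (fun n : ℕ => (n : ℝ) ^ 2 * (1 / 2 : ℝ) ^ n) :=
    summable_pow_mul_geometric_of_norm_lt_one 2 (by rw [Real.norm_eq_abs]; norm_num)
  have h12 : Summable (fun n : ℕ => (n : ℝ) ^ 1 * (1 / 2 : ℝ) ^ n) :=
    summable_pow_mul_geometric_of_norm_lt_one 1 (by rw [Real.norm_eq_abs]; norm_num)
  have h13 : Summable (fun n : ℕ => (n : ℝ) ^ 0 * (1 / 2 : ℝ) ^ n) :=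
    summable_pow_mul_geometric_of_norm_lt_one 0 (by rw [Real.norm_eq_abs]; norm_num)
  have h2 := ((h13.mul_left |w 0|).add (h12.mul_left |w 1|)).add (h11.mul_left |w 2|)
  refine Summable.of_nonneg_of_le (fun n => by positivity) (fun n => ?_) h2
  calc |Wt w (n : ℝ)| * (1 / 2 : ℝ) ^ n ≤
        (|w 0| + |w 1| * n + |w 2| * n ^ 2) * (1 / 2 : ℝ) ^ n :=
        mul_le_mul_of_nonneg_right (abs_Wt w n) (by positivity)
    _ = _ := by ring

theorem summable_f (w : Fin 3 → ℝ) {p x : ℝ} (hp : 2 ≤ |p|) (hx : 1 ≤ |x|) (K J : ℕ) :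
    Summable (fun z : ℕ × ℕ => f w p x K J z.1 z.2) := by
  have h2 : Summable (fun e : ℕ => |Wt w ((e + (J + 1) : ℕ) : ℝ)| *
      (1 / 2 : ℝ) ^ (e + (J + 1))) :=
    (summable_nat_add_iff (f := fun n : ℕ => |Wt w (n : ℝ)| * (1 / 2 : ℝ) ^ n)
      (J + 1)).2 (summable_W w)
  have h3 : Summable (fun t : ℕ => (1 / 2 : ℝ) ^ t) :=
    summable_geometric_of_lt_one (by norm_num) (by norm_num)
  have h4 : Summable (fun z : ℕ × ℕ => (|Wt w ((z.1 + (J + 1) : ℕ) : ℝ)| *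
      (1 / 2 : ℝ) ^ (z.1 + (J + 1))) * (1 / 2 : ℝ) ^ z.2) :=
    Summable.mul_of_nonneg h2 h3 (fun e => by positivity) (fun t => by positivity)
  refine Summable.of_norm_bounded h4 ?_
  rintro ⟨e, t⟩
  rw [Real.norm_eq_abs]
  exact abs_f w hp hx K J e t

theorem geo {z : ℝ} (hz : 2 ≤ |z|) :
    HasSum (fun t : ℕ => -(z ^ (t + 1))⁻¹) (1 / (1 - z)) := by
  have hz0 : z ≠ 0 := by
    rintro rfl
    rw [abs_zero] at hz
    linarith
  have hz1 : 1 - z ≠ 0 := by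
    intro h0
    have : z = 1 := by linarith
    rw [this, abs_one] at hz
    linarith
  have hq : |z⁻¹| < 1 := by
    rw [abs_inv]
    exact inv_lt_one_of_one_lt₀ (by linarith)
  have h1 := (hasSum_geometric_of_abs_lt_one hq).mul_left (-z⁻¹)
  have h2 : -z⁻¹ * (1 - z⁻¹)⁻¹ = 1 / (1 - z) := by
    have e4 : (1 - z⁻¹) = (z - 1) / z := by
      rw [sub_div, div_self hz0, one_div]
    rw [e4, inv_div]
    have : z - 1 ≠ 0 := fun h => hz1 (by linarith)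
    field_simp
    ring
  rw [h2] at h1
  have h3 : (fun t : ℕ => -(z ^ (t + 1))⁻¹) = fun t : ℕ => -z⁻¹ * z⁻¹ ^ t := by
    funext t
    rw [inv_pow, pow_succ, mul_inv]
    ring
  rw [h3]
  exact h1

theorem hasSum_t (w : Fin 3 → ℝ) {p x : ℝ} (hp : 2 ≤ |p|) (hx : 1 ≤ |x|) (K J e : ℕ) :
    HasSum (fun t : ℕ => f w p x K J e t)
      ((p ^ (K * (e + 1)))⁻¹ * cc w p x ((e : ℤ) + 1 + (J : ℤ))) := by
  have hn1 : 1 ≤ e + (J + 1) := by omega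
  have hpn : (2:ℝ) ≤ |-x * p ^ (e + (J + 1))| := by
    rw [abs_mul, abs_neg, abs_pow]
    calc (2:ℝ) = 1 * 2 ^ 1 := by norm_num
      _ ≤ 1 * 2 ^ (e + (J + 1)) :=
          mul_le_mul_of_nonneg_left (pow_le_pow_right₀ (by norm_num) hn1) zero_le_one
      _ ≤ |x| * |p| ^ (e + (J + 1)) :=
          mul_le_mul hx (pow_le_pow_left₀ (by norm_num) hp _) (by positivity) (by positivity)
  have h1 := (geo hpn).mul_left (((p ^ K) ^ (e + 1))⁻¹ *
    Wt w ((e + (J + 1) : ℕ) : ℝ))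
  have h2 : (((p ^ K) ^ (e + 1))⁻¹ *
      Wt w ((e + (J + 1) : ℕ) : ℝ)) * (1 / (1 - -x * p ^ (e + (J + 1)))) =
      (p ^ (K * (e + 1)))⁻¹ * cc w p x ((e : ℤ) + 1 + (J : ℤ)) := by
    have e1 : (e : ℤ) + 1 + (J : ℤ) = ((e + (J + 1) : ℕ) : ℤ) := by
      push_cast
      ring
    unfold cc
    rw [e1, zpow_natCast, pow_mul, Int.cast_natCast]
    rw [neg_mul, sub_neg_eq_add]
    ring
  rw [h2] at h1
  have h3 : (fun t : ℕ => f w p x K J e t) = fun t : ℕ => (((p ^ K) ^ (e + 1))⁻¹ *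
      Wt w ((e + (J + 1) : ℕ) : ℝ)) *
        -((-x * p ^ (e + (J + 1))) ^ (t + 1))⁻¹ := by
    funext t
    unfold f wt xt
    have e5 : ((-x) * p ^ (e + (J + 1))) ^ (t + 1) =
        (-x) ^ (t + 1) * (p ^ (t + 1)) ^ (e + (J + 1)) := by
      rw [mul_pow, ← pow_mul, ← pow_mul, mul_comm (e + (J + 1))]
    rw [e5, mul_inv, inv_pow]
    ring
  rw [h3]
  exact h1

end P_ASER

open P_ASER in
/-- **Series for `a(K,J)`.** -/
theorem t_ASER (hCB : S_CB) (hKER : S_KER) : S_ASER := by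
  intro w p x h K J hK
  obtain ⟨hp, hx, -⟩ := h
  have hs := summable_f w hp hx K J
  have h1 : HasSum (fun e : ℕ => (p ^ (K * (e + 1)))⁻¹ * cc w p x ((e : ℤ) + 1 + (J : ℤ)))
      (∑' z : ℕ × ℕ, f w p x K J z.1 z.2) :=
    hs.hasSum.prod_fiberwise fun e => hasSum_t w hp hx K J e
  have h2 : ac w p x K (J : ℤ) = ∑' z : ℕ × ℕ, f w p x K J z.1 z.2 := h1.tsum_eq
  have h3 : HasSum (fun z : ℕ × ℕ => f w p x K J z.2 z.1) (∑' z : ℕ × ℕ, f w p x K J z.1 z.2) :=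
    (Equiv.prodComm ℕ ℕ).hasSum_iff.2 hs.hasSum
  have h4 : HasSum (fun t : ℕ => ∑' e : ℕ, f w p x K J e t)
      (∑' z : ℕ × ℕ, f w p x K J z.1 z.2) :=
    h3.prod_fiberwise fun t => (h3.summable.prod_factor t).hasSum
  rw [← h2] at h4
  have h5 : (fun t : ℕ => ∑' e : ℕ, f w p x K J e t) = fun t : ℕ =>
      wt x (t + 1) * Dg w (XX p (t + 1) ^ (J + 1) *
        (PowerSeries.C (p ^ K) - XX p (t + 1))⁻¹) := by
    funext t
    have hx : |xt p (t + 1)| ≤ 1 / 2 := by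
      refine (abs_xt hp (t + 1)).trans ?_
      calc ((1:ℝ) / 2) ^ (t + 1) ≤ (1 / 2) ^ 1 :=
            pow_le_pow_of_le_one (by norm_num) (by norm_num) (by omega)
        _ = 1 / 2 := by norm_num
    have hP : 1 ≤ |p ^ K| := by
      rw [abs_pow]
      exact one_le_pow₀ (by linarith)
    have h6 := hKER w (xt p (t + 1)) (p ^ K) hx hP (J + 1) (by omega)
    unfold XX
    rw [h6, ← tsum_mul_left]
    rfl
  rw [h5] at h4
  exact h4

end Pool.Agent.H410.FL
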