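import Pool.Agent.H410.FL.Stm

/-! Proof of `S_CB` (project FL of helper410), written by helper139 after `FC/P_CB`. -/

namespace Pool.Agent.H410.FL

namespace P_CB

theorem wt_bd (w : Fin 3 → ℝ) (m : ℝ) : |Wt w m| ≤ nw w * (|m| + 1) ^ 2 := by
  unfold Wt nw
  have h0 := abs_nonneg m
  have a0 := abs_nonneg (w 0)
  have a1 := abs_nonneg (w 1)
  have a2 := abs_nonneg (w 2)
  have h1 : |w 0 + w 1 * m + w 2 * m ^ 2| ≤ |w 0| + |w 1| * |m| + |w 2| * |m| ^ 2 := by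
    refine (abs_add_le _ _).trans ?_
    rw [abs_mul, abs_pow]
    have h2 := abs_add_le (w 0) (w 1 * m)
    rw [abs_mul] at h2
    linarith
  have b1 : |m| ≤ (|m| + 1) ^ 2 := by nlinarith
  have b2 : |m| ^ 2 ≤ (|m| + 1) ^ 2 := by nlinarith
  have b0 : 1 ≤ (|m| + 1) ^ 2 := by nlinarith
  have c0 := mul_le_mul_of_nonneg_left b0 a0
  have c1 := mul_le_mul_of_nonneg_left b1 a1
  have c2 := mul_le_mul_of_nonneg_left b2 a2
  calc |w 0 + w 1 * m + w 2 * m ^ 2| ≤ |w 0| * 1 + |w 1| * |m| + |w 2| * |m| ^ 2 := by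
        rw [mul_one]; exact h1
    _ ≤ |w 0| * (|m| + 1) ^ 2 + |w 1| * (|m| + 1) ^ 2 + |w 2| * (|m| + 1) ^ 2 := by linarith
    _ = (|w 0| + |w 1| + |w 2|) * (|m| + 1) ^ 2 := by ring

theorem main (w : Fin 3 → ℝ) (p x : ℝ) (m : ℤ) (h : 1 / 4 ≤ |1 + x * p ^ m|) :
    |cc w p x m| ≤ 4 * nw w * (|(m : ℝ)| + 1) ^ 2 ∧ 1 + x * p ^ m ≠ 0 := by
  refine ⟨?_, fun h0 => ?_⟩
  · unfold cc
    rw [abs_div, div_le_iff₀ (by linarith)]
    have h1 := wt_bd w m
    have h2 := abs_nonneg (Wt w m)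
    have h3 : 0 ≤ nw w * (|(m : ℝ)| + 1) ^ 2 := h2.trans h1
    nlinarith
  · rw [h0, abs_zero] at h
    norm_num at h

theorem pos_case (p x : ℝ) (h : Hpx p x) (n : ℕ) (hn : 1 ≤ n) :
    1 / 4 ≤ |1 + x * p ^ (n : ℤ)| := by
  obtain ⟨h1, h2, -⟩ := h
  have h3 : (2 : ℝ) ≤ |p| ^ n := by
    calc (2 : ℝ) ≤ |p| := h1
      _ = |p| ^ 1 := (pow_one _).symm
      _ ≤ |p| ^ n := pow_le_pow_right₀ (by linarith) hn
  have h4 : (2 : ℝ) ≤ |x * p ^ (n : ℤ)| := by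
    rw [abs_mul, zpow_natCast, abs_pow]
    nlinarith
  have h5 : |x * p ^ (n : ℤ)| ≤ |1 + x * p ^ (n : ℤ)| + 1 := by
    have h6 := abs_sub (1 + x * p ^ (n : ℤ)) 1
    rw [abs_one, add_sub_cancel_left] at h6
    exact h6
  linarith

theorem neg_case (p x : ℝ) (h : Hpx p x) (n : ℕ) (hn : 2 ≤ n) :
    1 / 4 ≤ |1 + x * p ^ (-(n : ℤ))| := by
  obtain ⟨h1, h2, h3, -⟩ := h
  have hp : 0 < |p| := by linarith
  have h4 : |x * p ^ (-(n : ℤ))| ≤ 1 / 2 := by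
    rw [abs_mul, zpow_neg, zpow_natCast, abs_inv, abs_pow, ← div_eq_mul_inv,
      div_le_div_iff₀ (by positivity) (by norm_num)]
    have h5 : |p| ^ 2 ≤ |p| ^ n := pow_le_pow_right₀ (by linarith) hn
    nlinarith
  have h5 : (1 : ℝ) ≤ |1 + x * p ^ (-(n : ℤ))| + |x * p ^ (-(n : ℤ))| := by
    have h6 := abs_sub (1 + x * p ^ (-(n : ℤ))) (x * p ^ (-(n : ℤ)))
    rw [add_sub_cancel_right, abs_one] at h6
    exact h6
  linarith

end P_CB

open P_CB in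
theorem t_CB : S_CB := by
  intro w p x h m
  rcases le_or_gt 1 m with h1 | h1
  · obtain ⟨n, rfl⟩ := Int.eq_ofNat_of_zero_le (by omega : 0 ≤ m)
    exact main w p x _ (pos_case p x h n (by omega))
  · rcases le_or_gt m (-2) with h2 | h2
    · obtain ⟨n, hn⟩ := Int.eq_ofNat_of_zero_le (by omega : 0 ≤ -m)
      have e : m = -(n : ℤ) := by omega
      subst e
      exact main w p x _ (neg_case p x h n (by omega))
    · have h4 : m = 0 ∨ m = -1 := by omega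
      rcases h4 with h4 | h4
      · subst h4
        refine main w p x _ ?_
        rw [zpow_zero, mul_one]
        exact h.2.2.2.1
      · subst h4
        refine main w p x _ ?_
        rw [zpow_neg_one]
        exact h.2.2.2.2

end Pool.Agent.H410.FL
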