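import Pool.Agent.H410.FL.Stm

/-!
Closed form of `a(K,-1)` (by helper962, adapted from `FC/P_CF.lean` of helper720).
-/

namespace Pool.Agent.H410.FL

open Finset Polynomial
open Pool.Agent.H410.FC (OK U sD al be pp)

namespace P_CF

/-- `∑ (m+1) (m+2) z^m`. -/
lemma sum2 {z : ℝ} (hz : ‖z‖ < 1) :
    HasSum (fun e : ℕ => ((e : ℝ) + 1) * (e + 2) * z ^ e) (2 / (1 - z) ^ 3) := by
  have h1 := (hasSum_choose_mul_geometric_of_norm_lt_one 2 hz).mul_left 2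
  have h4 : (fun e : ℕ => ((e : ℝ) + 1) * (e + 2) * z ^ e) = fun e : ℕ =>
      2 * ((((e + 2).choose 2 : ℕ) : ℝ) * z ^ e) := by
    funext e
    rw [Nat.cast_choose_two]
    push_cast
    ring
  have h5 : 2 / (1 - z) ^ 3 = 2 * (1 / (1 - z) ^ (2 + 1)) := by
    ring
  rw [h4, h5]
  exact h1

/-- `∑ W(m) z^m`. -/
lemma sumW (w : Fin 3 → ℝ) {z : ℝ} (hz : ‖z‖ < 1) :
    HasSum (fun e : ℕ => Wt w (e : ℝ) * z ^ e)
      (w 0 * (1 - z)⁻¹ + w 1 * (z / (1 - z) ^ 2) +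
        w 2 * (2 / (1 - z) ^ 3 - 3 * (z / (1 - z) ^ 2) - 2 * (1 - z)⁻¹)) := by
  have h0 := hasSum_geometric_of_norm_lt_one hz
  have h1 := hasSum_coe_mul_geometric_of_norm_lt_one hz
  have h2 := sum2 hz
  have h3 := ((h0.mul_left (w 0)).add (h1.mul_left (w 1))).add
    (((h2.sub (h1.mul_left 3)).sub (h0.mul_left 2)).mul_left (w 2))
  refine h3.congr_fun ?_
  intro e
  unfold Wt
  ring

lemma Wt_le (w : Fin 3 → ℝ) (e : ℕ) : |Wt w (e : ℝ)| ≤ nw w * (((e : ℝ) + 1) * (e + 2)) := by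
  have he : (0 : ℝ) ≤ e := Nat.cast_nonneg e
  have h1 : |Wt w (e : ℝ)| ≤ |w 0| + |w 1| * e + |w 2| * e ^ 2 := by
    unfold Wt
    refine (abs_add_three _ _ _).trans ?_
    rw [abs_mul, abs_mul, abs_of_nonneg he, abs_of_nonneg (pow_nonneg he 2)]
  refine h1.trans ?_
  unfold nw
  have e0 : (1 : ℝ) ≤ ((e : ℝ) + 1) * (e + 2) := by nlinarith
  have e1 : (e : ℝ) ≤ ((e : ℝ) + 1) * (e + 2) := by nlinarith
  have e2 : (e : ℝ) ^ 2 ≤ ((e : ℝ) + 1) * (e + 2) := by nlinarith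
  have f0 := mul_le_mul_of_nonneg_left e0 (abs_nonneg (w 0))
  have f1 := mul_le_mul_of_nonneg_left e1 (abs_nonneg (w 1))
  have f2 := mul_le_mul_of_nonneg_left e2 (abs_nonneg (w 2))
  linarith

lemma nw_nonneg (w : Fin 3 → ℝ) : 0 ≤ nw w := by
  unfold nw
  positivity

/-- `Z_e = -x p^e` -/
noncomputable def Z (p x : ℝ) (e : ℕ) : ℝ := -x * p ^ e

/-- the terms of `(-x)^{-K} p^K a(K,-1)` -/
noncomputable def t (w : Fin 3 → ℝ) (p x : ℝ) (K e : ℕ) : ℝ :=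
  (Z p x e ^ K)⁻¹ * (Wt w (e : ℝ) / (1 - Z p x e))

/-- the terms of `h_l` -/
noncomputable def v (w : Fin 3 → ℝ) (p x : ℝ) (l e : ℕ) : ℝ := (Z p x e ^ l)⁻¹ * Wt w (e : ℝ)

lemma Z_ne {p x : ℝ} (h : Hpx p x) (e : ℕ) : Z p x e ≠ 0 := by
  unfold Z
  have h1 : p ≠ 0 := by
    intro h0
    have := h.1
    rw [h0, abs_zero] at this
    linarith
  have h2 : x ≠ 0 := by
    intro h0
    have := h.2.1
    rw [h0, abs_zero] at this
    linarith
  exact mul_ne_zero (neg_ne_zero.2 h2) (pow_ne_zero _ h1)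

lemma den_ge {p x : ℝ} (h : Hpx p x) (e : ℕ) : 1 / 4 ≤ |1 - Z p x e| := by
  rcases e with _ | e
  · have h1 : 1 - Z p x 0 = 1 + x := by
      unfold Z
      ring
    rw [h1]
    exact h.2.2.2.1
  · have h1 : 2 ≤ |Z p x (e + 1)| := by
      unfold Z
      rw [abs_mul, abs_neg, abs_pow]
      have h2 : (1 : ℝ) ≤ |p| ^ e := one_le_pow₀ (by linarith [h.1])
      have h3 : |p| ^ (e + 1) = |p| ^ e * |p| := pow_succ _ _
      have h4 : 2 ≤ |p| ^ (e + 1) := by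
        rw [h3]
        nlinarith [h.1]
      nlinarith [h.2.1]
    have h2 : |Z p x (e + 1)| - 1 ≤ |1 - Z p x (e + 1)| := by
      have h3 := abs_sub_abs_le_abs_sub (Z p x (e + 1)) 1
      rw [abs_one, abs_sub_comm] at h3
      exact h3
    linarith

lemma den_ne {p x : ℝ} (h : Hpx p x) (e : ℕ) : 1 - Z p x e ≠ 0 := by
  intro h0
  have := den_ge h e
  rw [h0, abs_zero] at this
  linarith

/-- the majorant -/
noncomputable def gg (w : Fin 3 → ℝ) (p : ℝ) (e : ℕ) : ℝ :=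
  nw w * (((e : ℝ) + 1) * (e + 2) * (|p|⁻¹) ^ e)

lemma norm_inv_lt {p x : ℝ} (h : Hpx p x) : ‖|p|⁻¹‖ < 1 := by
  rw [norm_inv, Real.norm_eq_abs, abs_abs]
  exact inv_lt_one_of_one_lt₀ (by linarith [h.1])

lemma gg_summable (w : Fin 3 → ℝ) {p x : ℝ} (h : Hpx p x) : Summable (gg w p) :=
  (sum2 (norm_inv_lt h)).summable.mul_left _

lemma inv_Z_le {p x : ℝ} (h : Hpx p x) {K : ℕ} (hK : 1 ≤ K) (e : ℕ) :
    |(Z p x e ^ K)⁻¹| ≤ (|x|⁻¹) ^ K * (|p|⁻¹) ^ e := by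
  unfold Z
  have hp1 : (1 : ℝ) ≤ |p| := by linarith [h.1]
  have hx1 := h.2.1
  rw [abs_inv, abs_pow, abs_mul, abs_neg, abs_pow, mul_pow, mul_inv, inv_pow, inv_pow]
  refine mul_le_mul_of_nonneg_left ?_ (by positivity)
  have h5 : (0 : ℝ) < |p| ^ e := by positivity
  apply inv_anti₀ h5
  rw [← pow_mul]
  exact pow_le_pow_right₀ hp1 (Nat.le_mul_of_pos_right _ hK)

lemma abs_v_le (w : Fin 3 → ℝ) {p x : ℝ} (h : Hpx p x) {l : ℕ} (hl : 1 ≤ l) (e : ℕ) :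
    |v w p x l e| ≤ (|x|⁻¹) ^ l * gg w p e := by
  unfold v gg
  rw [abs_mul]
  calc |(Z p x e ^ l)⁻¹| * |Wt w (e : ℝ)|
      ≤ ((|x|⁻¹) ^ l * (|p|⁻¹) ^ e) * (nw w * (((e : ℝ) + 1) * (e + 2))) :=
        mul_le_mul (inv_Z_le h hl e) (Wt_le w e) (abs_nonneg _) (by positivity)
    _ = _ := by ring

lemma abs_t_le (w : Fin 3 → ℝ) {p x : ℝ} (h : Hpx p x) {K : ℕ} (hK : 1 ≤ K) (e : ℕ) :
    |t w p x K e| ≤ (|x|⁻¹) ^ K * (4 * gg w p e) := by
  unfold t gg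
  rw [abs_mul, abs_div]
  have h2 := den_ge h e
  have h3 : |Wt w (e : ℝ)| / |1 - Z p x e| ≤ 4 * (nw w * (((e : ℝ) + 1) * (e + 2))) := by
    rw [div_le_iff₀ (by linarith)]
    have h4 := Wt_le w e
    have h5 : 0 ≤ nw w * (((e : ℝ) + 1) * (e + 2)) := (abs_nonneg _).trans h4
    nlinarith
  calc |(Z p x e ^ K)⁻¹| * (|Wt w (e : ℝ)| / |1 - Z p x e|)
      ≤ ((|x|⁻¹) ^ K * (|p|⁻¹) ^ e) * (4 * (nw w * (((e : ℝ) + 1) * (e + 2)))) :=
        mul_le_mul (inv_Z_le h hK e) h3 (by positivity) (by positivity)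
    _ = _ := by ring

lemma v_summable (w : Fin 3 → ℝ) {p x : ℝ} (h : Hpx p x) {l : ℕ} (hl : 1 ≤ l) :
    Summable (v w p x l) :=
  Summable.of_norm_bounded ((gg_summable w h).mul_left _) fun e => abs_v_le w h hl e

lemma t_summable (w : Fin 3 → ℝ) {p x : ℝ} (h : Hpx p x) {K : ℕ} (hK : 1 ≤ K) :
    Summable (t w p x K) :=
  Summable.of_norm_bounded (((gg_summable w h).mul_left _).mul_left _) fun e => abs_t_le w h hK e

/-- `A_K = (-x)^{-K} p^K a(K,-1)`. -/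
noncomputable def AA (w : Fin 3 → ℝ) (p x : ℝ) (K : ℕ) : ℝ := ∑' e, t w p x K e

/-- `H_l`. -/
noncomputable def HH (w : Fin 3 → ℝ) (p x : ℝ) (l : ℕ) : ℝ := ∑' e, v w p x l e

lemma AA_le (w : Fin 3 → ℝ) {p x : ℝ} (h : Hpx p x) {K : ℕ} (hK : 1 ≤ K) :
    |AA w p x K| ≤ (|x|⁻¹) ^ K * ∑' e, 4 * gg w p e := by
  have h1 := tsum_of_norm_bounded (f := t w p x K)
    (((gg_summable w h).mul_left 4).mul_left ((|x|⁻¹) ^ K)).hasSum fun e => abs_t_le w h hK e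
  rw [tsum_mul_left] at h1
  exact h1

lemma HH_le (w : Fin 3 → ℝ) {p x : ℝ} (h : Hpx p x) {l : ℕ} (hl : 1 ≤ l) :
    |HH w p x l| ≤ (|x|⁻¹) ^ l * ∑' e, gg w p e := by
  have h1 := tsum_of_norm_bounded (f := v w p x l)
    ((gg_summable w h).mul_left ((|x|⁻¹) ^ l)).hasSum fun e => abs_v_le w h hl e
  rw [tsum_mul_left] at h1
  exact h1

lemma AA_step (w : Fin 3 → ℝ) {p x : ℝ} (h : Hpx p x) {K : ℕ} (hK : 1 ≤ K) :
    AA w p x (K + 1) = AA w p x K + HH w p x (K + 1) := by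
  have h2 : ∀ e, t w p x (K + 1) e - t w p x K e = v w p x (K + 1) e := by
    intro e
    unfold t v
    have hd := den_ne h e
    have hZ := Z_ne h e
    generalize Z p x e = z at hd hZ
    generalize Wt w (e : ℝ) = c
    rw [pow_succ]
    have hzK : z ^ K ≠ 0 := pow_ne_zero _ hZ
    generalize z ^ K = zK at hzK
    field_simp
  have h3 : ∑' e, (t w p x (K + 1) e - t w p x K e) = ∑' e, v w p x (K + 1) e := tsum_congr h2
  rw [(t_summable w h (Nat.le_add_left 1 K)).tsum_sub (t_summable w h hK)] at h3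
  unfold AA HH
  linarith

/-- the closed form of `H_l` -/
lemma HH_eq (w : Fin 3 → ℝ) {p x : ℝ} (h : Hpx p x) {l : ℕ} (hl : 1 ≤ l) :
    HH w p x l = ((-x) ^ l)⁻¹ * (w 0 * (1 - (p ^ l)⁻¹)⁻¹ +
      w 1 * ((p ^ l)⁻¹ / (1 - (p ^ l)⁻¹) ^ 2) +
        w 2 * (2 / (1 - (p ^ l)⁻¹) ^ 3 - 3 * ((p ^ l)⁻¹ / (1 - (p ^ l)⁻¹) ^ 2) -
          2 * (1 - (p ^ l)⁻¹)⁻¹)) := by
  have hz : ‖(p ^ l)⁻¹‖ < 1 := by
    rw [norm_inv, Real.norm_eq_abs, abs_pow]
    apply inv_lt_one_of_one_lt₀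
    exact one_lt_pow₀ (by linarith [h.1]) (by omega)
  have h1 := (sumW w hz).mul_left (((-x) ^ l)⁻¹)
  unfold HH
  rw [← h1.tsum_eq]
  refine tsum_congr fun e => ?_
  unfold v Z
  rw [mul_pow, mul_inv, inv_pow, ← pow_mul, ← pow_mul, mul_comm e l]
  ring

lemma V_add {a ε : ℤ} (h : OK a ε) (n : ℕ) : (V a ε n : ℝ) = al a ε ^ n + be a ε ^ n := by
  induction n using Nat.strong_induction_on with
  | _ n ih =>
    match n with
    | 0 => norm_num [V]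
    | 1 =>
      rw [pow_one, pow_one, FC.al_add_be]
      simp [V]
    | (n + 2) =>
      have h0 := ih n (by omega)
      have h1 := ih (n + 1) (by omega)
      have e : (V a ε (n + 2) : ℝ) = a * V a ε (n + 1) - ε * V a ε n := by
        simp [V]
      rw [e, h0, h1]
      have ha := FC.al_sq h
      have hb := FC.be_sq h
      calc (a : ℝ) * (al a ε ^ (n + 1) + be a ε ^ (n + 1)) - ε * (al a ε ^ n + be a ε ^ n)
          = al a ε ^ n * (a * al a ε - ε) + be a ε ^ n * (a * be a ε - ε) := by ring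
        _ = al a ε ^ (n + 2) + be a ε ^ (n + 2) := by
            rw [← ha, ← hb]; ring

/-- `H_l = h_l` -/
lemma HH_hl {a ε δ : ℤ} (r : Fin 3 → ℤ) (h : OK a ε) (hs : Sg ε δ)
    (hH : Hpx (pp a ε) (xd a ε δ)) {l : ℕ} (hl1 : 1 ≤ l) :
    HH (wr a ε r) (pp a ε) (xd a ε δ) l = hl a ε δ r l := by
  rw [HH_eq _ hH hl1]
  have hU := FC.U_mul h l
  have hV := V_add h l
  have hU0 : (U a ε l : ℝ) ≠ 0 := (FC.U_pos h l hl1).ne'
  have hs0 : sD a ε ≠ 0 := (FC.sD_pos h).ne'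
  have hA0 : al a ε ^ l ≠ 0 := pow_ne_zero _ (FC.al_pos h).ne'
  have hAB : al a ε ^ l * be a ε ^ l = (ε : ℝ) ^ l := by
    rw [← mul_pow, FC.al_mul_be h]
  have hδ : (δ : ℝ) ^ l * (δ : ℝ) ^ l = 1 := by
    rw [← mul_pow]
    rcases hs.1 with h1 | h1 <;> rw [h1] <;> norm_num
  have hδ0 : (δ : ℝ) ^ l ≠ 0 := by
    intro h0
    rw [h0, mul_zero] at hδ
    exact zero_ne_one hδ
  have hx : (-xd a ε δ) ^ l = (δ : ℝ) ^ l * al a ε ^ l := by
    unfold xd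
    rw [neg_neg, mul_pow]
  have hxi : ((-xd a ε δ) ^ l)⁻¹ = (δ : ℝ) ^ l * (al a ε ^ l)⁻¹ := by
    rw [hx, mul_inv]
    congr 1
    exact inv_eq_of_mul_eq_one_left hδ
  have hp : pp a ε ^ l = (ε : ℝ) ^ l * (al a ε ^ l) ^ 2 := by
    unfold pp
    rw [mul_pow, ← pow_mul, ← pow_mul, mul_comm 2 l]
  have hεε : (ε : ℝ) ^ l * (ε : ℝ) ^ l = 1 := by
    rw [← mul_pow, FC.eps_mul h, one_pow]
  have hpi : (pp a ε ^ l)⁻¹ = be a ε ^ l / al a ε ^ l := by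
    apply inv_eq_of_mul_eq_one_left
    rw [hp, div_mul_eq_mul_div, div_eq_one_iff_eq hA0]
    calc be a ε ^ l * ((ε : ℝ) ^ l * (al a ε ^ l) ^ 2)
        = (ε : ℝ) ^ l * (al a ε ^ l * be a ε ^ l) * al a ε ^ l := by ring
      _ = al a ε ^ l := by rw [hAB, hεε, one_mul]
  have h1z : 1 - (pp a ε ^ l)⁻¹ = (U a ε l : ℝ) * sD a ε / al a ε ^ l := by
    rw [hpi, hU]
    field_simp
  rw [h1z, hpi, hxi]
  unfold hl
  rw [mul_pow, ← hAB, hV]
  have hB : be a ε ^ l = al a ε ^ l - (U a ε l : ℝ) * sD a ε := by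
    rw [hU]
    ring
  rw [hB]
  have w0 : wr a ε r 0 = 2 * (r 0 : ℝ) * sD a ε + 2 * sD a ε ^ 2 * (r 1 : ℝ) := rfl
  have w1 : wr a ε r 1 = 4 * sD a ε ^ 2 * (r 1 : ℝ) + sD a ε ^ 3 * (r 2 : ℝ) := rfl
  have w2 : wr a ε r 2 = sD a ε ^ 3 * (r 2 : ℝ) := rfl
  rw [w0, w1, w2]
  generalize al a ε ^ l = A at hA0
  generalize (U a ε l : ℝ) = u at hU0
  generalize sD a ε = s at hs0
  generalize (δ : ℝ) ^ l = D at hδ0
  field_simp
  ring

end P_CF

open P_CF in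
theorem t_CF (hHPX : S_HPX) : S_CF := by
  intro a ε δ r h hs K hK
  obtain ⟨hH, hax, -⟩ := hHPX a ε δ h hs
  obtain ⟨w, hw⟩ : ∃ w, w = wr a ε r := ⟨_, rfl⟩
  obtain ⟨p, hp⟩ : ∃ p, p = pp a ε := ⟨_, rfl⟩
  obtain ⟨x, hx⟩ : ∃ x, x = xd a ε δ := ⟨_, rfl⟩
  have hhl : ∀ l : ℕ, 1 ≤ l → HH w p x l = hl a ε δ r l := by
    intro l hl1
    rw [hw, hp, hx]
    exact HH_hl r h hs hH hl1
  rw [← hw, ← hp, ← hx]
  rw [← hp, ← hx] at hH
  rw [← hx] at hax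
  -- partial sums
  have hpart : ∀ l : ℕ, 1 ≤ l → ∑ i ∈ Icc 1 l, hl a ε δ r i =
      hl a ε δ r 1 + (AA w p x l - AA w p x 1) := by
    intro l hl1
    induction l, hl1 using Nat.le_induction with
    | base => simp
    | succ l hl1 ih =>
      rw [Finset.sum_Icc_succ_top (by omega), ih, AA_step w hH hl1, hhl (l + 1) (by omega)]
      ring
  have hxi : |x|⁻¹ < 1 := inv_lt_one_of_one_lt₀ (by rw [hax]; linarith [FC.al_ge h])
  have hxi0 : 0 ≤ |x|⁻¹ := inv_nonneg.2 (abs_nonneg x)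
  -- the limit
  have hlim : Filter.Tendsto (AA w p x) Filter.atTop (nhds 0) := by
    have hb : ∀ᶠ l in Filter.atTop, ‖AA w p x l‖ ≤ (|x|⁻¹) ^ l * ∑' e, 4 * gg w p e := by
      filter_upwards [Filter.eventually_ge_atTop 1] with l hl1
      exact AA_le w hH hl1
    have h1 : Filter.Tendsto (fun l : ℕ => (|x|⁻¹) ^ l * ∑' e, 4 * gg w p e)
        Filter.atTop (nhds 0) := by
      have h2 := (tendsto_pow_atTop_nhds_zero_of_lt_one hxi0 hxi).mul_const (∑' e, 4 * gg w p e)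
      rw [zero_mul] at h2
      exact h2
    exact squeeze_zero_norm' hb h1
  -- summability
  have hsum : Summable fun l : ℕ => hl a ε δ r (l + 1) := by
    have h1 : Summable fun l : ℕ => (|x|⁻¹) ^ (l + 1) * ∑' e, gg w p e :=
      ((summable_nat_add_iff 1).2 (summable_geometric_of_lt_one hxi0 hxi)).mul_right _
    refine Summable.of_norm_bounded h1 fun l => ?_
    rw [← hhl (l + 1) (by omega)]
    exact HH_le w hH (by omega)
  have hSH : SH a ε δ r = hl a ε δ r 1 - AA w p x 1 := by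
    have h1 := hsum.hasSum.tendsto_sum_nat
    have h2 : Filter.Tendsto (fun l : ℕ => hl a ε δ r 1 + (AA w p x l - AA w p x 1))
        Filter.atTop (nhds (hl a ε δ r 1 + (0 - AA w p x 1))) :=
      (hlim.sub_const _).const_add _
    have h3 : Filter.Tendsto (fun l : ℕ => ∑ i ∈ range l, hl a ε δ r (i + 1))
        Filter.atTop (nhds (hl a ε δ r 1 + (0 - AA w p x 1))) := by
      refine h2.congr' ?_
      filter_upwards [Filter.eventually_ge_atTop 1] with l hl1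
      rw [← hpart l hl1, Finset.range_eq_Ico, Finset.sum_Ico_add' (fun i => hl a ε δ r i) 0 l 1]
      rfl
    have h4 := tendsto_nhds_unique h1 h3
    unfold SH
    rw [h4]
    ring
  have hac : ac w p x K (-1) = (δ * be a ε) ^ K * AA w p x K := by
    have hp0 : p ≠ 0 := by
      rw [hp]
      exact FC.pp_ne h
    have h1 : ((δ : ℝ) * be a ε) ^ K = (p ^ K)⁻¹ * (-x) ^ K := by
      rw [← inv_pow, ← mul_pow]
      congr 1
      rw [hp, FC.pp_inv h, hx]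
      unfold xd
      have h2 := FC.al_mul_be h
      have h3 := FC.eps_mul h
      calc (δ : ℝ) * be a ε = δ * be a ε * (ε * ε) := by rw [h3, mul_one]
        _ = δ * be a ε * (ε * (al a ε * be a ε)) := by rw [h2]
        _ = _ := by ring
    have hx0 : -x ≠ 0 := by
      intro h0
      have := hH.2.1
      rw [neg_eq_zero.1 h0, abs_zero] at this
      linarith
    unfold AA ac
    rw [← tsum_mul_left]
    refine tsum_congr fun e => ?_
    rw [h1]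
    unfold t cc Z
    have h2 : (e : ℤ) + 1 + -1 = (e : ℤ) := by ring
    rw [h2, zpow_natCast]
    have h3 : (((e : ℤ)) : ℝ) = (e : ℝ) := by push_cast; rfl
    rw [h3]
    have h4 : 1 - -x * p ^ e = 1 + x * p ^ e := by ring
    rw [h4]
    have h5 : p ^ (K * (e + 1)) = p ^ K * (p ^ e) ^ K := by
      rw [← pow_mul, ← pow_add]
      congr 1
      ring
    rw [h5, mul_pow (-x) (p ^ e) K, mul_inv, mul_inv]
    have h6 : (-x) ^ K * ((-x) ^ K)⁻¹ = 1 := mul_inv_cancel₀ (pow_ne_zero _ hx0)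
    calc (p ^ K)⁻¹ * ((p ^ e) ^ K)⁻¹ * (Wt w (e : ℝ) / (1 + x * p ^ e))
        = (p ^ K)⁻¹ * ((-x) ^ K * ((-x) ^ K)⁻¹) * ((p ^ e) ^ K)⁻¹ *
          (Wt w (e : ℝ) / (1 + x * p ^ e)) := by rw [h6, mul_one]
      _ = _ := by ring
  rw [hac, hSH, hpart K hK]
  ring

end Pool.Agent.H410.FL
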