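import Pool.Agent.H410.FL.Stm

/-!
# Bound for the product of all denominators
-/

set_option autoImplicit false

namespace Pool.Agent.H410.FL

open Finset
open Pool.Agent.H410.FC (OK U sD al be pp DK Cj Rl Tt xt XX QQ pik VV EE FF ea ww C3 BF rr al_ge)

namespace P_DDB

/-- The exponents of the rows. -/
def re (k : ℕ) : ℕ := 3888 * k ^ 2 + 430596 * k + 7425108

/-- The exponents of the columns. -/
def ce (j : ℕ) : ℕ := 1920 * j ^ 2 + 154200 * j + 1656120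

theorem re_eq (k : ℕ) : (300 * (k + 1) + 16 * (k + 1 + 30) * (k + 1 + 60)) * 243 = re k := by
  unfold re
  ring

theorem ce_le (j : ℕ) : (1800 * (j + 1) + 16 * (2 * j + 31) * (2 * j + 61) +
    16 * ((2 * j + 1) / 3 + 30) * ((2 * j + 1) / 3 + 60)) * 27 ≤ ce j := by
  have h1 : 3 * ((2 * j + 1) / 3) ≤ 2 * j + 1 := Nat.mul_div_le _ _
  generalize (2 * j + 1) / 3 = t at h1 ⊢
  have h2 : 3 * (t + 30) ≤ 2 * j + 91 := by omega
  have h3 : 3 * (t + 60) ≤ 2 * j + 181 := by omega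
  have h4 := Nat.mul_le_mul h2 h3
  unfold ce
  nlinarith

theorem ce_mono (j : ℕ) : ce j ≤ ce (j + 1) := by
  unfold ce
  nlinarith

theorem sum_re (N : ℕ) : ∑ k ∈ range N, re k ≤ 1296 * N ^ 3 + 7425108 * N ^ 2 := by
  induction N with
  | zero => simp
  | succ N ih =>
    rw [sum_range_succ]
    have h : re N + (1296 * N ^ 3 + 7425108 * N ^ 2) ≤
        1296 * (N + 1) ^ 3 + 7425108 * (N + 1) ^ 2 := by
      unfold re
      nlinarith [Nat.zero_le N]
    omega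

theorem sum_ce (N : ℕ) : ∑ k ∈ range N, ce k ≤ 640 * N ^ 3 + 1656120 * N ^ 2 := by
  induction N with
  | zero => simp
  | succ N ih =>
    rw [sum_range_succ]
    have h : ce N + (640 * N ^ 3 + 1656120 * N ^ 2) ≤
        640 * (N + 1) ^ 3 + 1656120 * (N + 1) ^ 2 := by
      unfold ce
      nlinarith [Nat.zero_le N]
    omega

theorem total (n : ℕ) (hn : 1 ≤ n) :
    ∑ k ∈ range (2 * n + 1), re k + (∑ j ∈ range n, ce j + ∑ j ∈ range (n + 1), ce j) ≤
      11648 * n ^ 3 + 75135676 * n ^ 2 := by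
  have h1 := sum_re (2 * n + 1)
  have h2 := sum_ce n
  have h3 := sum_ce (n + 1)
  have h4 : 1296 * (2 * n + 1) ^ 3 + 7425108 * (2 * n + 1) ^ 2 +
      ((640 * n ^ 3 + 1656120 * n ^ 2) + (640 * (n + 1) ^ 3 + 1656120 * (n + 1) ^ 2)) ≤
      11648 * n ^ 3 + 75135676 * n ^ 2 := by
    nlinarith [Nat.mul_le_mul hn hn, Nat.mul_le_mul hn (le_refl n)]
  omega

theorem prod_le (A : ℝ) (s : Finset ℕ) (f : ℕ → ℝ) (g : ℕ → ℕ) (h0 : ∀ i, 0 ≤ f i)
    (h : ∀ i ∈ s, f i ^ 2025 ≤ A ^ g i) : (∏ i ∈ s, f i) ^ 2025 ≤ A ^ (∑ i ∈ s, g i) := by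
  rw [← prod_pow, ← prod_pow_eq_pow_sum]
  exact prod_le_prod (fun i _ => pow_nonneg (h0 i) _) h

theorem pow_step (A x : ℝ) (hx : 0 ≤ x) (m k e f : ℕ) (hA : 1 ≤ A) (h : x ^ m ≤ A ^ e)
    (hf : e * k ≤ f) : x ^ (m * k) ≤ A ^ f := by
  rw [pow_mul]
  calc (x ^ m) ^ k ≤ (A ^ e) ^ k := pow_le_pow_left₀ (pow_nonneg hx _) h k
    _ = A ^ (e * k) := (pow_mul _ _ _).symm
    _ ≤ A ^ f := pow_le_pow_right₀ hA hf

end P_DDB

open P_DDB

theorem t_DDB (hDKB : Pool.Agent.H410.FC.S_DKB) (hDLB : S_DLB) : S_DDB := by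
  intro a ε δ h hsg
  refine ⟨75135676, fun n hn => ?_⟩
  have hA : 1 ≤ al a ε := by linarith [al_ge h]
  have hcol : ∀ j : ℕ, (|Dl ε δ (al a ε) j| * |Dl ε δ (be a ε) j|) ^ 2025 ≤ al a ε ^ ce j := fun j =>
    pow_step (al a ε) _ (by positivity) 75 27 _ _ hA (hDLB a ε δ h hsg j) (ce_le j)
  have h1 : (∏ k ∈ range (2 * n + 1),
      (|DK (pp a ε) (k + 1)| * |DK (pp a ε)⁻¹ (k + 1)|) ^ 3) ^ 2025 ≤
      al a ε ^ (∑ k ∈ range (2 * n + 1), re k) := by
    refine prod_le _ _ _ _ (fun k => by positivity) fun k _ => ?_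
    rw [← pow_mul]
    exact pow_step (al a ε) _ (by positivity) 25 243 _ _ hA (hDKB a ε h (k + 1)) (re_eq k).le
  have h2 : (∏ j ∈ range n, (|Dc ε δ (al a ε) (be a ε) (Int.negSucc j)| *
      |Dc ε δ (be a ε) (al a ε) (Int.negSucc j)|)) ^ 2025 ≤ al a ε ^ (∑ j ∈ range n, ce j) := by
    refine prod_le _ _ _ _ (fun k => by positivity) fun j _ => ?_
    rcases j with _ | j
    · simp only [Dc, abs_one, mul_one, one_pow]
      exact one_le_pow₀ hA
    · simp only [Dc]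
      rw [mul_comm]
      exact (hcol j).trans (pow_le_pow_right₀ hA (ce_mono j))
  have h3 : (∏ j ∈ range (n + 1), (|Dc ε δ (al a ε) (be a ε) (Int.ofNat j)| *
      |Dc ε δ (be a ε) (al a ε) (Int.ofNat j)|)) ^ 2025 ≤
      al a ε ^ (∑ j ∈ range (n + 1), ce j) := by
    refine prod_le _ _ _ _ (fun k => by positivity) fun j _ => ?_
    simp only [Dc]
    exact hcol j
  have h4 : ∀ y y' : ℝ, ∏ j ∈ range (2 * n + 1), |Dc ε δ y y' (-(n : ℤ) + j)| =
      (∏ j ∈ range n, |Dc ε δ y y' (Int.negSucc j)|) *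
        ∏ j ∈ range (n + 1), |Dc ε δ y y' (Int.ofNat j)| := by
    intro y y'
    rw [show 2 * n + 1 = n + (n + 1) by ring, prod_range_add]
    congr 1
    · rw [← prod_range_reflect]
      refine prod_congr rfl fun j hj => ?_
      rw [mem_range] at hj
      have e : -(n : ℤ) + ((n - 1 - j : ℕ) : ℤ) = Int.negSucc j := by
        rw [Int.negSucc_eq]
        omega
      rw [e]
    · refine prod_congr rfl fun j _ => ?_
      have e : -(n : ℤ) + ((n + j : ℕ) : ℤ) = Int.ofNat j := by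
        rw [Int.ofNat_eq_natCast]
        omega
      rw [e]
  have h5 : DD ε δ (pp a ε) (al a ε) (be a ε) n * DD ε δ (pp a ε)⁻¹ (be a ε) (al a ε) n =
      (∏ k ∈ range (2 * n + 1), (|DK (pp a ε) (k + 1)| * |DK (pp a ε)⁻¹ (k + 1)|) ^ 3) *
      ((∏ j ∈ range n, (|Dc ε δ (al a ε) (be a ε) (Int.negSucc j)| *
        |Dc ε δ (be a ε) (al a ε) (Int.negSucc j)|)) *
      ∏ j ∈ range (n + 1), (|Dc ε δ (al a ε) (be a ε) (Int.ofNat j)| *
        |Dc ε δ (be a ε) (al a ε) (Int.ofNat j)|)) := by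
    unfold DD
    rw [h4, h4]
    simp only [mul_pow, prod_mul_distrib]
    ring
  rw [h5, mul_pow, mul_pow]
  calc _ ≤ al a ε ^ (∑ k ∈ range (2 * n + 1), re k) *
      (al a ε ^ (∑ j ∈ range n, ce j) * al a ε ^ (∑ j ∈ range (n + 1), ce j)) := by
        gcongr
    _ = al a ε ^ (∑ k ∈ range (2 * n + 1), re k +
        (∑ j ∈ range n, ce j + ∑ j ∈ range (n + 1), ce j)) := by
        rw [pow_add, pow_add]
    _ ≤ _ := pow_le_pow_right₀ hA (total n hn)

end Pool.Agent.H410.FL
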