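import Pool.Agent.H410.FL.Stm

/-!
Bound for the denominators of the columns (helper738)
-/

namespace Pool.Agent.H410.FL

open Finset Polynomial
open Pool.Agent.H410.FC (OK U sD al be pp DK Cj Rl Tt xt XX QQ pik VV EE FF ea ww C3 BF rr al_ge abs_al abs_be_le al_pos abs_eps)

namespace P_DLB

theorem sixteen {a ε : ℤ} (h : OK a ε) : (16 : ℝ) ≤ al a ε ^ 6 := by
  have h1 : ((8 : ℝ) / 5) ^ 6 ≤ al a ε ^ 6 := pow_le_pow_left₀ (by norm_num) (al_ge h) 6
  have h2 : (16 : ℝ) ≤ ((8 : ℝ) / 5) ^ 6 := by norm_num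
  linarith

theorem term (hPHI : Pool.Agent.H410.FC.S_PHI) {a ε : ℤ} (h : OK a ε) {s : ℝ} (hs : |s| = 1) {n : ℕ} (hn : 1 ≤ n) :
    |(Polynomial.cyclotomic n ℝ).eval (s * al a ε)| *
      |(Polynomial.cyclotomic n ℝ).eval (s * be a ε)| ≤ al a ε ^ (12 + Nat.totient n) := by
  have hal := al_ge h
  have e1 : |s * al a ε| = al a ε := by rw [abs_mul, hs, one_mul, abs_al h]
  have e2 : |s * be a ε| ≤ 5 / 8 := by rw [abs_mul, hs, one_mul]; exact abs_be_le h
  have h1 := (hPHI (s * al a ε) n hn).1 (by rw [e1]; linarith)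
  rw [e1] at h1
  have h2 := (hPHI (s * be a ε) n hn).2 (by linarith)
  have h3 := sixteen h
  have h4 : (0 : ℝ) ≤ al a ε ^ Nat.totient n := pow_nonneg (al_pos h).le _
  calc |(Polynomial.cyclotomic n ℝ).eval (s * al a ε)| *
        |(Polynomial.cyclotomic n ℝ).eval (s * be a ε)|
      ≤ (16 * al a ε ^ Nat.totient n) * 16 :=
        mul_le_mul h1 h2 (abs_nonneg _) (by positivity)
    _ ≤ (al a ε ^ 6 * al a ε ^ Nat.totient n) * al a ε ^ 6 :=
        mul_le_mul (mul_le_mul_of_nonneg_right h3 h4) h3 (by norm_num)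
          (mul_nonneg (by positivity) h4)
    _ = al a ε ^ (12 + Nat.totient n) := by
        rw [← pow_add, ← pow_add]
        congr 1
        omega

theorem abs_eta {a ε δ : ℤ} (h : OK a ε) (hs : Sg ε δ) (d : ℕ) : |eta ε δ d| = 1 := by
  unfold eta
  rw [abs_mul, abs_pow, abs_eps h, one_pow, mul_one]
  rcases hs.1 with h1 | h1 <;> rw [h1] <;> simp

theorem card_odd (J : ℕ) : ((Icc 1 (2 * J + 1)).filter (fun d => d % 2 = 1)).card ≤ J + 1 := by
  have h := Finset.card_le_card_of_injOn (s := (Icc 1 (2 * J + 1)).filter (fun d => d % 2 = 1))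
    (t := range (J + 1)) (fun d => d / 2) (by
      intro d hd
      rw [Finset.mem_coe, Finset.mem_filter, Finset.mem_Icc] at hd
      rw [Finset.mem_coe, Finset.mem_range]
      show d / 2 < J + 1
      omega) (by
      intro d hd e he hde
      rw [Finset.mem_coe, Finset.mem_filter, Finset.mem_Icc] at hd he
      have hde' : d / 2 = e / 2 := hde
      omega)
  rwa [Finset.card_range] at h

theorem prod_le (hPHI : Pool.Agent.H410.FC.S_PHI) {a ε : ℤ} (h : OK a ε) (S : Finset ℕ) (hS : ∀ d ∈ S, 1 ≤ d)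
    (s : ℕ → ℝ) (hs : ∀ d, |s d| = 1) :
    |∏ d ∈ S, (Polynomial.cyclotomic d ℝ).eval (s d * al a ε)| *
      |∏ d ∈ S, (Polynomial.cyclotomic d ℝ).eval (s d * be a ε)| ≤
      al a ε ^ (12 * S.card + ∑ d ∈ S, Nat.totient d) := by
  rw [Finset.abs_prod, Finset.abs_prod, ← Finset.prod_mul_distrib]
  calc ∏ d ∈ S, (|(Polynomial.cyclotomic d ℝ).eval (s d * al a ε)| *
        |(Polynomial.cyclotomic d ℝ).eval (s d * be a ε)|)
      ≤ ∏ d ∈ S, al a ε ^ (12 + Nat.totient d) :=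
        Finset.prod_le_prod (fun d _ => by positivity) fun d hd => term hPHI h (hs d) (hS d hd)
    _ = al a ε ^ (12 * S.card + ∑ d ∈ S, Nat.totient d) := by
        rw [Finset.prod_pow_eq_pow_sum, Finset.sum_add_distrib, Finset.sum_const, smul_eq_mul,
          mul_comm S.card 12]

end P_DLB

open P_DLB in
theorem t_DLB (hPHI : Pool.Agent.H410.FC.S_PHI) (hTOT2 : Pool.Agent.H410.FC.S_TOT2) : S_DLB := by
  intro a ε δ h hsg J
  have hal1 : 1 ≤ al a ε := by linarith [al_ge h]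
  have hal0 : 0 ≤ al a ε := by linarith
  set S1 := (Icc 1 (2 * J + 1)).filter (fun d => d % 2 = 1) with hS1
  set S2 := (Icc 1 ((2 * J + 1) / 3)).filter (fun d => d % 2 = 1) with hS2
  have h1 := prod_le hPHI h S1 (fun d hd => (Finset.mem_Icc.1 (Finset.mem_filter.1 hd).1).1)
    (fun d => eta ε δ d) (fun d => abs_eta h hsg d)
  have h2 := prod_le hPHI h S2 (fun d hd => (Finset.mem_Icc.1 (Finset.mem_filter.1 hd).1).1)
    (fun d => -eta ε δ d) (fun d => by rw [abs_neg]; exact abs_eta h hsg d)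
  have e : ∀ y : ℝ, Dl ε δ y J = (∏ d ∈ S1, (Polynomial.cyclotomic d ℝ).eval (eta ε δ d * y)) *
      ∏ d ∈ S2, (Polynomial.cyclotomic d ℝ).eval (-eta ε δ d * y) := by
    intro y
    unfold Dl
    rw [hS1, hS2]
    congr 1
    refine Finset.prod_congr rfl fun d _ => ?_
    rw [neg_mul]
  have h3 : |Dl ε δ (al a ε) J| * |Dl ε δ (be a ε) J| ≤
      al a ε ^ ((12 * S1.card + ∑ d ∈ S1, Nat.totient d) +
        (12 * S2.card + ∑ d ∈ S2, Nat.totient d)) := by
    rw [e, e, abs_mul, abs_mul, pow_add]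
    calc |∏ d ∈ S1, (Polynomial.cyclotomic d ℝ).eval (eta ε δ d * al a ε)| *
          |∏ d ∈ S2, (Polynomial.cyclotomic d ℝ).eval (-eta ε δ d * al a ε)| *
          (|∏ d ∈ S1, (Polynomial.cyclotomic d ℝ).eval (eta ε δ d * be a ε)| *
          |∏ d ∈ S2, (Polynomial.cyclotomic d ℝ).eval (-eta ε δ d * be a ε)|)
        = (|∏ d ∈ S1, (Polynomial.cyclotomic d ℝ).eval (eta ε δ d * al a ε)| *
          |∏ d ∈ S1, (Polynomial.cyclotomic d ℝ).eval (eta ε δ d * be a ε)|) *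
          (|∏ d ∈ S2, (Polynomial.cyclotomic d ℝ).eval (-eta ε δ d * al a ε)| *
          |∏ d ∈ S2, (Polynomial.cyclotomic d ℝ).eval (-eta ε δ d * be a ε)|) := by ring
      _ ≤ _ := mul_le_mul h1 h2 (by positivity) (pow_nonneg hal0 _)
  have hc1 : S1.card ≤ J + 1 := card_odd J
  have hc2 : S2.card ≤ J + 1 := by
    refine le_trans (Finset.card_le_card ?_) (card_odd J)
    intro d hd
    rw [hS2, Finset.mem_filter, Finset.mem_Icc] at hd
    rw [Finset.mem_filter, Finset.mem_Icc]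
    omega
  have t1 := hTOT2 (2 * J + 1)
  have t2 := hTOT2 ((2 * J + 1) / 3)
  rw [← hS1] at t1
  rw [← hS2] at t2
  calc (|Dl ε δ (al a ε) J| * |Dl ε δ (be a ε) J|) ^ 75
      ≤ (al a ε ^ ((12 * S1.card + ∑ d ∈ S1, Nat.totient d) +
        (12 * S2.card + ∑ d ∈ S2, Nat.totient d))) ^ 75 :=
        pow_le_pow_left₀ (mul_nonneg (abs_nonneg _) (abs_nonneg _)) h3 75
    _ = al a ε ^ (((12 * S1.card + ∑ d ∈ S1, Nat.totient d) +
        (12 * S2.card + ∑ d ∈ S2, Nat.totient d)) * 75) := by rw [← pow_mul]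
    _ ≤ _ := by
        refine pow_le_pow_right₀ hal1 ?_
        have e1 : 16 * (2 * J + 1 + 30) * (2 * J + 1 + 60) =
            16 * (2 * J + 31) * (2 * J + 61) := by ring
        rw [e1] at t1
        obtain ⟨A, hA⟩ : ∃ A, A = 16 * (2 * J + 31) * (2 * J + 61) := ⟨_, rfl⟩
        obtain ⟨B, hB⟩ : ∃ B, B = 16 * ((2 * J + 1) / 3 + 30) * ((2 * J + 1) / 3 + 60) := ⟨_, rfl⟩
        rw [← hA] at t1
        rw [← hB] at t2
        rw [← hA, ← hB]
        clear hA hB
        omega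

end Pool.Agent.H410.FL
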