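import Pool.Agent.H410.FL.Stm

/-!
`Δ_J ∣ Δ_{J+1}` and `Δ_J ≠ 0` (helper997 for FC, adapted by helper139).
-/

namespace Pool.Agent.H410.FL

open Finset Polynomial
open Pool.Agent.H410.FC (OK al be Cj abs_eps abs_al al_ge abs_be_le)

namespace P_DLS

theorem cyc_ne {d : ℕ} (hd : 1 ≤ d) {y : ℝ} (hy : |y| ≠ 1) :
    (Polynomial.cyclotomic d ℝ).eval y ≠ 0 := by
  intro h
  have h1 : (Polynomial.cyclotomic d ℝ) ∣ X ^ d - 1 := Polynomial.cyclotomic.dvd_X_pow_sub_one d ℝ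
  have h2 : (X ^ d - 1 : Polynomial ℝ).eval y = 0 := by
    obtain ⟨q, hq⟩ := h1
    rw [hq, eval_mul, h, zero_mul]
  simp only [eval_sub, eval_pow, eval_X, eval_one] at h2
  have h3 : |y| ^ d = 1 := by
    rw [← abs_pow, sub_eq_zero.1 h2, abs_one]
  exact hy ((pow_eq_one_iff_of_nonneg (abs_nonneg y) (by omega)).1 h3)

variable {a ε δ : ℤ}

theorem abs_eta (h : OK a ε) (hs : Sg ε δ) (d : ℕ) : |eta ε δ d| = 1 := by
  have h1 : |(δ : ℝ)| = 1 := by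
    rcases hs.1 with h1 | h1 <;> simp [h1]
  unfold eta
  rw [abs_mul, abs_pow, abs_eps h, one_pow, h1, mul_one]

theorem abs_al_ne (h : OK a ε) : |al a ε| ≠ 1 := by
  rw [abs_al h]
  have := al_ge h
  intro h1
  linarith

theorem abs_be_ne (h : OK a ε) : |be a ε| ≠ 1 := by
  have := abs_be_le h
  intro h1
  linarith

theorem f1_ne (h : OK a ε) (hs : Sg ε δ) {y : ℝ} (hy : |y| ≠ 1) {d : ℕ} (hd : 1 ≤ d) :
    (Polynomial.cyclotomic d ℝ).eval (eta ε δ d * y) ≠ 0 := by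
  apply cyc_ne hd
  rw [abs_mul, abs_eta h hs, one_mul]
  exact hy

theorem f2_ne (h : OK a ε) (hs : Sg ε δ) {y : ℝ} (hy : |y| ≠ 1) {d : ℕ} (hd : 1 ≤ d) :
    (Polynomial.cyclotomic d ℝ).eval (-(eta ε δ d * y)) ≠ 0 := by
  apply cyc_ne hd
  rw [abs_neg, abs_mul, abs_eta h hs, one_mul]
  exact hy

/-- the two index sets -/
def I1 (J : ℕ) : Finset ℕ := (Icc 1 (2 * J + 1)).filter (fun d => d % 2 = 1)

def I2 (J : ℕ) : Finset ℕ := (Icc 1 ((2 * J + 1) / 3)).filter (fun d => d % 2 = 1)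

theorem I1_pos {J d : ℕ} (hd : d ∈ I1 J) : 1 ≤ d := (mem_Icc.1 (mem_filter.1 hd).1).1

theorem I2_pos {J d : ℕ} (hd : d ∈ I2 J) : 1 ≤ d := (mem_Icc.1 (mem_filter.1 hd).1).1

theorem I1_sub (J : ℕ) : I1 J ⊆ I1 (J + 1) :=
  filter_subset_filter _ (Icc_subset_Icc_right (by omega))

theorem I2_sub (J : ℕ) : I2 J ⊆ I2 (J + 1) :=
  filter_subset_filter _ (Icc_subset_Icc_right (by omega))

theorem Dl_eq (y : ℝ) (J : ℕ) : Dl ε δ y J =
    (∏ d ∈ I1 J, (Polynomial.cyclotomic d ℝ).eval (eta ε δ d * y)) *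
    ∏ d ∈ I2 J, (Polynomial.cyclotomic d ℝ).eval (-(eta ε δ d * y)) := rfl

theorem Dl_ne (h : OK a ε) (hs : Sg ε δ) {y : ℝ} (hy : |y| ≠ 1) (J : ℕ) : Dl ε δ y J ≠ 0 := by
  rw [Dl_eq]
  exact mul_ne_zero (prod_ne_zero_iff.2 fun d hd => f1_ne h hs hy (I1_pos hd))
    (prod_ne_zero_iff.2 fun d hd => f2_ne h hs hy (I2_pos hd))

theorem Dl_quot (h : OK a ε) (hs : Sg ε δ) {y : ℝ} (hy : |y| ≠ 1) (J : ℕ) : Dl ε δ y (J + 1) / Dl ε δ y J =
    (∏ d ∈ I1 (J + 1) \ I1 J, (Polynomial.cyclotomic d ℝ).eval (eta ε δ d * y)) *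
    ∏ d ∈ I2 (J + 1) \ I2 J, (Polynomial.cyclotomic d ℝ).eval (-(eta ε δ d * y)) := by
  rw [div_eq_iff (Dl_ne h hs hy J), Dl_eq, Dl_eq, ← prod_sdiff (I1_sub J), ← prod_sdiff (I2_sub J)]
  ring

end P_DLS

open P_DLS in
theorem t_DLS (hCJ : Pool.Agent.H410.FC.S_CJ) : S_DLS := by
  intro a ε δ h hs J
  obtain ⟨hint, -, hmul, hneg, -, halbe, -, -, -, hprod, -, hpoly, -⟩ := hCJ a ε h
  refine ⟨Dl_ne h hs (abs_al_ne h) J, Dl_ne h hs (abs_be_ne h) J, ?_⟩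
  rw [Dl_quot h hs (abs_al_ne h), Dl_quot h hs (abs_be_ne h)]
  have heta : ∀ d : ℕ, Cj a ε (eta ε δ d * al a ε) (eta ε δ d * be a ε) := by
    intro d
    refine hmul _ _ _ _ ?_ halbe
    have := hint (δ * ε ^ ((d - 1) / 2))
    push_cast at this
    exact this
  have hcyc : ∀ (d : ℕ) (z z' : ℝ), Cj a ε z z' →
      Cj a ε ((Polynomial.cyclotomic d ℝ).eval z) ((Polynomial.cyclotomic d ℝ).eval z') := by
    intro d z z' hz
    have := hpoly (Polynomial.cyclotomic d ℤ) z z' hz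
    rwa [aeval_def, aeval_def, eval₂_eq_eval_map, eval₂_eq_eval_map, map_cyclotomic] at this
  exact hmul _ _ _ _ (hprod _ _ _ fun d _ => hcyc d _ _ (heta d))
    (hprod _ _ _ fun d _ => hcyc d _ _ (hneg _ _ (heta d)))

end Pool.Agent.H410.FL
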