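import Pool.Agent.H410.FL.Stm

/-!
ENB: bound of the entries in the basis `BF` (helper878, after helper236's `FC/P_ENB.lean`).
-/

set_option autoImplicit false

open Finset Polynomial

namespace Pool.Agent.H410.FL

open Pool.Agent.H410.FC (OK U sD al be pp DK Cj Rl Tt xt XX QQ pik VV EE FF ea ww C3 BF rr)

namespace P_ENB

theorem ww_nonneg (p : ℝ) (N : ℕ) : 0 ≤ ww p N := by
  unfold ww
  positivity

theorem ea_nonneg (p : ℝ) (a : ℕ) : 0 ≤ ea p a := by
  unfold ea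
  positivity

theorem ea_zero (p : ℝ) : ea p 0 = 1 := by
  unfold ea
  simp

theorem FF_zero (p : ℝ) : FF p 0 0 = 1 := by
  unfold FF EE
  simp

theorem nw_nonneg (w : Fin 3 → ℝ) : 0 ≤ nw w := by
  unfold nw
  positivity

theorem C3_ge : 3600 ≤ C3 := by
  unfold C3
  norm_num

theorem sq_le {j N : ℕ} (h : j ≤ N) : ((j : ℝ) + 2) ^ 2 ≤ ((N : ℝ) + 2) ^ 2 := by
  have h1 : (j : ℝ) ≤ N := by exact_mod_cast h
  exact pow_le_pow_left₀ (by positivity) (by linarith) 2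

theorem BF_lt {p : ℝ} {n0 i : ℕ} (h : i < n0) : BF p n0 i = X ^ i := if_pos h

theorem BF_ge {p : ℝ} {n0 i : ℕ} (h : ¬ i < n0) :
    BF p n0 i = X ^ n0 * FF p ((i - n0) / 3) ((i - n0) % 3) := if_neg h

theorem rr_lt {p : ℝ} {n0 i : ℕ} (h : i < n0) : rr p n0 i = 1 := if_pos h

theorem rr_ge {p : ℝ} {n0 i : ℕ} (h : ¬ i < n0) : rr p n0 i = ea p ((i - n0) / 3) ^ 3 := if_neg h

theorem bound {j N : ℕ} (h : j ≤ N) {u v w t : ℝ} (hu : 0 ≤ u) (hv : 0 ≤ v) (hw : 0 ≤ w)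
    (ht : 0 ≤ t) :
    C3 * t * ((j : ℝ) + 2) ^ 2 * u * v * w ≤ (C3 * t * ((N : ℝ) + 2) ^ 2 * w) * u * v := by
  have h1 := sq_le h
  have h2 : 0 ≤ C3 * t := mul_nonneg (by linarith [C3_ge]) ht
  have h3 : 0 ≤ u * v * w := by positivity
  have h4 : C3 * t * ((j : ℝ) + 2) ^ 2 ≤ C3 * t * ((N : ℝ) + 2) ^ 2 :=
    mul_le_mul_of_nonneg_left h1 h2
  calc C3 * t * ((j : ℝ) + 2) ^ 2 * u * v * w = C3 * t * ((j : ℝ) + 2) ^ 2 * (u * v * w) := by
        ring
    _ ≤ C3 * t * ((N : ℝ) + 2) ^ 2 * (u * v * w) := mul_le_mul_of_nonneg_right h4 h3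
    _ = _ := by ring

end P_ENB

open P_ENB in
theorem t_ENB (hAA : S_AA) (hRED : S_RED) (hUP1 : S_UP1) (hDEG : Pool.Agent.H410.FC.S_DEG) : S_ENB := by
  intro w p x hpx N n0 i j hn hi hj
  obtain ⟨hd1, hd2⟩ := hDEG p
  obtain ⟨r1, r2⟩ := hRED w p x hpx N n0
  by_cases hi0 : i < n0
  · by_cases hj0 : j < n0
    · rw [BF_lt hi0, BF_lt hj0, rr_lt hi0, rr_lt hj0, mul_one, mul_one]
      refine (hAA w p x hpx N n0 i j hn hi0 hj0).trans ?_
      refine mul_le_mul_of_nonneg_right ?_ (ww_nonneg p N)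
      refine mul_le_mul_of_nonneg_right ?_ (by positivity)
      exact mul_le_mul_of_nonneg_right C3_ge (nw_nonneg w)
    · rw [BF_lt hi0, BF_ge hj0, rr_lt hi0, rr_ge hj0]
      have e1 : (FF p ((j - n0) / 3) ((j - n0) % 3)).natDegree = j - n0 := by
        rw [(hd1 _ _).2]
        omega
      rw [r2 (X ^ i) _ (by rw [natDegree_X_pow]; exact hi) (by rw [e1]; omega)]
      have h1 := hUP1 w p x hpx N (X ^ i) (FF p ((j - n0) / 3) ((j - n0) % 3)) 0 ((j - n0) / 3) 0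
        ((j - n0) % 3) i (by norm_num) (by omega) (by rw [natDegree_X_pow]; exact hi)
        (by rw [e1]; omega) (by rw [FF_zero, one_mul])
      rw [ea_zero, one_pow] at h1
      exact h1.trans (bound hi.le (by norm_num) (pow_nonneg (ea_nonneg p _) 3) (ww_nonneg p N)
        (nw_nonneg w))
  · have e2 : (FF p ((i - n0) / 3) ((i - n0) % 3)).natDegree = i - n0 := by
      rw [(hd1 _ _).2]
      omega
    have e3 : (BF p n0 j).natDegree = j := (hd2 n0 j).2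
    rw [BF_ge hi0, rr_ge hi0, r1 _ (BF p n0 j) (by rw [e2]; omega) (by rw [e3]; exact hj)]
    by_cases hj0 : j < n0
    · have h1 := hUP1 w p x hpx N (FF p ((i - n0) / 3) ((i - n0) % 3)) (BF p n0 j) ((i - n0) / 3) 0
        ((i - n0) % 3) 0 j (by omega) (by norm_num) (by rw [e2]; omega) (by rw [e3]; exact hj)
        (by rw [BF_lt hj0, FF_zero, mul_one, mul_comm])
      rw [ea_zero, one_pow] at h1
      rw [rr_lt hj0]
      exact h1.trans (bound hj.le (pow_nonneg (ea_nonneg p _) 3) (by norm_num) (ww_nonneg p N)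
        (nw_nonneg w))
    · have h1 := hUP1 w p x hpx N (FF p ((i - n0) / 3) ((i - n0) % 3)) (BF p n0 j) ((i - n0) / 3)
        ((j - n0) / 3) ((i - n0) % 3) ((j - n0) % 3) n0 (by omega) (by omega) (by rw [e2]; omega)
        (by rw [e3]; exact hj) (by rw [BF_ge hj0]; ring)
      rw [rr_ge hj0]
      exact h1.trans (bound hn (pow_nonneg (ea_nonneg p _) 3) (pow_nonneg (ea_nonneg p _) 3)
        (ww_nonneg p N)
        (nw_nonneg w))

end Pool.Agent.H410.FL
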