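import Pool.Agent.H410.FL.Stm

/-!
The entries are conjugate pairs (statement `S_ENT`).
-/

set_option autoImplicit false

namespace Pool.Agent.H410.FL

open Finset Polynomial
open Pool.Agent.H475.QZ (nu)
open Pool.Agent.H410.FC (OK U sD al be pp DK Cj Rl Tt xt XX QQ pik VV EE FF ea ww C3 BF rr)

namespace P_ENT

theorem cyc_aeval (d : ℕ) (z : ℝ) : aeval z (cyclotomic d ℤ) = (cyclotomic d ℝ).eval z := by
  rw [aeval_def, eval₂_eq_eval_map, algebraMap_int_eq, map_cyclotomic_int]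

section

variable {a ε : ℤ}

theorem cj_pow (hCJ : Pool.Agent.H410.FC.S_CJ) (h : OK a ε) {z z' : ℝ} (hz : Cj a ε z z')
    (n : ℕ) : Cj a ε (z ^ n) (z' ^ n) := by
  obtain ⟨-, -, -, -, -, -, -, -, -, -, -, h12, -⟩ := hCJ a ε h
  have := h12 (X ^ n) z z' hz
  simpa using this

theorem cj_Dl (hCJ : Pool.Agent.H410.FC.S_CJ) (h : OK a ε) (δ : ℤ) (J : ℕ) :
    Cj a ε (Dl ε δ (al a ε) J) (Dl ε δ (be a ε) J) := by
  obtain ⟨h1, -, h3, h4, -, h6, -, -, -, h10, -, h12, -⟩ := hCJ a ε h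
  have heta : ∀ d : ℕ, Cj a ε (eta ε δ d * al a ε) (eta ε δ d * be a ε) := by
    intro d
    have e1 : eta ε δ d = ((δ * ε ^ ((d - 1) / 2) : ℤ) : ℝ) := by
      unfold eta
      push_cast
      rfl
    rw [e1]
    exact h3 _ _ _ _ (h1 _) h6
  unfold Dl
  refine h3 _ _ _ _ (h10 _ _ _ fun d _ => ?_) (h10 _ _ _ fun d _ => ?_)
  · rw [← cyc_aeval, ← cyc_aeval]
    exact h12 _ _ _ (heta d)
  · rw [← cyc_aeval, ← cyc_aeval]
    exact h12 _ _ _ (h4 _ _ (heta d))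

theorem cj_DK (hDIVR : Pool.Agent.H410.FC.S_DIVR) (h : OK a ε) {K : ℕ} (hK : 1 ≤ K) :
    Cj a ε (DK (pp a ε) K) (DK (pp a ε)⁻¹ K) := by
  have h1 := hDIVR a ε h K 1 le_rfl hK
  have e1 : (U a ε 1 : ℝ) = 1 := by simp [U]
  rwa [e1, div_one, div_one] at h1

/-- the numbers `D_K^3 h_l` -/
theorem cj_hl (hCJ : Pool.Agent.H410.FC.S_CJ) (hDIVR : Pool.Agent.H410.FC.S_DIVR) (h : OK a ε)
    (δ : ℤ) (r : Fin 3 → ℤ) {K l : ℕ} (hl1 : 1 ≤ l) (hlK : l ≤ K) :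
    Cj a ε (DK (pp a ε) K ^ 3 * hl a ε δ r l) (DK (pp a ε)⁻¹ K ^ 3 * hl a ε δ r l) := by
  obtain ⟨h1, h2, h3, h4, h5, h6, h7, h8, h9, -, -, -, -⟩ := hCJ a ε h
  have hDK := cj_DK hDIVR h (hl1.trans hlK)
  have hD := hDIVR a ε h K l hl1 hlK
  have e : ∀ d : ℝ, d ^ 3 * hl a ε δ r l = ((2 : ℤ) : ℝ) * (((r 0 * δ ^ l : ℤ) : ℝ) *
      (d / (U a ε l : ℝ) * d ^ 2) + ((r 1 * δ ^ l * V a ε l : ℤ) : ℝ) *
      ((d / (U a ε l : ℝ)) ^ 2 * d) + ((r 2 * (δ * ε) ^ l : ℤ) : ℝ) * (d / (U a ε l : ℝ)) ^ 3) := by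
    intro d
    unfold hl
    push_cast
    ring
  rw [e, e]
  refine h3 _ _ _ _ (h1 2) (h2 _ _ _ _ (h2 _ _ _ _ ?_ ?_) ?_)
  · exact h3 _ _ _ _ (h1 _) (h3 _ _ _ _ hD (cj_pow hCJ h hDK 2))
  · exact h3 _ _ _ _ (h1 _) (h3 _ _ _ _ (cj_pow hCJ h hD 2) hDK)
  · exact h3 _ _ _ _ (h1 _) (cj_pow hCJ h hD 3)

/-- the pair of the values at `J = -1` -/
theorem base (hCF : S_CF) (hCJ : Pool.Agent.H410.FC.S_CJ) (hDIVR : Pool.Agent.H410.FC.S_DIVR)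
    (h : OK a ε) {δ : ℤ} (hδ : Sg ε δ) (r : Fin 3 → ℤ) {s : ℤ} (hs : SH a ε δ r = s) {K : ℕ}
    (hK : 1 ≤ K) :
    Cj a ε (DK (pp a ε) K ^ 3 * ac (wr a ε r) (pp a ε) (xd a ε δ) K (-1))
      (DK (pp a ε)⁻¹ K ^ 3 * (pp a ε ^ K * ac (wr a ε r) (pp a ε) (xd a ε δ) K (-1))) := by
  obtain ⟨h1, h2, h3, h4, h5, h6, h7, h8, h9, -, -, -, -⟩ := hCJ a ε h
  have hpb : pp a ε * (δ * be a ε) = δ * al a ε := by
    have k1 := Pool.Agent.H410.FC.al_mul_be h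
    have k2 := Pool.Agent.H410.FC.eps_mul h
    unfold Pool.Agent.H410.FC.pp
    calc (ε : ℝ) * al a ε ^ 2 * (δ * be a ε) = ε * (al a ε * be a ε) * (δ * al a ε) := by ring
      _ = δ * al a ε := by rw [k1, k2, one_mul]
  have e1 : DK (pp a ε) K ^ 3 * ac (wr a ε r) (pp a ε) (xd a ε δ) K (-1) =
      -((((δ : ℤ) : ℝ) * be a ε) ^ K * (DK (pp a ε) K ^ 3 * ((s : ℤ) : ℝ) +
        -(∑ l ∈ Icc 1 K, DK (pp a ε) K ^ 3 * hl a ε δ r l))) := by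
    rw [hCF a ε δ r h hδ K hK, hs, ← Finset.mul_sum]
    ring
  have e2 : DK (pp a ε)⁻¹ K ^ 3 * (pp a ε ^ K * ac (wr a ε r) (pp a ε) (xd a ε δ) K (-1)) =
      -((((δ : ℤ) : ℝ) * al a ε) ^ K * (DK (pp a ε)⁻¹ K ^ 3 * ((s : ℤ) : ℝ) +
        -(∑ l ∈ Icc 1 K, DK (pp a ε)⁻¹ K ^ 3 * hl a ε δ r l))) := by
    rw [hCF a ε δ r h hδ K hK, hs, ← Finset.mul_sum, ← hpb, mul_pow]
    ring
  rw [e1, e2]
  have hDK := cj_DK hDIVR h hK
  have hab : Cj a ε (((δ : ℤ) : ℝ) * be a ε) (((δ : ℤ) : ℝ) * al a ε) :=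
    h3 _ _ _ _ (h1 δ) (h5 _ _ h6)
  refine h4 _ _ (h3 _ _ _ _ (cj_pow hCJ h hab K) (h2 _ _ _ _
    (h3 _ _ _ _ (cj_pow hCJ h hDK 3) (h1 s)) (h4 _ _ (h9 _ _ _ fun l hl => ?_))))
  rw [Finset.mem_Icc] at hl
  exact cj_hl hCJ hDIVR h δ r hl.1 hl.2

end

end P_ENT

open P_ENT in
theorem t_ENT (hHPX : S_HPX) (hCF : S_CF) (hREC : S_REC) (hCJ : Pool.Agent.H410.FC.S_CJ)
    (hDIVR : Pool.Agent.H410.FC.S_DIVR) (hVW : S_VW) (hDIVC : S_DIVC) (hDLS : S_DLS) : S_ENT := by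
  intro a ε δ r h hδ s hs K hK
  have h0 := base hCF hCJ hDIVR h hδ r hs hK
  have hDK := cj_DK hDIVR h hK
  have hpow := fun {z z' : ℝ} (hz : Cj a ε z z') (n : ℕ) => cj_pow hCJ h hz n
  have hDl := cj_Dl hCJ h δ
  have hR := fun J : ℤ => hREC (wr a ε r) (pp a ε) (xd a ε δ) (hHPX a ε δ h hδ).1 K hK J
  obtain ⟨h1, h2, h3, h4, h5, h6, h7, h8, -, -, -, -, -⟩ := hCJ a ε h
  have hp : pp a ε ≠ 0 := Pool.Agent.H410.FC.pp_ne h
  set w := wr a ε r with hw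
  set α := al a ε with hα
  set β := be a ε with hβ
  set p := pp a ε with hpd
  set x := xd a ε δ with hx
  have hM : Cj a ε (DK p K ^ 3) (DK p⁻¹ K ^ 3) := hpow hDK 3
  set M : ℝ := DK p K ^ 3 with hMd
  set M' : ℝ := DK p⁻¹ K ^ 3 with hMd'
  have hP : p ^ K ≠ 0 := pow_ne_zero _ hp
  have hpK : Cj a ε (p ^ K) (p ^ K)⁻¹ := by
    rw [← inv_pow]
    exact hpow h7 K
  have hpK' : Cj a ε (p ^ K)⁻¹ (p ^ K) := h5 _ _ hpK
  -- the products `Δ c`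
  have hc : ∀ j : ℕ, Cj a ε (Dl ε δ α j * cc w p x (j : ℤ))
      (Dl ε δ β j * (-cc w p x (-1 - (j : ℤ)))) := by
    intro j
    have k1 := hDIVC a ε δ h hδ j j le_rfl
    have k2 := h3 _ _ _ _ ((hVW a ε r h (j : ℤ)).1) k1
    have k3 : Wt (wr a ε r) (((j : ℤ) : ℝ)) *
        (Dl ε δ (al a ε) j / (1 + xd a ε δ * pp a ε ^ (j : ℤ))) =
        Dl ε δ α j * cc w p x (j : ℤ) := by
      rw [← hα, ← hx, ← hpd, ← hw]
      unfold cc
      ring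
    have k4 : -Wt (wr a ε r) (((-1 - (j : ℤ) : ℤ) : ℝ)) *
        (Dl ε δ (be a ε) j / (1 + xd a ε δ * pp a ε ^ (-1 - (j : ℤ)))) =
        Dl ε δ β j * (-cc w p x (-1 - (j : ℤ))) := by
      rw [← hβ, ← hx, ← hpd, ← hw]
      unfold cc
      ring
    rw [k3, k4] at k2
    exact k2
  have hq : ∀ j : ℕ, Cj a ε (Dl ε δ α (j + 1) / Dl ε δ α j) (Dl ε δ β (j + 1) / Dl ε δ β j) :=
    fun j => (hDLS a ε δ h hδ j).2.2
  have hnα : ∀ j : ℕ, Dl ε δ α j ≠ 0 := fun j => (hDLS a ε δ h hδ j).1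
  have hnβ : ∀ j : ℕ, Dl ε δ β j ≠ 0 := fun j => (hDLS a ε δ h hδ j).2.1
  -- the recursion downwards
  have rdn : ∀ J : ℤ, ac w p x K (J - 1) = (p ^ K)⁻¹ * (ac w p x K J + cc w p x J) := by
    intro J
    have := hR (J - 1)
    rw [sub_add_cancel] at this
    rw [this, sub_add_cancel, inv_mul_cancel_left₀ hP]
  have r0 : ac w p x K ((0 : ℕ) : ℤ) = p ^ K * ac w p x K (-1) - cc w p x ((0 : ℕ) : ℤ) := by
    have k := hR (-1)
    have e : (-1 : ℤ) + 1 = ((0 : ℕ) : ℤ) := by norm_num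
    rw [e] at k
    exact k
  have r1 : ac w p x K (-2 - ((0 : ℕ) : ℤ)) =
      (p ^ K)⁻¹ * (ac w p x K (-1) + cc w p x (-1 - ((0 : ℕ) : ℤ))) := by
    have k := rdn (-1)
    have e : (-1 : ℤ) - 1 = -2 - ((0 : ℕ) : ℤ) := by norm_num
    have e' : (-1 : ℤ) - ((0 : ℕ) : ℤ) = -1 := by norm_num
    rw [e] at k
    rw [e']
    exact k
  have rs : ∀ j : ℕ, ac w p x K ((j + 1 : ℕ) : ℤ) =
      p ^ K * ac w p x K (j : ℤ) - cc w p x ((j + 1 : ℕ) : ℤ) := by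
    intro j
    have := hR (j : ℤ)
    push_cast
    exact this
  have rt : ∀ j : ℕ, ac w p x K (-2 - ((j + 1 : ℕ) : ℤ)) =
      (p ^ K)⁻¹ * (ac w p x K (-2 - (j : ℤ)) + cc w p x (-1 - ((j + 1 : ℕ) : ℤ))) := by
    intro j
    have := rdn (-2 - (j : ℤ))
    have e1 : -2 - (j : ℤ) - 1 = -2 - ((j + 1 : ℕ) : ℤ) := by
      push_cast
      ring
    have e2 : -1 - ((j + 1 : ℕ) : ℤ) = -2 - (j : ℤ) := by
      push_cast
      ring
    rw [e2, ← e1]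
    exact this
  have P1 : ∀ j : ℕ, Cj a ε (M * Dl ε δ α j * ac w p x K (j : ℤ))
      (M' * Dl ε δ β j * (p ^ K * ac w p x K (-2 - (j : ℤ)))) := by
    intro j
    induction j with
    | zero =>
      have k := h2 _ _ _ _ (h3 _ _ _ _ (h3 _ _ _ _ (hDl 0) hpK) h0)
        (h4 _ _ (h3 _ _ _ _ hM (hc 0)))
      have e1 : Dl ε δ α 0 * p ^ K * (M * ac w p x K (-1)) +
          -(M * (Dl ε δ α 0 * cc w p x ((0 : ℕ) : ℤ))) =
          M * Dl ε δ α 0 * ac w p x K ((0 : ℕ) : ℤ) := by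
        rw [r0]
        ring
      have e2 : Dl ε δ β 0 * (p ^ K)⁻¹ * (M' * (p ^ K * ac w p x K (-1))) +
          -(M' * (Dl ε δ β 0 * -cc w p x (-1 - ((0 : ℕ) : ℤ)))) =
          M' * Dl ε δ β 0 * (p ^ K * ac w p x K (-2 - ((0 : ℕ) : ℤ))) := by
        rw [r1]
        field_simp
      rw [← e1, ← e2]
      exact k
    | succ j ih =>
      have k := h2 _ _ _ _ (h3 _ _ _ _ (h3 _ _ _ _ (hq j) hpK) ih)
        (h4 _ _ (h3 _ _ _ _ hM (hc (j + 1))))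
      have e1 : Dl ε δ α (j + 1) / Dl ε δ α j * p ^ K * (M * Dl ε δ α j * ac w p x K (j : ℤ)) +
          -(M * (Dl ε δ α (j + 1) * cc w p x ((j + 1 : ℕ) : ℤ))) =
          M * Dl ε δ α (j + 1) * ac w p x K ((j + 1 : ℕ) : ℤ) := by
        rw [rs]
        have := hnα j
        field_simp
        ring
      have e2 : Dl ε δ β (j + 1) / Dl ε δ β j * (p ^ K)⁻¹ *
          (M' * Dl ε δ β j * (p ^ K * ac w p x K (-2 - (j : ℤ)))) +
          -(M' * (Dl ε δ β (j + 1) * -cc w p x (-1 - ((j + 1 : ℕ) : ℤ)))) =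
          M' * Dl ε δ β (j + 1) * (p ^ K * ac w p x K (-2 - ((j + 1 : ℕ) : ℤ))) := by
        rw [rt]
        have := hnβ j
        field_simp
      rw [← e1, ← e2]
      exact k
  have P3 : ∀ j : ℕ, Cj a ε (M * Dl ε δ β j * ac w p x K (-2 - (j : ℤ)))
      (M' * Dl ε δ α j * (p ^ K * ac w p x K (j : ℤ))) := by
    intro j
    induction j with
    | zero =>
      have k := h3 _ _ _ _ hpK' (h2 _ _ _ _ (h3 _ _ _ _ (h5 _ _ (hDl 0)) h0)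
        (h4 _ _ (h3 _ _ _ _ hM (h5 _ _ (hc 0)))))
      have e1 : (p ^ K)⁻¹ * (Dl ε δ β 0 * (M * ac w p x K (-1)) +
          -(M * (Dl ε δ β 0 * -cc w p x (-1 - ((0 : ℕ) : ℤ))))) =
          M * Dl ε δ β 0 * ac w p x K (-2 - ((0 : ℕ) : ℤ)) := by
        rw [r1]
        ring
      have e2 : p ^ K * (Dl ε δ α 0 * (M' * (p ^ K * ac w p x K (-1))) +
          -(M' * (Dl ε δ α 0 * cc w p x ((0 : ℕ) : ℤ)))) =
          M' * Dl ε δ α 0 * (p ^ K * ac w p x K ((0 : ℕ) : ℤ)) := by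
        rw [r0]
        ring
      rw [← e1, ← e2]
      exact k
    | succ j ih =>
      have k := h3 _ _ _ _ hpK' (h2 _ _ _ _ (h3 _ _ _ _ (h5 _ _ (hq j)) ih)
        (h4 _ _ (h3 _ _ _ _ hM (h5 _ _ (hc (j + 1))))))
      have e1 : (p ^ K)⁻¹ * (Dl ε δ β (j + 1) / Dl ε δ β j *
          (M * Dl ε δ β j * ac w p x K (-2 - (j : ℤ))) +
          -(M * (Dl ε δ β (j + 1) * -cc w p x (-1 - ((j + 1 : ℕ) : ℤ))))) =
          M * Dl ε δ β (j + 1) * ac w p x K (-2 - ((j + 1 : ℕ) : ℤ)) := by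
        rw [rt]
        have := hnβ j
        field_simp
      have e2 : p ^ K * (Dl ε δ α (j + 1) / Dl ε δ α j *
          (M' * Dl ε δ α j * (p ^ K * ac w p x K (j : ℤ))) +
          -(M' * (Dl ε δ α (j + 1) * cc w p x ((j + 1 : ℕ) : ℤ)))) =
          M' * Dl ε δ α (j + 1) * (p ^ K * ac w p x K ((j + 1 : ℕ) : ℤ)) := by
        rw [rs]
        have := hnα j
        field_simp
        ring
      rw [← e1, ← e2]
      exact k
  intro J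
  rcases J with j | j
  · exact P1 j
  · rcases j with _ | j
    · have e3 : (-2 - Int.negSucc 0 : ℤ) = -1 := rfl
      have e4 : Dc ε δ β α (Int.negSucc 0) = 1 := rfl
      have e5 : Dc ε δ α β (Int.negSucc 0) = 1 := rfl
      have e6 : (Int.negSucc 0 : ℤ) = -1 := rfl
      rw [e3, e4, e5, mul_one, mul_one, e6]
      exact h0
    · have k := P3 j
      have e0 : Int.negSucc (j + 1) = -2 - (j : ℤ) := by
        rw [Int.negSucc_eq]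
        push_cast
        ring
      have e1 : ac w p x K (Int.negSucc (j + 1)) = ac w p x K (-2 - (j : ℤ)) := by rw [e0]
      have e2 : ac w p x K (-2 - Int.negSucc (j + 1)) = ac w p x K (j : ℤ) := by
        rw [e0, show (-2 - (-2 - (j : ℤ)) : ℤ) = (j : ℤ) by ring]
      have e3 : Dc ε δ α β (Int.negSucc (j + 1)) = Dl ε δ β j := rfl
      have e4 : Dc ε δ β α (Int.negSucc (j + 1)) = Dl ε δ α j := rfl
      rw [e1, e2, e3, e4]
      exact k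

end Pool.Agent.H410.FL
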