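import Pool.Agent.H410.FL.Stm

/-!
Existence of the residue field (helper501).
-/

namespace Pool.Agent.H410.FL

open Finset Polynomial
open Pool.Agent.H410.FC (OK U sD al be pp DK Cj Rl Tt xt XX QQ pik VV EE FF ea ww C3 BF rr)

namespace P_EX

/-- the norm of the weight -/
def Rr (D : ℤ) (r : Fin 3 → ℤ) (m : ℤ) : ℤ :=
  (2 * D * r 1 * (2 * m + 1)) ^ 2 - D * (2 * r 0 + D * r 2 * (m * (m + 1))) ^ 2

theorem Rl_div {a ε : ℤ} {F : Type} [Field F] {g : F} {q k : ℕ} (hq : q.Prime) [CharP F q]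
    {W R : ℤ} (hW : (q : ℤ) ^ (k + 1) ∣ W) (hR : ¬ (q : ℤ) ^ (k + 1) ∣ R) :
    (R : ℝ) ≠ 0 ∧ Rl a ε g ((W : ℝ) / (R : ℝ)) 0 := by
  have hR0 : R ≠ 0 := by
    rintro rfl
    exact hR (dvd_zero _)
  have hR0' : (R : ℝ) ≠ 0 := by exact_mod_cast hR0
  refine ⟨hR0', ?_⟩
  have hfin : FiniteMultiplicity (q : ℤ) R := by
    rw [Int.finiteMultiplicity_iff]
    refine ⟨?_, hR0⟩
    rw [Int.natAbs_natCast]
    exact hq.one_lt.ne'
  obtain ⟨R', hR', hnd⟩ := hfin.exists_eq_pow_mul_and_not_dvd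
  generalize multiplicity (q : ℤ) R = j at hR'
  have hj : j ≤ k := by
    by_contra hc
    push Not at hc
    apply hR
    rw [hR']
    exact Dvd.dvd.mul_right (pow_dvd_pow _ hc) _
  obtain ⟨W', hW'⟩ := hW
  have hq0 : (q : ℝ) ≠ 0 := by exact_mod_cast hq.ne_zero
  obtain ⟨i, hi⟩ := Nat.exists_eq_add_of_le hj
  refine ⟨C ((q : ℤ) ^ (i + 1) * W'), C R', ?_, ?_, ?_⟩
  · rw [aeval_C, eq_intCast]
    intro h0
    exact hnd ((CharP.intCast_eq_zero_iff F q R').1 h0)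
  · rw [aeval_C, aeval_C, eq_intCast, eq_intCast]
    rw [mul_div_assoc', div_eq_iff hR0', hW', hR', hi]
    push_cast
    ring
  · rw [aeval_C, aeval_C, eq_intCast, eq_intCast]
    have : ((q : F)) = 0 := CharP.cast_eq_zero F q
    push_cast
    rw [this]
    simp

theorem core (hRL : Pool.Agent.H410.FC.S_RL) (hHPX : S_HPX) (hVW : S_VW) {a ε δ : ℤ}
    {r : Fin 3 → ℤ} (hOK : OK a ε) (hSg : Sg ε δ) {F : Type} [iF : Field F] {g : F} {m0 : ℕ}
    (hg : g ^ 2 = (a : F) * g - (ε : F)) {q k : ℕ} (hq : q.Prime) [CharP F q] {W : ℤ}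
    (hW : (q : ℤ) ^ (k + 1) ∣ W)
    (hR : ¬ (q : ℤ) ^ (k + 1) ∣
      Rr (a ^ 2 - 4 * ε) r m0 * Rr (a ^ 2 - 4 * ε) r (3 * (m0 : ℤ) + 1))
    {κ : ℝ} {κF : F} (hκ : Rl a ε g κ κF) (hu : 1 + xd a ε δ * pp a ε ^ m0 = κ * (W : ℝ))
    (h3 : (3 : F) ≠ 0) (hw : (δ : F) * g * ((ε : F) * g ^ 2) ^ m0 = 1) :
    (cc (wr a ε r) (pp a ε) (xd a ε δ) m0 ≠ 0 ∧
      Rl a ε g (cc (wr a ε r) (pp a ε) (xd a ε δ) m0)⁻¹ 0) ∧
    (cc (wr a ε r) (pp a ε) (xd a ε δ) ((m0 : ℤ) - Tt ε m0) ≠ 0 ∧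
      Rl a ε g (cc (wr a ε r) (pp a ε) (xd a ε δ) ((m0 : ℤ) - Tt ε m0))⁻¹ 0) := by
  obtain ⟨hint, hal, hadd, hmul, hneg, hinv, hzpow, -, -, -⟩ := hRL a ε hOK F iF g hg
  obtain ⟨-, hxabs, hxsq⟩ := hHPX a ε δ hOK hSg
  have hp0 : pp a ε ≠ 0 := Pool.Agent.H410.FC.pp_ne hOK
  have hone : Rl a ε g (1 : ℝ) (1 : F) := by
    have := hint 1
    simpa using this
  have hpow : ∀ (z : ℝ) (f : F), Rl a ε g z f → ∀ n : ℕ, Rl a ε g (z ^ n) (f ^ n) := by
    intro z f hz n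
    induction n with
    | zero => simpa using hone
    | succ n ih =>
      rw [pow_succ, pow_succ]
      exact hmul _ _ _ _ ih hz
  have hnum : ∀ n : ℤ, ∃ f : F, Rl a ε g (n : ℝ) f := fun n => ⟨_, hint n⟩
  have hsD : ∃ f : F, Rl a ε g (sD a ε) f := by
    have h := hadd _ _ _ _ (hmul _ _ _ _ (hint 2) hal) (hneg _ _ (hint a))
    have e : ((2 : ℤ) : ℝ) * al a ε + -(a : ℝ) = sD a ε := by
      unfold al
      push_cast
      ring
    rw [e] at h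
    exact ⟨_, h⟩
  have hWt : ∀ n : ℤ, ∃ f : F, Rl a ε g (Wt (wr a ε r) (n : ℝ)) f := by
    intro n
    obtain ⟨d, hd⟩ := hsD
    have e : Wt (wr a ε r) (n : ℝ) =
        sD a ε * (((2 * r 0 : ℤ) : ℝ) + sD a ε ^ 2 * ((r 2 * (n * (n + 1)) : ℤ) : ℝ)) +
          sD a ε ^ 2 * ((2 * r 1 * (2 * n + 1) : ℤ) : ℝ) := by
      unfold Wt wr
      simp only [Matrix.cons_val_zero, Matrix.cons_val_one, Matrix.cons_val_two, Matrix.head_cons,
        Matrix.tail_cons, Matrix.cons_val]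
      push_cast
      ring
    rw [e]
    exact ⟨_, hadd _ _ _ _ (hmul _ _ _ _ hd (hadd _ _ _ _ (hint _)
      (hmul _ _ _ _ (hpow _ _ hd 2) (hint _)))) (hmul _ _ _ _ (hpow _ _ hd 2) (hint _))⟩
  have hp : Rl a ε g (pp a ε) ((ε : F) * g ^ 2) := by
    unfold pp
    exact hmul _ _ _ _ (hint ε) (hpow _ _ hal 2)
  have hx : Rl a ε g (xd a ε δ) (-((δ : F) * g)) := by
    unfold xd
    exact hneg _ _ (hmul _ _ _ _ (hint δ) hal)
  -- the number `w`
  obtain ⟨w, hwdef⟩ : ∃ w : ℝ, w = xd a ε δ * pp a ε ^ m0 := ⟨_, rfl⟩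
  have hwR : Rl a ε g w (-1) := by
    have h1 := hmul _ _ _ _ hx (hpow _ _ hp m0)
    rw [neg_mul, hw] at h1
    rw [hwdef]
    exact h1
  have hal85 := Pool.Agent.H410.FC.al_ge hOK
  have hwabs : 1 < |w| := by
    rw [hwdef, abs_mul, abs_pow, hxabs]
    have h2 : |pp a ε| = al a ε ^ 2 := Pool.Agent.H410.FC.abs_pp hOK
    have h3 : (1 : ℝ) ≤ |pp a ε| ^ m0 := one_le_pow₀ (by rw [h2]; nlinarith)
    nlinarith
  have hw0 : w ≠ 0 := by
    intro h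
    rw [h, abs_zero] at hwabs
    linarith
  have hu0 : 1 + w ≠ 0 := by
    intro h
    have h1 : w = -1 := by linarith
    rw [h1] at hwabs
    norm_num at hwabs
  have hw2 : w ^ 2 = ε * pp a ε ^ (2 * m0 + 1) := by
    rw [hwdef, mul_pow, hxsq]
    ring
  rw [← hwdef] at hu
  -- the numbers `R`
  have hR1 : ¬ (q : ℤ) ^ (k + 1) ∣ Rr (a ^ 2 - 4 * ε) r m0 :=
    fun h => hR (Dvd.dvd.mul_right h _)
  have hR2 : ¬ (q : ℤ) ^ (k + 1) ∣ Rr (a ^ 2 - 4 * ε) r (3 * (m0 : ℤ) + 1) :=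
    fun h => hR (Dvd.dvd.mul_left h _)
  obtain ⟨hR10, hR11⟩ := Rl_div (a := a) (ε := ε) (g := g) hq hW hR1
  obtain ⟨hR20, hR21⟩ := Rl_div (a := a) (ε := ε) (g := g) hq hW hR2
  have hv1 : Wt (wr a ε r) (((m0 : ℤ)) : ℝ) * (-Wt (wr a ε r) (((-1 - (m0 : ℤ) : ℤ) : ℝ))) =
      ((Rr (a ^ 2 - 4 * ε) r m0 : ℤ) : ℝ) := (hVW a ε r hOK m0).2
  have hv2 : Wt (wr a ε r) (((3 * (m0 : ℤ) + 1 : ℤ)) : ℝ) *
      (-Wt (wr a ε r) (((-1 - (3 * (m0 : ℤ) + 1) : ℤ) : ℝ))) =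
      ((Rr (a ^ 2 - 4 * ε) r (3 * (m0 : ℤ) + 1) : ℤ) : ℝ) := (hVW a ε r hOK _).2
  generalize hRa : ((Rr (a ^ 2 - 4 * ε) r m0 : ℤ) : ℝ) = R1 at *
  generalize hRb : ((Rr (a ^ 2 - 4 * ε) r (3 * (m0 : ℤ) + 1) : ℤ) : ℝ) = R2 at *
  obtain ⟨f1, hf1⟩ := hWt (m0 : ℤ)
  obtain ⟨f1', hf1'⟩ := hWt (-1 - (m0 : ℤ))
  obtain ⟨f2, hf2⟩ := hWt (3 * (m0 : ℤ) + 1)
  -- a general rule
  have rule : ∀ (R A B c : ℝ) (fA fc : F), R ≠ 0 → A * (-B) = R → Rl a ε g ((W : ℝ) / R) 0 →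
      Rl a ε g A fA → c ≠ 0 → Rl a ε g c fc → ∀ z : ℝ, z = B / ((1 + w) * c) →
      z ≠ 0 ∧ Rl a ε g z⁻¹ 0 := by
    intro R A B c fA fc hR0 hAB hWR hA hc0 hc z hz
    have hA0 : A ≠ 0 := by
      rintro rfl
      exact hR0 (by rw [← hAB]; ring)
    have hB0 : B ≠ 0 := by
      rintro rfl
      exact hR0 (by rw [← hAB]; ring)
    refine ⟨?_, ?_⟩
    · rw [hz]
      exact div_ne_zero hB0 (mul_ne_zero hu0 hc0)
    · have e : z⁻¹ = κ * ((W : ℝ) / R) * -A * c := by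
        rw [hz, inv_div, hu, ← hAB]
        field_simp
      rw [e]
      have h5 := hmul _ _ _ _ (hmul _ _ _ _ (hmul _ _ _ _ hκ hWR) (hneg _ _ hA)) hc
      simpa using h5
  refine ⟨?_, ?_⟩
  · have hv1' : Wt (wr a ε r) (((-1 - (m0 : ℤ) : ℤ) : ℝ)) *
        (-Wt (wr a ε r) (((m0 : ℤ)) : ℝ)) = R1 := by rw [← hv1]; ring
    refine rule R1 _ _ 1 _ _ hR10 hv1' hR11 hf1' one_ne_zero hone _ ?_
    unfold cc
    rw [zpow_natCast, ← hwdef, mul_one]
  · have e0 : ∀ Q : ℝ, pp a ε ^ Tt ε m0 = Q →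
        xd a ε δ * pp a ε ^ ((m0 : ℤ) - Tt ε m0) = w / Q := by
      intro Q hQ
      rw [zpow_sub₀ hp0, zpow_natCast, zpow_natCast, hQ, hwdef]
      ring
    have hwinv : Rl a ε g w⁻¹ (-1)⁻¹ := (hinv _ _ hwR (neg_ne_zero.2 one_ne_zero)).2
    rcases Pool.Agent.H410.FC.eps_cases hOK with h | h
    · -- `ε = -1`
      have hT : Tt ε m0 = 2 * (2 * m0 + 1) := by
        unfold Tt
        rw [if_neg (by omega)]
      have hpodd : pp a ε ^ (2 * m0 + 1) = - w ^ 2 := by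
        rw [hw2, h]
        push_cast
        ring
      have hpT : pp a ε ^ Tt ε m0 = w ^ 4 := by
        rw [hT, Nat.mul_comm, pow_mul, hpodd]
        ring
      have hqne : w ^ 2 - w + 1 ≠ 0 := by nlinarith [sq_nonneg (w - 1), sq_nonneg w]
      have rq : Rl a ε g (w ^ 2 - w + 1) 3 := by
        have h1 := hadd _ _ _ _ (hadd _ _ _ _ (hpow _ _ hwR 2) (hneg _ _ hwR)) hone
        have e3 : w ^ 2 + -w + 1 = w ^ 2 - w + 1 := by ring
        have e4 : ((-1 : F)) ^ 2 + - -1 + 1 = 3 := by ring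
        rw [e3, e4] at h1
        exact h1
      refine rule R2 _ _ ((w ^ 2 - w + 1) * w⁻¹ ^ 3) _ _ hR20 hv2 hR21 hf2
        (mul_ne_zero hqne (pow_ne_zero _ (inv_ne_zero hw0)))
        (hmul _ _ _ _ rq (hpow _ _ hwinv 3)) _ ?_
      unfold cc
      have e1 : (((m0 : ℤ) - (Tt ε m0 : ℤ) : ℤ) : ℝ) = ((-1 - (3 * (m0 : ℤ) + 1) : ℤ) : ℝ) := by
        rw [hT]
        push_cast
        ring
      rw [e0 _ hpT, e1]
      have e2 : 1 + w / w ^ 4 = (1 + w) * ((w ^ 2 - w + 1) * w⁻¹ ^ 3) := by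
        field_simp
        ring
      rw [e2]
    · -- `ε = 1`
      have hT : Tt ε m0 = 2 * m0 + 1 := by
        unfold Tt
        rw [if_pos h]
      have hpT : pp a ε ^ Tt ε m0 = w ^ 2 := by
        rw [hT, hw2, h]
        push_cast
        ring
      refine rule R1 _ _ w⁻¹ _ _ hR10 hv1 hR11 hf1 (inv_ne_zero hw0) hwinv _ ?_
      unfold cc
      have e1 : (((m0 : ℤ) - (Tt ε m0 : ℤ) : ℤ) : ℝ) = ((-1 - (m0 : ℤ) : ℤ) : ℝ) := by
        rw [hT]
        push_cast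
        ring
      rw [e0 _ hpT, e1]
      have e2 : 1 + w / w ^ 2 = (1 + w) * w⁻¹ := by
        field_simp
        ring
      rw [e2]

theorem ne_char {F : Type} [Field F] {q : ℕ} [CharP F q] {n : ℤ} (h0 : n ≠ 0)
    (h1 : |n| < q) : (n : F) ≠ 0 := by
  intro h
  have h2 := (CharP.intCast_eq_zero_iff F q n).1 h
  have h3 := Int.le_of_dvd (abs_pos.2 h0) ((dvd_abs _ _).2 h2)
  omega

end P_EX

open P_EX in
theorem t_EX (hRL : Pool.Agent.H410.FC.S_RL) (hHPX : S_HPX) (hVW : S_VW) (hRS1 : S_RS1)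
    (hRS2 : S_RS2) (hPRM : S_PRM) (hUID : S_UID) : S_EX := by
  intro a ε δ r hOK hSg hr B
  have hD5 : (5 : ℤ) ≤ a ^ 2 - 4 * ε := by
    have := Pool.Agent.H410.FC.disc_ge hOK
    have e : (a : ℝ) ^ 2 - 4 * ε = ((a ^ 2 - 4 * ε : ℤ) : ℝ) := by push_cast; ring
    rw [e] at this
    exact_mod_cast this
  obtain ⟨M, hM⟩ := hPRM (a ^ 2 - 4 * ε) r hD5 hr
  obtain ⟨B', hB'⟩ : ∃ B' : ℕ, B' = B + M + 2 + (r 0).natAbs + (r 1).natAbs + (r 2).natAbs :=
    ⟨_, rfl⟩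
  have hri : ∀ (m0 q : ℕ), B' ≤ m0 → 4 * m0 + 1 ≤ q → ∀ i : Fin 3, |r i| < q := by
    intro m0 q h1 h2 i
    have h3 : (r i).natAbs ≤ m0 := by
      fin_cases i
      · change (r 0).natAbs ≤ m0
        omega
      · change (r 1).natAbs ≤ m0
        omega
      · change (r 2).natAbs ≤ m0
        omega
    rw [Int.abs_eq_natAbs]
    exact_mod_cast (by omega : (r i).natAbs < q)
  rcases hOK with ⟨hε, ha⟩ | ⟨hε, ha⟩
  · -- `ε = -1`
    obtain ⟨m0, hm0, W, hW, hVW', hq'⟩ := hRS1 a ha B'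
    obtain ⟨q, k, hq, hqW, hqR⟩ := hM m0 (by omega) W hW
    obtain ⟨hq1, hF⟩ := hq' q hq (dvd_trans (dvd_pow_self q (Nat.succ_ne_zero k)) hqW)
    have hσ : (δ * (-1) ^ m0 = 1 ∨ δ * (-1) ^ m0 = -1) := by
      rcases hSg.1 with h | h <;> rcases neg_one_pow_eq_or ℤ m0 with h' | h' <;>
        rw [h, h'] <;> norm_num
    obtain ⟨F, iF, g, hch, hg, hgl, hgo, hgD⟩ := hF _ hσ
    have hδ2 : ((δ * (-1) ^ m0 : ℤ) : F) * ((δ * (-1) ^ m0 : ℤ) : F) = 1 := by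
      rcases hσ with h | h <;> rw [h] <;> norm_num
    have hOK' : OK a ε := Or.inl ⟨hε, ha⟩
    have h2F : (2 : F) ≠ 0 := by
      have := ne_char (F := F) (q := q) (n := 2) (by norm_num) (by
        rw [abs_of_pos (by norm_num)]
        have : 2 < q := by omega
        exact_mod_cast this)
      exact_mod_cast this
    have h3F : (3 : F) ≠ 0 := by
      have := ne_char (F := F) (q := q) (n := 3) (by norm_num) (by
        rw [abs_of_pos (by norm_num)]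
        have : 3 < q := by omega
        exact_mod_cast this)
      exact_mod_cast this
    have hgF : g ^ 2 = (a : F) * g - (ε : F) := by
      rw [hg, hε]
      push_cast
      ring
    have hwF : (δ : F) * g * ((ε : F) * g ^ 2) ^ m0 = 1 := by
      have e : (δ : F) * g * ((ε : F) * g ^ 2) ^ m0 =
          ((δ * (-1) ^ m0 : ℤ) : F) * g ^ (2 * m0 + 1) := by
        rw [hε]
        push_cast
        rw [mul_pow]
        ring
      rw [e, hgl]
      exact hδ2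
    obtain ⟨hint, hal, hadd, hmul, hneg, hinv, hzpow, -, -, -⟩ := hRL a ε hOK' F iF g hgF
    have hone : Rl a ε g (1 : ℝ) (1 : F) := by
      have := hint 1
      simpa using this
    have hpow : ∀ (z : ℝ) (f : F), Rl a ε g z f → ∀ n : ℕ, Rl a ε g (z ^ n) (f ^ n) := by
      intro z f hz n
      induction n with
      | zero => simpa using hone
      | succ n ih =>
        rw [pow_succ, pow_succ]
        exact hmul _ _ _ _ ih hz
    have hden := hadd _ _ _ _ (hpow _ _ hal (2 * m0 + 1)) (hint (δ * (-1) ^ m0))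
    have hden0 : g ^ (2 * m0 + 1) + ((δ * (-1) ^ m0 : ℤ) : F) ≠ 0 := by
      rw [hgl, ← two_mul]
      refine mul_ne_zero h2F ?_
      intro h0
      rw [h0, mul_zero] at hδ2
      exact zero_ne_one hδ2
    obtain ⟨hd0, hdi⟩ := hinv _ _ hden hden0
    have hκ := hneg _ _ (hmul _ _ _ _ (hmul _ _ _ _ (hmul _ _ _ _ (hint (δ * (-1) ^ m0))
      (hpow _ _ hal (2 * m0 + 1))) (hint a)) hdi)
    have hu := (hUID a ε δ hOK' hSg m0).1 hε
    have hu' : 1 + xd a ε δ * pp a ε ^ m0 =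
        -(((δ * (-1) ^ m0 : ℤ) : ℝ) * al a ε ^ (2 * m0 + 1) * (a : ℝ) *
          (al a ε ^ (2 * m0 + 1) + ((δ * (-1) ^ m0 : ℤ) : ℝ))⁻¹) * ((W : ℤ) : ℝ) := by
      have hV : (V a ε (2 * m0 + 1) : ℝ) = (a : ℝ) * (((W : ℤ)) : ℝ) := by
        rw [hε, hVW']
        push_cast
        ring
      have hc : ((δ * (-1) ^ m0 : ℤ) : ℝ) = (δ : ℝ) * (-1) ^ m0 := by push_cast; ring
      rw [hV, ← hc] at hu
      generalize ((δ * (-1) ^ m0 : ℤ) : ℝ) = σ at *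
      have h5 : (1 + xd a ε δ * pp a ε ^ m0) =
          -(σ * al a ε ^ (2 * m0 + 1) * ((a : ℝ) * (((W : ℤ)) : ℝ))) *
            (al a ε ^ (2 * m0 + 1) + σ)⁻¹ := by
        rw [← hu, mul_assoc, mul_inv_cancel₀ hd0, mul_one]
      rw [h5]
      ring
    have hqW' : (q : ℤ) ^ (k + 1) ∣ (W : ℤ) := by exact_mod_cast hqW
    obtain ⟨c1, c2⟩ := core hRL hHPX hVW (r := r) hOK' hSg hgF hq (k := k) hqW' hqR hκ hu' h3F hwF
    refine ⟨m0, by omega, F, iF, g, ?_⟩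
    refine ⟨by omega, hgF, hwF, ?_, h2F, h3F, ?_, ?_, c1, c2⟩
    · intro k hk0 hk1
      have hT : Tt ε m0 = 2 * (2 * m0 + 1) := by
        unfold Tt
        rw [if_neg (by omega)]
      rw [hT] at hk1
      have := hgo k hk0 hk1
      rw [hε]
      push_cast
      rw [neg_one_mul]
      exact this
    · rw [hε]
      have e : (a ^ 2 - 4 * (-1) : ℤ) = a ^ 2 + 4 := by ring
      rw [e]
      exact hgD
    · intro i hi
      exact ne_char (q := q) hi (hri m0 q hm0 hq1 i)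
  · -- `ε = 1`
    obtain ⟨m0, hm0, W, hW, hUW, hq'⟩ := hRS2 a ha B'
    obtain ⟨q, k, hq, hqW, hqR⟩ := hM m0 (by omega) W hW
    obtain ⟨hq1, F, iF, g, hch, hg, hgl, hgo, hgD⟩ :=
      hq' q hq (dvd_trans (dvd_pow_self q (Nat.succ_ne_zero k)) hqW)
    have hδ : δ = 1 := hSg.2 hε
    have hOK' : OK a ε := Or.inr ⟨hε, ha⟩
    have h2F : (2 : F) ≠ 0 := by
      have := ne_char (F := F) (q := q) (n := 2) (by norm_num) (by
        rw [abs_of_pos (by norm_num)]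
        have : 2 < q := by omega
        exact_mod_cast this)
      exact_mod_cast this
    have h3F : (3 : F) ≠ 0 := by
      have := ne_char (F := F) (q := q) (n := 3) (by norm_num) (by
        rw [abs_of_pos (by norm_num)]
        have : 3 < q := by omega
        exact_mod_cast this)
      exact_mod_cast this
    have hgF : g ^ 2 = (a : F) * g - (ε : F) := by
      rw [hg, hε]
      push_cast
      ring
    have hwF : (δ : F) * g * ((ε : F) * g ^ 2) ^ m0 = 1 := by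
      rw [hε, hδ, ← hgl]
      push_cast
      ring
    obtain ⟨hint, hal, hadd, hmul, hneg, hinv, hzpow, -, -, -⟩ := hRL a ε hOK' F iF g hgF
    have hone : Rl a ε g (1 : ℝ) (1 : F) := by
      have := hint 1
      simpa using this
    have hpow : ∀ (z : ℝ) (f : F), Rl a ε g z f → ∀ n : ℕ, Rl a ε g (z ^ n) (f ^ n) := by
      intro z f hz n
      induction n with
      | zero => simpa using hone
      | succ n ih =>
        rw [pow_succ, pow_succ]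
        exact hmul _ _ _ _ ih hz
    have hκ := hneg _ _ (hmul _ _ _ _ (hadd _ _ _ _ hal (hneg _ _ hone)) (hpow _ _ hal m0))
    have hu := (hUID a ε δ hOK' hSg m0).2 hε
    have hu' : 1 + xd a ε δ * pp a ε ^ m0 =
        -((al a ε + -1) * al a ε ^ m0) * ((W : ℤ) : ℝ) := by
      rw [hu]
      have hV : (U a ε (m0 + 1) : ℝ) + (U a ε m0 : ℝ) = ((W : ℤ) : ℝ) := by
        rw [hε, ← hUW]
        push_cast
        ring
      rw [hV]
      ring
    have hqW' : (q : ℤ) ^ (k + 1) ∣ (W : ℤ) := by exact_mod_cast hqW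
    obtain ⟨c1, c2⟩ := core hRL hHPX hVW (r := r) hOK' hSg hgF hq (k := k) hqW' hqR hκ hu' h3F hwF
    refine ⟨m0, by omega, F, iF, g, ?_⟩
    refine ⟨by omega, hgF, hwF, ?_, h2F, h3F, ?_, ?_, c1, c2⟩
    · intro k hk0 hk1
      have hT : Tt ε m0 = 2 * m0 + 1 := by
        unfold Tt
        rw [if_pos hε]
      rw [hT] at hk1
      have := hgo k hk0 hk1
      rw [hε]
      push_cast
      rw [one_mul]
      exact this
    · rw [hε]
      have e : (a ^ 2 - 4 * 1 : ℤ) = a ^ 2 - 4 := by ring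
      rw [e]
      exact hgD
    · intro i hi
      exact ne_char (q := q) hi (hri m0 q hm0 hq1 i)

end Pool.Agent.H410.FL
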