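import Pool.Agent.H410.FL.Stm

/-!
Conclusion: the final inequality (statement `S_FIN`), helper399, adapted from `FC/P_FIN.lean`.
-/

set_option autoImplicit false

namespace Pool.Agent.H410.FL

open Finset Polynomial
open Pool.Agent.H410.FC (OK U sD al be pp DK Cj Rl Tt xt XX QQ pik VV EE FF ea ww C3 BF rr)

namespace P_FIN

theorem expo (n C C' : ℕ) (hn : 1 ≤ n)
    (hB : 2 * C + 48600 + 8100 * C' + 1 ≤ n)
    (h : 2 * (225 * ((3 * (2 * n + 1) ^ 3 + 2 * (n + 1) ^ 3) +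
        (3 * (2 * n + 1) ^ 3 + 2 * (n - 1) ^ 3))) ≤
      2 * (11648 * n ^ 3 + C * n ^ 2) +
        2 * (4050 * ((2 * n + 1) * (n + 1))) +
        2 * (225 * (2 * (C' * (2 * n + 1) ^ 2)))) : False := by
  obtain ⟨m, rfl⟩ : ∃ m, n = m + 1 := ⟨n - 1, by omega⟩
  rw [Nat.add_sub_cancel] at h
  have h2 : (2 * (m + 1) + 1) * (m + 1 + 1) ≤ 6 * (m + 1) ^ 2 := by nlinarith
  have h3 : (2 * (m + 1) + 1) ^ 2 ≤ 9 * (m + 1) ^ 2 := by nlinarith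
  have h4 : 52 * (m + 1) ^ 3 ≤ (3 * (2 * (m + 1) + 1) ^ 3 + 2 * (m + 1 + 1) ^ 3) +
        (3 * (2 * (m + 1) + 1) ^ 3 + 2 * m ^ 3) := by nlinarith
  have h6 : 2 * (4050 * ((2 * (m + 1) + 1) * (m + 1 + 1))) ≤ 48600 * (m + 1) ^ 2 := by
    calc 2 * (4050 * ((2 * (m + 1) + 1) * (m + 1 + 1))) ≤ 2 * (4050 * (6 * (m + 1) ^ 2)) := by
          gcongr
      _ = _ := by ring
  have h7 : 2 * (225 * (2 * (C' * (2 * (m + 1) + 1) ^ 2))) ≤ 8100 * C' * (m + 1) ^ 2 := by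
    calc 2 * (225 * (2 * (C' * (2 * (m + 1) + 1) ^ 2))) ≤
          2 * (225 * (2 * (C' * (9 * (m + 1) ^ 2)))) := by gcongr
      _ = _ := by ring
  have h8 : 104 * (m + 1) ^ 3 ≤ (2 * C + 48600 + 8100 * C') * (m + 1) ^ 2 := by
    have h9 : 2 * (225 * (52 * (m + 1) ^ 3)) ≤
        2 * (11648 * (m + 1) ^ 3 + C * (m + 1) ^ 2) + 48600 * (m + 1) ^ 2 +
        8100 * C' * (m + 1) ^ 2 := by
      calc 2 * (225 * (52 * (m + 1) ^ 3)) ≤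
          2 * (225 * ((3 * (2 * (m + 1) + 1) ^ 3 + 2 * (m + 1 + 1) ^ 3) +
            (3 * (2 * (m + 1) + 1) ^ 3 + 2 * m ^ 3))) := by gcongr
        _ ≤ _ := h
        _ ≤ _ := by gcongr
    nlinarith
  have h9 : (2 * C + 48600 + 8100 * C') * (m + 1) ^ 2 ≤ m * (m + 1) ^ 2 :=
    Nat.mul_le_mul_right _ (Nat.le_of_succ_le_succ hB)
  have h10 : m * (m + 1) ^ 2 < 104 * (m + 1) ^ 3 := by
    have : 0 < (m + 1) ^ 2 := by positivity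
    nlinarith
  omega

end P_FIN

open P_FIN in
theorem t_FIN (hHPX : S_HPX) (hNV : S_NV) (hNRM : S_NRM) (hDDB : S_DDB) (hUP : S_UP) :
    S_FIN := by
  intro a ε δ r hok hsg hr s hs
  have hal1 : (1 : ℝ) < al a ε := by linarith [Pool.Agent.H410.FC.al_ge hok]
  have hal0 : (0 : ℝ) < al a ε := Pool.Agent.H410.FC.al_pos hok
  obtain ⟨C, hC⟩ := hDDB a ε δ hok hsg
  obtain ⟨C', hC'⟩ := hUP (wr a ε r) (pp a ε) (xd a ε δ) (hHPX a ε δ hok hsg).1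
  obtain ⟨n, hn, hdet⟩ := hNV a ε δ r hok hsg hr s hs
    (2 * C + 48600 + 8100 * C' + 1)
  have hn1 : 1 ≤ n := by omega
  have hnrm := hNRM a ε δ r hok hsg s hs n hdet
  have hdd := hC n hn1
  have hup1 := hC' n (n + 1) (by omega)
  have hup2 := hC' (n + 2) (n - 1) (by omega)
  rw [show n + (n + 1) = 2 * n + 1 by ring] at hup1
  rw [show n + 2 + (n - 1) = 2 * n + 1 by omega] at hup2
  obtain ⟨d1, hd1⟩ : ∃ d, d = |(AM (wr a ε r) (pp a ε) (xd a ε δ) (-(n : ℤ)) (2 * n + 1)).det| :=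
    ⟨_, rfl⟩
  obtain ⟨d2, hd2⟩ : ∃ d, d =
    |(AM (wr a ε r) (pp a ε) (xd a ε δ) (-((n + 2 : ℕ) : ℤ)) (2 * n + 1)).det| := ⟨_, rfl⟩
  rw [← hd1] at hup1 hnrm
  rw [← hd2] at hup2 hnrm
  have hd1' : 0 ≤ d1 := by rw [hd1]; exact abs_nonneg _
  have hd2' : 0 ≤ d2 := by rw [hd2]; exact abs_nonneg _
  obtain ⟨D, hD⟩ : ∃ D, D = DD ε δ (pp a ε) (al a ε) (be a ε) n *
    DD ε δ (pp a ε)⁻¹ (be a ε) (al a ε) n := ⟨_, rfl⟩
  rw [← hD] at hdd hnrm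
  have hD' : 0 ≤ D := by
    rw [hD]
    unfold DD
    positivity
  rw [Pool.Agent.H410.FC.abs_pp hok] at hnrm hup1 hup2
  clear hd1 hd2 hD hs
  obtain ⟨α, hα⟩ : ∃ α, α = al a ε := ⟨_, rfl⟩
  rw [← hα] at hal1 hal0 hnrm hdd hup1 hup2
  have hprod : (d1 * d2) ^ 18 * (α ^ 2) ^ ((3 * (2 * n + 1) ^ 3 + 2 * (n + 1) ^ 3) +
        (3 * (2 * n + 1) ^ 3 + 2 * (n - 1) ^ 3)) ≤ (α ^ 2) ^ (2 * (C' * (2 * n + 1) ^ 2)) := by
    calc (d1 * d2) ^ 18 * (α ^ 2) ^ ((3 * (2 * n + 1) ^ 3 + 2 * (n + 1) ^ 3) +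
        (3 * (2 * n + 1) ^ 3 + 2 * (n - 1) ^ 3)) =
        (d1 ^ 18 * (α ^ 2) ^ (3 * (2 * n + 1) ^ 3 + 2 * (n + 1) ^ 3)) *
          (d2 ^ 18 * (α ^ 2) ^ (3 * (2 * n + 1) ^ 3 + 2 * (n - 1) ^ 3)) := by
          rw [pow_add]; ring
      _ ≤ (α ^ 2) ^ (C' * (2 * n + 1) ^ 2) * (α ^ 2) ^ (C' * (2 * n + 1) ^ 2) := by
          gcongr
      _ = _ := by rw [← pow_add]; congr 1; ring
  apply expo n C C' hn1 (by omega)
  obtain ⟨E, hE⟩ : ∃ E, E = (3 * (2 * n + 1) ^ 3 + 2 * (n + 1) ^ 3) +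
        (3 * (2 * n + 1) ^ 3 + 2 * (n - 1) ^ 3) := ⟨_, rfl⟩
  rw [← hE] at hprod ⊢
  rw [← pow_le_pow_iff_right₀ hal1]
  obtain ⟨X, hX⟩ : ∃ X, X = (D * (α ^ 2) ^ ((2 * n + 1) * (n + 1)) *
    (d1 * d2)) ^ 4050 := ⟨_, rfl⟩
  have hX1 : 1 ≤ X := by
    rw [hX]
    exact one_le_pow₀ hnrm
  calc α ^ (2 * (225 * E)) = 1 * ((α ^ 2) ^ E) ^ 225 := by
        rw [one_mul, ← pow_mul, ← pow_mul]
        congr 1; ring
    _ ≤ X * ((α ^ 2) ^ E) ^ 225 :=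
        mul_le_mul_of_nonneg_right hX1 (by positivity)
    _ = (D * (α ^ 2) ^ ((2 * n + 1) * (n + 1)) * (d1 * d2)) ^ 4050 *
        ((α ^ 2) ^ E) ^ 225 := by rw [hX]
    _ = (D ^ 2025) ^ 2 *
        (α ^ 2) ^ (4050 * ((2 * n + 1) * (n + 1))) * ((d1 * d2) ^ 18 * (α ^ 2) ^ E) ^ 225 := by
        rw [mul_pow, mul_pow, mul_pow ((d1 * d2) ^ 18)]
        rw [← pow_mul D, ← pow_mul (α ^ 2), ← pow_mul (d1 * d2) 18]
        rw [show (2 * n + 1) * (n + 1) * 4050 = 4050 * ((2 * n + 1) * (n + 1)) by ring]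
        norm_num
        ring
    _ ≤ (α ^ (11648 * n ^ 3 + C * n ^ 2)) ^ 2 *
        (α ^ 2) ^ (4050 * ((2 * n + 1) * (n + 1))) *
        ((α ^ 2) ^ (2 * (C' * (2 * n + 1) ^ 2))) ^ 225 := by
        have hD2 : 0 ≤ D ^ 2025 := pow_nonneg hD' _
        have e2 := pow_le_pow_left₀ hD2 hdd 2
        have e3 := pow_le_pow_left₀ (by positivity) hprod 225
        have hα0 := hal0.le
        exact mul_le_mul (mul_le_mul_of_nonneg_right e2 (pow_nonneg (pow_nonneg hα0 _) _)) e3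
          (pow_nonneg (mul_nonneg (pow_nonneg (mul_nonneg hd1' hd2') _)
            (pow_nonneg (pow_nonneg hα0 _) _)) _)
          (mul_nonneg (pow_nonneg (pow_nonneg hα0 _) _) (pow_nonneg (pow_nonneg hα0 _) _))
    _ = _ := by
        rw [← pow_mul, ← pow_mul, ← pow_mul, ← pow_mul, ← pow_add, ← pow_add]
        exact congrArg (fun e => α ^ e) (by ring)

end Pool.Agent.H410.FL
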