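import Pool.Agent.H410.FL.Stm

/-! Series for `L(F,G)` (helper323), after `Pool/Agent/H410/FC/P_HLL.lean`. -/

namespace Pool.Agent.H410.FL

open Finset Polynomial
open Pool.Agent.H410.FC (OK U sD al be pp DK Cj Rl Tt xt XX QQ pik VV EE FF ea ww C3 BF rr)

theorem P_HLL.Dg_sum (w : Fin 3 → ℝ) {ι : Type} (s : Finset ι) (f : ι → PowerSeries ℝ) :
    Dg w (∑ i ∈ s, f i) = ∑ i ∈ s, Dg w (f i) := by
  unfold Dg
  rw [map_sum, map_sum, map_sum, Finset.mul_sum, Finset.mul_sum, Finset.mul_sum,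
    ← Finset.sum_add_distrib, ← Finset.sum_add_distrib]

theorem P_HLL.Dg_C (w : Fin 3 → ℝ) (a b : ℝ) (f : PowerSeries ℝ) :
    Dg w (PowerSeries.C a * f * PowerSeries.C b) = a * Dg w f * b := by
  unfold Dg
  rw [PowerSeries.coeff_mul_C, PowerSeries.coeff_C_mul, PowerSeries.coeff_mul_C,
    PowerSeries.coeff_C_mul, PowerSeries.coeff_mul_C, PowerSeries.coeff_C_mul]
  ring

theorem t_HLL (hASER : S_ASER) (hLAG : Pool.Agent.H410.FC.S_LAG) : S_HLL := by
  intro w p x hp N F G hF hG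
  have key : ∀ t : ℕ, kap w p x N (t + 1) (F * G) = ∑ k ∈ range N, ∑ j ∈ range N,
      F.eval (p ^ (k + 1)) / pik p N k * (wt x (t + 1) * Dg w (XX p (t + 1) ^ (j + 1) *
        (PowerSeries.C (p ^ (k + 1)) - XX p (t + 1))⁻¹)) * G.coeff j := by
    intro t
    have h1 := hLAG p hp.1 N (t + 1) (by omega) F hF
    have h2 : Polynomial.aeval (XX p (t + 1)) G =
        ∑ j ∈ range N, PowerSeries.C (G.coeff j) * XX p (t + 1) ^ j := by
      rw [Polynomial.aeval_eq_sum_range' hG]
      refine Finset.sum_congr rfl fun j _ => ?_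
      rw [PowerSeries.smul_eq_C_mul]
    have h3 : XX p (t + 1) * Polynomial.aeval (XX p (t + 1)) (F * G) *
        (QQ p N (t + 1))⁻¹ = ∑ k ∈ range N, ∑ j ∈ range N,
          PowerSeries.C (F.eval (p ^ (k + 1)) / pik p N k) * (XX p (t + 1) ^ (j + 1) *
          (PowerSeries.C (p ^ (k + 1)) - XX p (t + 1))⁻¹) * PowerSeries.C (G.coeff j) := by
      rw [map_mul]
      calc XX p (t + 1) * (Polynomial.aeval (XX p (t + 1)) F *
            Polynomial.aeval (XX p (t + 1)) G) * (QQ p N (t + 1))⁻¹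
          = XX p (t + 1) * ((Polynomial.aeval (XX p (t + 1)) F * (QQ p N (t + 1))⁻¹) *
            Polynomial.aeval (XX p (t + 1)) G) := by ring
        _ = _ := by
            rw [← h1, h2, Finset.sum_mul_sum, Finset.mul_sum]
            refine Finset.sum_congr rfl fun k _ => ?_
            rw [Finset.mul_sum]
            refine Finset.sum_congr rfl fun j _ => ?_
            ring
    unfold kap
    rw [h3, P_HLL.Dg_sum, Finset.mul_sum]
    refine Finset.sum_congr rfl fun k _ => ?_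
    rw [P_HLL.Dg_sum, Finset.mul_sum]
    refine Finset.sum_congr rfl fun j _ => ?_
    rw [P_HLL.Dg_C]
    ring
  have h4 : HasSum (fun t : ℕ => ∑ k ∈ range N, ∑ j ∈ range N,
      F.eval (p ^ (k + 1)) / pik p N k * (wt x (t + 1) * Dg w (XX p (t + 1) ^ (j + 1) *
        (PowerSeries.C (p ^ (k + 1)) - XX p (t + 1))⁻¹)) * G.coeff j) (LL w p x N F G) := by
    unfold LL
    refine hasSum_sum fun k _ => hasSum_sum fun j _ => ?_
    exact ((hASER w p x hp (k + 1) j (by omega)).mul_left _).mul_right _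
  exact h4.congr_fun key

end Pool.Agent.H410.FL
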