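import Pool.Agent.H410.FL.Stm

/-! Proof of `S_LI` (helper790): clear denominators in a rational relation. -/

namespace Pool.Agent.H410.FL

namespace P_LI

/-- A common denominator of finitely many rational numbers. -/
theorem clear (g : Fin 4 → ℚ) : ∃ (D : ℕ) (z : Fin 4 → ℤ), D ≠ 0 ∧ ∀ i, (z i : ℚ) = D * g i := by
  refine ⟨∏ i, (g i).den, fun i => (∏ j ∈ Finset.univ.erase i, ((g j).den : ℤ)) * (g i).num,
    Finset.prod_ne_zero_iff.mpr fun i _ => (g i).den_nz, fun i => ?_⟩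
  have h1 : (((g i).den : ℚ)) * g i = (g i).num := by
    rw [mul_comm]
    exact Rat.mul_den_eq_num (g i)
  rw [← Finset.prod_erase_mul Finset.univ _ (Finset.mem_univ i)]
  push_cast
  rw [mul_assoc, h1]

end P_LI

theorem t_LI (hSPL : S_SPL) (hFIN : S_FIN) : S_LI := by
  intro a ε δ hOK hSg
  rw [Fintype.linearIndependent_iff]
  intro g hg
  obtain ⟨D, z, hD, hz⟩ := P_LI.clear g
  have hDq : (D : ℚ) ≠ 0 := by exact_mod_cast hD
  have hzr : ∀ i, ((z i : ℤ) : ℝ) = (D : ℝ) * ((g i : ℚ) : ℝ) := by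
    intro i
    have h1 := congrArg (fun q : ℚ => (q : ℝ)) (hz i)
    push_cast at h1
    exact h1
  have h0 : ((z 0 : ℤ) : ℝ) + (z 1 : ℤ) * S1 a ε δ + (z 2 : ℤ) * S2 a ε δ + (z 3 : ℤ) * S3 a ε δ
      = 0 := by
    rw [hzr, hzr, hzr, hzr]
    have h1 : ((g 0 : ℚ) : ℝ) * 1 + ((g 1 : ℚ) : ℝ) * S1 a ε δ + ((g 2 : ℚ) : ℝ) * S2 a ε δ +
        ((g 3 : ℚ) : ℝ) * S3 a ε δ = 0 := by
      have h2 := hg
      rw [Fin.sum_univ_four] at h2
      simpa [Rat.smul_def] using h2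
    linear_combination (D : ℝ) * h1
  have hr0 : (![z 1, z 2, z 3] : Fin 3 → ℤ) = 0 := by
    by_contra hr
    refine hFIN a ε δ ![z 1, z 2, z 3] hOK hSg hr (-2 * z 0) ?_
    rw [hSPL a ε δ ![z 1, z 2, z 3] hOK hSg]
    have e0 : (![z 1, z 2, z 3] : Fin 3 → ℤ) 0 = z 1 := rfl
    have e1 : (![z 1, z 2, z 3] : Fin 3 → ℤ) 1 = z 2 := rfl
    have e2 : (![z 1, z 2, z 3] : Fin 3 → ℤ) 2 = z 3 := rfl
    rw [e0, e1, e2]
    push_cast
    linear_combination 2 * h0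
  have e1 : z 1 = 0 := congrFun hr0 0
  have e2 : z 2 = 0 := congrFun hr0 1
  have e3 : z 3 = 0 := congrFun hr0 2
  have e0 : z 0 = 0 := by
    rw [e1, e2, e3] at h0
    have : ((z 0 : ℤ) : ℝ) = 0 := by simpa using h0
    exact_mod_cast this
  have hz0 : ∀ i, z i = 0 := by
    intro i
    fin_cases i
    · exact e0
    · exact e1
    · exact e2
    · exact e3
  intro i
  have h3 := hz i
  rw [hz0 i, Int.cast_zero] at h3
  exact (mul_eq_zero.mp h3.symm).resolve_left hDq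

end Pool.Agent.H410.FL
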