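import Pool.Agent.H410.FL.Stm

/-!
The norm inequality (task FL NRM, helper870), adapted from `Pool/Agent/H410/FC/P_NRM.lean`.
-/

set_option autoImplicit false

namespace Pool.Agent.H410.FL

open Finset Polynomial
open Pool.Agent.H475.QZ (nu)
open Pool.Agent.H410.FC (OK U sD al be pp DK Cj Rl Tt xt XX QQ pik VV EE FF ea ww C3 BF rr)

namespace P_NRM

variable {a ε δ : ℤ}

theorem cyc_ne {y : ℝ} (hy : 1 < |y|) (d : ℕ) (hd : 1 ≤ d) :
    (Polynomial.cyclotomic d ℝ).eval y ≠ 0 := by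
  intro h
  obtain ⟨g, hg⟩ := Polynomial.cyclotomic.dvd_X_pow_sub_one d ℝ
  have h2 : y ^ d - 1 = 0 := by
    have h3 := congrArg (Polynomial.eval y) hg
    rw [eval_mul, h, zero_mul, eval_sub, eval_pow, eval_X, eval_one] at h3
    exact h3
  have h3 : |y| ^ d = 1 := by
    rw [← abs_pow]
    have h4 : y ^ d = 1 := by linarith
    rw [h4, abs_one]
  have h4 : 1 < |y| ^ d := one_lt_pow₀ hy (by omega)
  linarith

theorem DK_ne (h : OK a ε) (K : ℕ) : DK (pp a ε) K ≠ 0 := by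
  unfold DK
  rw [Finset.prod_ne_zero_iff]
  intro d hd
  rw [mem_Icc] at hd
  apply cyc_ne _ d (by omega)
  have := (Pool.Agent.H410.FC.Hpx_ok h).1
  linarith

theorem Dc_ne (hDLS : S_DLS) (h : OK a ε) (hδ : Sg ε δ) (J : ℤ) :
    Dc ε δ (al a ε) (be a ε) J ≠ 0 := by
  match J with
  | Int.ofNat j => exact (hDLS a ε δ h hδ j).1
  | Int.negSucc 0 => exact one_ne_zero
  | Int.negSucc (j + 1) => exact (hDLS a ε δ h hδ j).2.1

/-- scaling the rows and columns -/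
theorem det_scale (N : ℕ) (r c : Fin N → ℝ) (M : Matrix (Fin N) (Fin N) ℝ) :
    (Matrix.of fun k j => r k * (c j * M k j)).det = (∏ k, r k) * ((∏ j, c j) * M.det) := by
  have h1 := Matrix.det_mul_column r (Matrix.of fun k j => c j * M k j)
  have h2 := Matrix.det_mul_row c M
  simp only [Matrix.of_apply] at h1
  rw [h1, h2]

theorem sum_succ (n : ℕ) : ∑ k ∈ range (2 * n + 1), (k + 1) = (2 * n + 1) * (n + 1) := by
  induction n with
  | zero => rfl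
  | succ n ih =>
    have e : 2 * (n + 1) + 1 = 2 * n + 1 + 1 + 1 := by ring
    rw [e, Finset.sum_range_succ, Finset.sum_range_succ, ih]
    ring

theorem det_rev (w : Fin 3 → ℝ) (p x : ℝ) (n : ℕ) :
    |(Matrix.of fun k j : Fin (2 * n + 1) =>
      ac w p x ((k : ℕ) + 1) (-2 - (-(n : ℤ) + ((j : ℕ) : ℤ)))).det| =
      |(AM w p x (-((n + 2 : ℕ) : ℤ)) (2 * n + 1)).det| := by
  have h : (Matrix.of fun k j : Fin (2 * n + 1) =>
      ac w p x ((k : ℕ) + 1) (-2 - (-(n : ℤ) + ((j : ℕ) : ℤ)))) =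
      (AM w p x (-((n + 2 : ℕ) : ℤ)) (2 * n + 1)).submatrix id Fin.revPerm := by
    ext k j
    simp only [AM, Matrix.of_apply, Matrix.submatrix_apply, id, Fin.revPerm_apply, Fin.val_rev]
    congr 1
    have := j.2
    push_cast
    omega
  rw [h, Matrix.det_permute', abs_mul]
  have h1 : |(((Equiv.Perm.sign (Fin.revPerm : Equiv.Perm (Fin (2 * n + 1))) : ℤˣ) : ℤ) : ℝ)| = 1 := by
    rcases Int.units_eq_one_or (Equiv.Perm.sign (Fin.revPerm : Equiv.Perm (Fin (2 * n + 1))))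
      with h2 | h2
    · rw [h2]
      norm_num
    · rw [h2]
      norm_num
  rw [h1, one_mul]

theorem abs_row (n : ℕ) (f : ℕ → ℝ) (q : ℕ → ℝ) (hw : ∀ k, |f k| = |q k| ^ 3) :
    |∏ k : Fin (2 * n + 1), f k| = ∏ k ∈ range (2 * n + 1), |q k| ^ 3 := by
  rw [Finset.abs_prod, ← Finset.prod_range (fun k => |f k|)]
  exact Finset.prod_congr rfl fun k _ => hw k

end P_NRM

open P_NRM in
theorem t_NRM (hENT : S_ENT) (hCJ : Pool.Agent.H410.FC.S_CJ) (hDLS : S_DLS) : S_NRM := by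
  intro a ε δ r hOK hδ s hs n hdet
  obtain ⟨-, -, -, -, -, -, -, -, -, -, hCdet, -, hCnorm⟩ := hCJ a ε hOK
  obtain ⟨q, hq⟩ : ∃ q : ℕ → ℝ, ∀ k, q k = DK (pp a ε) (k + 1) ^ 3 :=
    ⟨_, fun _ => rfl⟩
  obtain ⟨q', hq'⟩ : ∃ q' : ℕ → ℝ, ∀ k, q' k = DK (pp a ε)⁻¹ (k + 1) ^ 3 :=
    ⟨_, fun _ => rfl⟩
  obtain ⟨c, hc⟩ : ∃ c : ℕ → ℝ, ∀ j : ℕ, c j = Dc ε δ (al a ε) (be a ε) (-(n : ℤ) + j) :=
    ⟨_, fun _ => rfl⟩
  obtain ⟨c', hc'⟩ : ∃ c' : ℕ → ℝ, ∀ j : ℕ, c' j = Dc ε δ (be a ε) (al a ε) (-(n : ℤ) + j) :=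
    ⟨_, fun _ => rfl⟩
  have key := hCdet (2 * n + 1)
    (Matrix.of fun k j => q k *
      (c j * AM (wr a ε r) (pp a ε) (xd a ε δ) (-(n : ℤ)) (2 * n + 1) k j))
    (Matrix.of fun k j => (q' k * (pp a ε ^ ((k : ℕ) + 1))) * (c' j *
      (Matrix.of fun k j : Fin (2 * n + 1) =>
        ac (wr a ε r) (pp a ε) (xd a ε δ) ((k : ℕ) + 1) (-2 - (-(n : ℤ) + ((j : ℕ) : ℤ)))) k j))
    (by
      intro k j
      have h1 := hENT a ε δ r hOK hδ s hs ((k : ℕ) + 1) (by omega) (-(n : ℤ) + ((j : ℕ) : ℤ))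
      simp only [Matrix.of_apply, AM]
      rw [hq, hq', hc, hc']
      have e1 : DK (pp a ε) ((k : ℕ) + 1) ^ 3 *
          (Dc ε δ (al a ε) (be a ε) (-(n : ℤ) + ((j : ℕ) : ℤ)) *
            ac (wr a ε r) (pp a ε) (xd a ε δ) ((k : ℕ) + 1) (-(n : ℤ) + ((j : ℕ) : ℤ))) =
          DK (pp a ε) ((k : ℕ) + 1) ^ 3 *
          Dc ε δ (al a ε) (be a ε) (-(n : ℤ) + ((j : ℕ) : ℤ)) *
            ac (wr a ε r) (pp a ε) (xd a ε δ) ((k : ℕ) + 1) (-(n : ℤ) + ((j : ℕ) : ℤ)) := by ring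
      have e2 : DK (pp a ε)⁻¹ ((k : ℕ) + 1) ^ 3 *
          (pp a ε ^ ((k : ℕ) + 1)) *
          (Dc ε δ (be a ε) (al a ε) (-(n : ℤ) + ((j : ℕ) : ℤ)) *
            ac (wr a ε r) (pp a ε) (xd a ε δ) ((k : ℕ) + 1) (-2 - (-(n : ℤ) + ((j : ℕ) : ℤ)))) =
          DK (pp a ε)⁻¹ ((k : ℕ) + 1) ^ 3 *
          Dc ε δ (be a ε) (al a ε) (-(n : ℤ) + ((j : ℕ) : ℤ)) *
            (pp a ε ^ ((k : ℕ) + 1) * ac (wr a ε r) (pp a ε) (xd a ε δ) ((k : ℕ) + 1)
              (-2 - (-(n : ℤ) + ((j : ℕ) : ℤ)))) := by ring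
      rw [e1, e2]
      exact h1)
  have hqn : ∀ k, q k ≠ 0 := by
    intro k
    rw [hq]
    exact pow_ne_zero _ (DK_ne hOK _)
  have hcn : ∀ j, c j ≠ 0 := by
    intro j
    rw [hc]
    exact Dc_ne hDLS hOK hδ _
  rw [det_scale (2 * n + 1) (fun k => q k) (fun j => c j)] at key
  rw [det_scale (2 * n + 1) (fun k => q' k * (pp a ε ^ ((k : ℕ) + 1))) (fun j => c' j)] at key
  have h1 := hCnorm _ _ key (mul_ne_zero (Finset.prod_ne_zero_iff.2 fun k _ => hqn k)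
    (mul_ne_zero (Finset.prod_ne_zero_iff.2 fun j _ => hcn j) hdet))
  have hrow : |∏ k : Fin (2 * n + 1), q k| =
      ∏ k ∈ range (2 * n + 1), |DK (pp a ε) (k + 1)| ^ 3 := by
    apply abs_row n q (fun k => DK (pp a ε) (k + 1))
    intro k
    rw [hq, abs_pow]
  have hrow' : |∏ k : Fin (2 * n + 1), q' k| =
      ∏ k ∈ range (2 * n + 1), |DK (pp a ε)⁻¹ (k + 1)| ^ 3 := by
    apply abs_row n q' (fun k => DK (pp a ε)⁻¹ (k + 1))
    intro k
    rw [hq', abs_pow]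
  have hcol : |∏ j : Fin (2 * n + 1), c j| =
      ∏ j ∈ range (2 * n + 1), |Dc ε δ (al a ε) (be a ε) (-(n : ℤ) + j)| := by
    rw [Finset.abs_prod, ← Finset.prod_range (fun k => |c k|)]
    exact Finset.prod_congr rfl fun k _ => by rw [hc]
  have hcol' : |∏ j : Fin (2 * n + 1), c' j| =
      ∏ j ∈ range (2 * n + 1), |Dc ε δ (be a ε) (al a ε) (-(n : ℤ) + j)| := by
    rw [Finset.abs_prod, ← Finset.prod_range (fun k => |c' k|)]
    exact Finset.prod_congr rfl fun k _ => by rw [hc']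
  have hpp : |∏ k : Fin (2 * n + 1), (pp a ε ^ ((k : ℕ) + 1))| =
      |pp a ε| ^ ((2 * n + 1) * (n + 1)) := by
    rw [Finset.abs_prod, ← Finset.prod_range (fun k => |pp a ε ^ (k + 1)|)]
    rw [Finset.prod_congr rfl fun k _ => abs_pow (pp a ε) (k + 1), Finset.prod_pow_eq_pow_sum,
      sum_succ]
  rw [Finset.prod_mul_distrib, abs_mul, abs_mul, abs_mul, abs_mul, abs_mul, abs_mul, hrow, hrow',
    hcol, hcol', hpp, det_rev] at h1
  unfold DD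
  refine h1.trans (le_of_eq ?_)
  ring

end Pool.Agent.H410.FL
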