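import Pool.Agent.H410.FL.Stm

/-!
Nonvanishing of infinitely many determinants (assembly of part E).
-/

namespace Pool.Agent.H410.FL

open Finset Polynomial
open Pool.Agent.H410.FC (OK U sD al be pp DK Cj Rl Tt xt XX QQ pik VV EE FF ea ww C3 BF rr)

namespace P_NV

theorem m0_lt_Tt (ε : ℤ) (m0 : ℕ) : m0 < Tt ε m0 := by
  unfold Tt
  split_ifs <;> omega

/-- The conclusion from the data of one residue field. -/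
theorem of_dat (hNV1 : S_NV1) (hNV3 : S_NV3) (hNV4 : S_NV4) {a ε δ : ℤ} {r : Fin 3 → ℤ}
    (h : OK a ε) (hδ : Sg ε δ) (hr : r ≠ 0) {s : ℤ} (hs : SH a ε δ r = s) {m0 : ℕ} (F : Type)
    (hF : Field F) (g : F) (hd : Dat a ε δ r m0 F g) :
    (AM (wr a ε r) (pp a ε) (xd a ε δ) (-((Tt ε m0 - 1 : ℕ) : ℤ))
      (2 * (Tt ε m0 - 1) + 1)).det ≠ 0 := by
  obtain ⟨-, -, hPT, -, -, -, -⟩ := hNV1 a ε δ r h hδ m0 F hF g hd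
  obtain ⟨h1, h2, h3, h4, h5, h6⟩ := hNV3 a ε δ r h hδ hr s hs m0 F hF g hd
  have h1' : ∀ (K : ℕ) (J : ℤ), ∃ f : F, 1 ≤ K → K < Tt ε m0 → (m0 : ℤ) - Tt ε m0 ≤ J → J < m0 →
      Rl a ε g (ac (wr a ε r) (pp a ε) (xd a ε δ) K J) f := by
    intro K J
    by_cases hc : 1 ≤ K ∧ K < Tt ε m0 ∧ (m0 : ℤ) - Tt ε m0 ≤ J ∧ J < m0
    · obtain ⟨f, hf⟩ := h1 K hc.1 hc.2.1 J hc.2.2.1 hc.2.2.2
      exact ⟨f, fun _ _ _ _ => hf⟩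
    · exact ⟨0, fun c1 c2 c3 c4 => absurd ⟨c1, c2, c3, c4⟩ hc⟩
  have h4' : ∀ K : ℕ, ∃ b : F, Tt ε m0 ≤ K → K < 2 * Tt ε m0 → b ≠ 0 ∧ ∀ J : ℤ,
      (m0 : ℤ) - Tt ε m0 ≤ J → J < m0 →
      Rl a ε g ((U a ε (Tt ε m0) : ℝ) ^ jt r * ac (wr a ε r) (pp a ε) (xd a ε δ) K J)
        (((ε : F) * g ^ 2) ^ ((K : ℤ) * (J + 1)) * b) := by
    intro K
    by_cases hc : Tt ε m0 ≤ K ∧ K < 2 * Tt ε m0
    · obtain ⟨b, hb⟩ := h4 K hc.1 hc.2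
      exact ⟨b, fun _ _ => hb⟩
    · exact ⟨0, fun c1 c2 => absurd ⟨c1, c2⟩ hc⟩
  choose f hf using h1'
  choose b hb using h4'
  have key := hNV4 a ε h F hF g hd.hg (Tt ε m0) m0 ((U a ε (Tt ε m0) : ℝ) ^ jt r)
    (cc (wr a ε r) (pp a ε) (xd a ε δ) m0)⁻¹
    (cc (wr a ε r) (pp a ε) (xd a ε δ) ((m0 : ℤ) - Tt ε m0))⁻¹
    ((ε : F) * g ^ 2) (fun K J => ac (wr a ε r) (pp a ε) (xd a ε δ) K J) (-1) 1 b f
    (by have := hd.hm0; omega) (m0_lt_Tt ε m0) hPT hd.hord (neg_ne_zero.2 one_ne_zero)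
    one_ne_zero
    (fun K hK hK' => (hb K hK hK').1)
    (fun K hK hK' J hJ hJ' => hf K J hK hK' hJ hJ')
    (fun K hK hK' J hJ hJ' => by
      have e := h2 K hK hK' J hJ hJ'
      rw [mul_neg_one]
      exact e)
    (fun K hK hK' J hJ hJ' => by
      have e := h3 K hK hK' J hJ hJ'
      rw [mul_one]
      exact e)
    (fun K hK hK' J hJ hJ' => (hb K hK hK').2 J hJ hJ')
    (fun K hK hK' J hJ hJ' => h5 K hK hK' J hJ hJ')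
    (fun K hK hK' J hJ hJ' => h6 K hK hK' J hJ hJ')
  exact key

end P_NV

theorem t_NV (hEX : S_EX) (hNV1 : S_NV1) (hNV3 : S_NV3) (hNV4 : S_NV4) : S_NV := by
  intro a ε δ r h hδ hr s hs B
  obtain ⟨m0, hB, F, hF, g, hd⟩ := hEX a ε δ r h hδ hr B
  have hT := P_NV.m0_lt_Tt ε m0
  exact ⟨Tt ε m0 - 1, by omega, P_NV.of_dat hNV1 hNV3 hNV4 h hδ hr hs F hF g hd⟩

end Pool.Agent.H410.FL
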