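import Pool.Agent.H410.FL.Stm

/-!
Reductions of the `c_m`, `U_l`, `V_T` (proof of `S_NV1` from `FC.S_RL`), helper894 for helper410.
-/

namespace Pool.Agent.H410.FL

open Pool.Agent.H410.FC (OK U sD al be pp DK Cj Rl Tt xt XX QQ pik VV EE FF ea ww C3 BF rr)

namespace P_NV1

open Finset

/-- The order argument: `P^m = P^m0`, `-T < m < T`, forces `m = m0` or `m = m0 - T`. -/
theorem ord_arg {F : Type} [Field F] (P : F) (T m0 : ℕ) (hT : 0 < T) (hP : P ≠ 0)
    (hPT : P ^ T = 1) (hord : ∀ k : ℕ, 0 < k → k < T → P ^ k ≠ 1) (hm0T : m0 < T)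
    (m : ℤ) (h1 : -(T : ℤ) < m) (h2 : m < T) (h3 : m ≠ m0) (h4 : m ≠ m0 - T) :
    P ^ m ≠ P ^ (m0 : ℤ) := by
  intro h
  have hTz : (0 : ℤ) < T := by exact_mod_cast hT
  have h5 : P ^ (m - m0) = 1 := by
    rw [zpow_sub₀ hP, h, div_self (zpow_ne_zero _ hP)]
  have hmod0 := Int.emod_nonneg (m - m0) hTz.ne'
  have hmodT := Int.emod_lt_of_pos (m - m0) hTz
  have hdiv := Int.emod_add_mul_ediv (m - m0) T
  obtain ⟨k, hk⟩ := Int.eq_ofNat_of_zero_le hmod0
  have h6 : P ^ (k : ℤ) = 1 := by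
    have e : P ^ (m - m0) = P ^ (k : ℤ) * (P ^ (T : ℤ)) ^ ((m - m0) / T) := by
      rw [← zpow_mul, ← zpow_add₀ hP, ← hk, hdiv]
    rw [zpow_natCast P T, hPT, one_zpow, mul_one, h5] at e
    exact e.symm
  rw [zpow_natCast] at h6
  rcases Nat.eq_zero_or_pos k with hk0 | hk0
  · subst hk0
    have h7 : (T : ℤ) * ((m - m0) / T) = m - m0 := by
      rw [hk] at hdiv
      simpa using hdiv
    generalize (m - (m0 : ℤ)) / (T : ℤ) = q at h7
    have hm0' : (m0 : ℤ) < T := by exact_mod_cast hm0T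
    have hm0n : (0 : ℤ) ≤ m0 := Int.natCast_nonneg m0
    have hq1 : q < 1 := by
      by_contra hc
      have : 1 ≤ q := by omega
      nlinarith
    have hq2 : -2 < q := by
      by_contra hc
      have : q ≤ -2 := by omega
      nlinarith
    have hq : q = 0 ∨ q = -1 := by omega
    rcases hq with hq | hq
    · rw [hq] at h7
      apply h3
      linarith
    · rw [hq] at h7
      apply h4
      linarith
  · refine hord k hk0 ?_ h6
    have : (k : ℤ) < T := by rw [hk] at hmodT; exact_mod_cast hmodT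
    exact_mod_cast this

/-- `V_n = α^n + β^n`. -/
theorem V_eq {a ε : ℤ} (h : OK a ε) (n : ℕ) : (V a ε n : ℝ) = al a ε ^ n + be a ε ^ n := by
  induction n using Nat.strong_induction_on with
  | _ n ih =>
    match n with
    | 0 => simp [V]; norm_num
    | 1 =>
      simp only [V, pow_one]
      exact FC.al_add_be.symm
    | (k + 2) =>
      have h1 := ih k (by omega)
      have h2 := ih (k + 1) (by omega)
      have h3 := FC.al_sq h
      have h4 := FC.be_sq h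
      simp only [V]
      push_cast
      rw [h1, h2]
      have e1 : al a ε ^ (k + 2) = al a ε ^ k * (a * al a ε - ε) := by
        rw [pow_add, h3]
      have e2 : be a ε ^ (k + 2) = be a ε ^ k * (a * be a ε - ε) := by
        rw [pow_add, h4]
      rw [e1, e2]
      ring

/-- `V_n² = D U_n² + 4 ε^n`. -/
theorem V_sq {a ε : ℤ} (h : OK a ε) (n : ℕ) :
    V a ε n ^ 2 = (a ^ 2 - 4 * ε) * U a ε n ^ 2 + 4 * ε ^ n := by
  have h1 := V_eq h n
  have h2 := FC.U_mul h n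
  have h3 := FC.al_mul_be h
  have h4 := FC.sD_sq h
  have h5 : al a ε ^ n * be a ε ^ n = (ε : ℝ) ^ n := by rw [← mul_pow, h3]
  have h6 : ((V a ε n : ℝ)) ^ 2 = ((a : ℝ) ^ 2 - 4 * ε) * (U a ε n : ℝ) ^ 2 + 4 * (ε : ℝ) ^ n := by
    have e1 : ((a : ℝ) ^ 2 - 4 * ε) * (U a ε n : ℝ) ^ 2 = ((U a ε n : ℝ) * sD a ε) ^ 2 := by
      rw [← h4]; ring
    rw [e1, h2, h1, ← h5]
    ring
  exact_mod_cast h6

end P_NV1

open P_NV1 in
theorem t_NV1 (hRL : Pool.Agent.H410.FC.S_RL) (hHPX : S_HPX) : S_NV1 := by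
  intro a ε δ r hOK hSg m0 F inst g D
  obtain ⟨hint, hal, hadd, hmul, hneg, hinv, hzpow, -, -, -⟩ := hRL a ε hOK F inst g D.hg
  have hone : Rl a ε g (1 : ℝ) (1 : F) := by
    have := hint 1
    simpa using this
  have hpow : ∀ (z : ℝ) (f : F), Rl a ε g z f → ∀ n : ℕ, Rl a ε g (z ^ n) (f ^ n) := by
    intro z f hz n
    induction n with
    | zero => simpa using hone
    | succ n ih =>
      rw [pow_succ, pow_succ]
      exact hmul _ _ _ _ ih hz
  have huniq : ∀ (z : ℝ) (f f' : F), Rl a ε g z f → Rl a ε g z f' → f = f' := by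
    intro z f f' h1 h2
    by_contra hne
    have h3 := hadd _ _ _ _ h1 (hneg _ _ h2)
    have h4 : f + -f' ≠ 0 := by
      intro h
      apply hne
      have : f = f + -f' + f' := by ring
      rw [this, h, zero_add]
    exact (hinv _ _ h3 h4).1 (by ring)
  -- reductions of `p` and `x`
  have hp : Rl a ε g (pp a ε) ((ε : F) * g ^ 2) := by
    unfold pp
    exact hmul _ _ _ _ (hint ε) (hpow _ _ hal 2)
  have hx : Rl a ε g (xd a ε δ) (-((δ : F) * g)) := by
    unfold xd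
    exact hneg _ _ (hmul _ _ _ _ (hint δ) hal)
  have hm0 := D.hm0
  have hw := D.hw
  have hord := D.hord
  -- the square root of the discriminant
  have hs : Rl a ε g (sD a ε) (2 * g - a) := by
    have h1 := hadd _ _ _ _ (hmul _ _ _ _ (hint 2) hal) (hneg _ _ (hint a))
    have e1 : ((2 : ℤ) : ℝ) * al a ε + -(a : ℝ) = sD a ε := by
      unfold al
      push_cast
      ring
    have e2 : ((2 : ℤ) : F) * g + -(a : F) = 2 * g - a := by
      push_cast
      ring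
    rw [e1, e2] at h1
    exact h1
  have hs0 : 2 * g - (a : F) ≠ 0 := by
    intro h
    apply D.hD
    have h1 : (2 * g - (a : F)) ^ 2 = 4 * g ^ 2 - 4 * (a * g) + a ^ 2 := by ring
    have h2 := D.hg
    have h3 : (((a ^ 2 - 4 * ε : ℤ)) : F) = (2 * g - (a : F)) ^ 2 := by
      rw [h1, h2]
      push_cast
      ring
    rw [h3, h]
    ring
  -- the field element `P`
  have hεF : (ε : F) * ε = 1 := by
    rcases FC.eps_cases hOK with h | h <;> subst h <;> simp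
  have hδF : (δ : F) * δ = 1 := by
    rcases hSg.1 with h | h <;> subst h <;> simp
  have hPodd : ((ε : F) * g ^ 2) ^ (2 * m0 + 1) = ε := by
    have h1 : ((δ : F) * g * ((ε : F) * g ^ 2) ^ m0) ^ 2 = 1 := by rw [hw, one_pow]
    have h2 : ((δ : F) * g * ((ε : F) * g ^ 2) ^ m0) ^ 2 =
        ((δ : F) * δ) * (g ^ 2 * (((ε : F) * g ^ 2) ^ m0) ^ 2) := by ring
    rw [h2, hδF, one_mul] at h1
    calc ((ε : F) * g ^ 2) ^ (2 * m0 + 1)
        = (ε : F) * (g ^ 2 * (((ε : F) * g ^ 2) ^ m0) ^ 2) := by ring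
      _ = (ε : F) := by rw [h1, mul_one]
  have hPT : ((ε : F) * g ^ 2) ^ Tt ε m0 = 1 := by
    unfold Tt
    split_ifs with h
    · rw [hPodd, h]
      simp
    · rw [Nat.mul_comm, pow_mul, hPodd, sq, hεF]
  have hTlt : m0 < Tt ε m0 := by
    unfold Tt
    split_ifs <;> omega
  have hTpos : 0 < Tt ε m0 := by omega
  have hP0 : ((ε : F) * g ^ 2) ≠ 0 := by
    intro h
    rw [h, zero_pow hTpos.ne'] at hPT
    exact zero_ne_one hPT
  have hzp : ∀ m : ℤ, Rl a ε g (pp a ε ^ m) (((ε : F) * g ^ 2) ^ m) :=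
    fun m => hzpow _ _ hp hP0 m
  have hden : ∀ m : ℤ, Rl a ε g (1 + xd a ε δ * pp a ε ^ m)
      (1 + -((δ : F) * g) * ((ε : F) * g ^ 2) ^ m) :=
    fun m => hadd _ _ _ _ hone (hmul _ _ _ _ hx (hzp m))
  have hδg : (δ : F) * g ≠ 0 := by
    intro h
    rw [h, zero_mul] at hw
    exact zero_ne_one hw
  have hg0 : g ≠ 0 := right_ne_zero_of_mul hδg
  have hε0 : (ε : F) ≠ 0 := by
    intro h
    rw [h, zero_mul] at hεF
    exact zero_ne_one hεF
  -- `P^l - 1 = (ε g)^l (2g - a) U_l`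
  have hPl : ∀ l : ℕ, ((ε : F) * g ^ 2) ^ l - 1 =
      ((ε : F) * g) ^ l * (2 * g - a) * ((U a ε l : ℤ) : F) := by
    intro l
    have h1 := hadd _ _ _ _ (hpow _ _ hp l) (hneg _ _ hone)
    have h2 := hmul _ _ _ _ (hmul _ _ _ _ (hpow _ _ (hmul _ _ _ _ (hint ε) hal) l) hs) (hint (U a ε l))
    have h3 := FC.pp_pow_sub hOK l
    have e1 : pp a ε ^ l + -1 = ((ε : ℝ) * al a ε) ^ l * sD a ε * ((U a ε l : ℤ) : ℝ) := by
      rw [← h3]; ring
    rw [e1] at h1
    have h4 := huniq _ _ _ h1 h2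
    rw [← h4]
    ring
  have hεg0 : ∀ l : ℕ, ((ε : F) * g) ^ l ≠ 0 := fun l => pow_ne_zero _ (mul_ne_zero hε0 hg0)
  have hUT : ((U a ε (Tt ε m0) : ℤ) : F) = 0 := by
    have h1 := hPl (Tt ε m0)
    rw [hPT, sub_self] at h1
    rcases mul_eq_zero.1 h1.symm with h | h
    · rcases mul_eq_zero.1 h with h' | h'
      · exact absurd h' (hεg0 _)
      · exact absurd h' hs0
    · exact h
  refine ⟨hp, hP0, hPT, ?_, ?_, ?_, ?_⟩
  · -- `c_m`
    intro m h1 h2 h3 h4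
    have h5 := ord_arg ((ε : F) * g ^ 2) (Tt ε m0) m0 hTpos hP0 hPT hord hTlt m h1 h2 h3 h4
    have h6 : 1 + -((δ : F) * g) * ((ε : F) * g ^ 2) ^ m ≠ 0 := by
      intro h
      apply h5
      have h7 : (δ : F) * g * ((ε : F) * g ^ 2) ^ m = 1 := by
        have : (δ : F) * g * ((ε : F) * g ^ 2) ^ m =
          1 - (1 + -((δ : F) * g) * ((ε : F) * g ^ 2) ^ m) := by ring
        rw [this, h, sub_zero]
      have h8 : (δ : F) * g * ((ε : F) * g ^ 2) ^ (m0 : ℤ) = 1 := by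
        rw [zpow_natCast]
        exact hw
      exact mul_left_cancel₀ hδg (h7.trans h8.symm)
    obtain ⟨h7, h8⟩ := hinv _ _ (hden m) h6
    have hR : ∀ z : ℤ, Rl a ε g (z : ℝ) (z : F) := hint
    obtain ⟨f0, hf0⟩ : ∃ f : F, Rl a ε g (wr a ε r 0) f := by
      refine ⟨((2 : ℤ) : F) * ((r 0 : ℤ) : F) * (2 * g - a) +
        ((2 : ℤ) : F) * (2 * g - a) ^ 2 * ((r 1 : ℤ) : F), ?_⟩
      have h := hadd _ _ _ _ (hmul _ _ _ _ (hmul _ _ _ _ (hint 2) (hint (r 0))) hs)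
        (hmul _ _ _ _ (hmul _ _ _ _ (hint 2) (hpow _ _ hs 2)) (hint (r 1)))
      simpa [wr] using h
    obtain ⟨f1, hf1⟩ : ∃ f : F, Rl a ε g (wr a ε r 1) f := by
      refine ⟨((4 : ℤ) : F) * (2 * g - a) ^ 2 * ((r 1 : ℤ) : F) +
        (2 * g - a) ^ 3 * ((r 2 : ℤ) : F), ?_⟩
      have h := hadd _ _ _ _ (hmul _ _ _ _ (hmul _ _ _ _ (hint 4) (hpow _ _ hs 2)) (hint (r 1)))
        (hmul _ _ _ _ (hpow _ _ hs 3) (hint (r 2)))
      simpa [wr] using h
    obtain ⟨f2, hf2⟩ : ∃ f : F, Rl a ε g (wr a ε r 2) f := by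
      refine ⟨(2 * g - a) ^ 3 * ((r 2 : ℤ) : F), ?_⟩
      have h := hmul _ _ _ _ (hpow _ _ hs 3) (hint (r 2))
      simpa [wr] using h
    refine ⟨(f0 + f1 * m + f2 * (m : F) ^ 2) * (1 + -((δ : F) * g) * ((ε : F) * g ^ 2) ^ m)⁻¹, ?_⟩
    unfold cc Wt
    rw [div_eq_mul_inv]
    exact hmul _ _ _ _ (hadd _ _ _ _ (hadd _ _ _ _ hf0 (hmul _ _ _ _ hf1 (hint m)))
      (hmul _ _ _ _ hf2 (hpow _ _ (hint m) 2))) h8
  · -- `U_l`
    intro l h1 h2 h3
    refine ⟨((U a ε l : ℤ) : F), ?_, hint _⟩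
    intro h
    have h4 := hPl l
    rw [h, mul_zero, sub_eq_zero] at h4
    rcases lt_or_gt_of_ne h3 with h5 | h5
    · exact hord l (by omega) h5 h4
    · have h6 : ((ε : F) * g ^ 2) ^ (l - Tt ε m0) = 1 := by
        have e : ((ε : F) * g ^ 2) ^ l = ((ε : F) * g ^ 2) ^ (l - Tt ε m0) *
            ((ε : F) * g ^ 2) ^ Tt ε m0 := by
          rw [← pow_add]
          congr 1
          omega
        rw [hPT, mul_one] at e
        rw [← e]
        exact h4
      exact hord (l - Tt ε m0) (by omega) (by omega) h6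
  · -- `U_T`
    have h := hint (U a ε (Tt ε m0))
    rw [hUT] at h
    exact h
  · -- `V_T`
    refine ⟨((V a ε (Tt ε m0) : ℤ) : F), ?_, hint _⟩
    intro h
    have h1 := V_sq hOK (Tt ε m0)
    have h2 : (((V a ε (Tt ε m0) : ℤ)) : F) ^ 2 = (((a ^ 2 - 4 * ε : ℤ)) : F) *
        ((U a ε (Tt ε m0) : ℤ) : F) ^ 2 + 4 * (ε : F) ^ Tt ε m0 := by
      have := congrArg (fun z : ℤ => (z : F)) h1
      push_cast at this ⊢
      exact this
    rw [h, hUT] at h2
    have h3 : (4 : F) * (ε : F) ^ Tt ε m0 = 0 := by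
      have e : (0 : F) ^ 2 = (((a ^ 2 - 4 * ε : ℤ)) : F) * (0 : F) ^ 2 + 4 * (ε : F) ^ Tt ε m0 := h2
      rw [zero_pow (by norm_num), mul_zero, zero_add] at e
      exact e.symm
    rcases mul_eq_zero.1 h3 with h4 | h4
    · have h5 : (2 : F) * 2 = 0 := by
        rw [← h4]; norm_num
      exact (mul_ne_zero D.h2 D.h2) h5
    · exact (pow_ne_zero _ hε0) h4

end Pool.Agent.H410.FL
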