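import Pool.Agent.H410.FL.Stm

/-!
# Reductions of the numbers `a(K,-1)` (task NV2 of project FL, helper253)
-/

namespace Pool.Agent.H410.FL

open Finset Polynomial
open Pool.Agent.H410.FC (OK U sD al be pp Rl Tt)

namespace P_NV2

theorem T_pos {ε : ℤ} {m0 : ℕ} : 1 ≤ Tt ε m0 := by
  unfold Tt
  split_ifs <;> omega

theorem hl_eq (a ε δ : ℤ) (r : Fin 3 → ℤ) (l : ℕ) : hl a ε δ r l =
    2 * ((r 0 : ℝ) * ((δ : ℝ) ^ l * (U a ε l : ℝ)⁻¹) +
    (r 1 : ℝ) * ((δ : ℝ) ^ l * (V a ε l : ℝ) * ((U a ε l : ℝ)⁻¹) ^ 2) +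
    (r 2 : ℝ) * (((δ : ℝ) * ε) ^ l * ((U a ε l : ℝ)⁻¹) ^ 3)) := by
  unfold hl
  simp only [div_eq_mul_inv, inv_pow]

end P_NV2

open P_NV2

theorem t_NV2 (hRL : Pool.Agent.H410.FC.S_RL) (hCF : S_CF) (hNV1 : S_NV1) : S_NV2 := by
  intro a ε δ r h hSg hr s hS m0 F _ g D
  obtain ⟨rI, rA, rAdd, rMul, rNeg, rInv, rZ, rSum, rProd, rDet⟩ := hRL a ε h F _ g D.hg
  obtain ⟨n1, n2, n3, n3', n4, n5', v, hv0, hv⟩ := hNV1 a ε δ r h hSg m0 F _ g D
  have hT : 1 ≤ Tt ε m0 := T_pos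
  -- elementary rules
  have r1 : Rl a ε g 1 1 := by
    have := rI 1
    simpa using this
  have r2 : Rl a ε g 2 2 := by
    have := rI 2
    simpa using this
  have rPow : ∀ z f, Rl a ε g z f → ∀ n : ℕ, Rl a ε g (z ^ n) (f ^ n) := by
    intro z f hz n
    induction n with
    | zero => simpa using r1
    | succ n ih =>
      rw [pow_succ, pow_succ]
      exact rMul _ _ _ _ ih hz
  have rSub : ∀ z w f k, Rl a ε g z f → Rl a ε g w k → Rl a ε g (z - w) (f - k) := by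
    intro z w f k hz hw
    rw [sub_eq_add_neg, sub_eq_add_neg]
    exact rAdd _ _ _ _ hz (rNeg _ _ hw)
  have rZero : ∀ f, Rl a ε g 0 f → f = 0 := by
    intro f hf
    by_contra hne
    exact (rInv _ _ hf hne).1 rfl
  -- constants of the field
  have hg0 : g ≠ 0 := by
    intro h0
    have := D.hw
    rw [h0] at this
    simp at this
  have hm0 : m0 ≠ 0 := by
    have := D.hm0
    omega
  have he0 : (ε : F) ≠ 0 := by
    intro h0
    have := D.hw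
    rw [h0, zero_mul, zero_pow hm0, mul_zero] at this
    exact zero_ne_one this
  have hd0 : (δ : F) ≠ 0 := by
    intro h0
    have := D.hw
    rw [h0, zero_mul, zero_mul] at this
    exact zero_ne_one this
  have hag : (a : F) - g ≠ 0 := by
    intro h0
    apply he0
    have h1 := D.hg
    have h2 : (a : F) = g := sub_eq_zero.1 h0
    rw [h2] at h1
    linear_combination h1
  have hbe : Rl a ε g (be a ε) ((a : F) - g) := by
    have h1 : be a ε = (a : ℝ) - al a ε := by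
      have := Pool.Agent.H410.FC.al_add_be (a := a) (ε := ε)
      linarith
    rw [h1]
    exact rSub _ _ _ _ (rI a) rA
  have hpre : ∀ K : ℕ, Rl a ε g (((δ : ℝ) * be a ε) ^ K) (((δ : F) * ((a : F) - g)) ^ K) :=
    fun K => rPow _ _ (rMul _ _ _ _ (rI δ) hbe) K
  -- the numbers `U_l`, `h_l`
  have hU0 : ∀ l : ℕ, 1 ≤ l → l < 2 * Tt ε m0 → l ≠ Tt ε m0 → ((U a ε l : ℤ) : F) ≠ 0 := by
    intro l h1 h2 h3
    obtain ⟨f, hf0, hf⟩ := n4 l h1 h2 h3
    have h4 := rSub _ _ _ _ hf (rI (U a ε l))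
    rw [sub_self] at h4
    rw [← sub_eq_zero.1 (rZero _ h4)]
    exact hf0
  have hhl : ∀ l : ℕ, 1 ≤ l → l < 2 * Tt ε m0 → l ≠ Tt ε m0 →
      Rl a ε g (hl a ε δ r l) (2 * (((r 0 : ℤ) : F) * ((δ : F) ^ l * ((U a ε l : ℤ) : F)⁻¹) +
        ((r 1 : ℤ) : F) * ((δ : F) ^ l * ((V a ε l : ℤ) : F) * (((U a ε l : ℤ) : F)⁻¹) ^ 2) +
        ((r 2 : ℤ) : F) * (((δ : F) * (ε : F)) ^ l * (((U a ε l : ℤ) : F)⁻¹) ^ 3))) := by
    intro l h1 h2 h3
    have hu := (rInv _ _ (rI (U a ε l)) (hU0 l h1 h2 h3)).2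
    have hd := rPow _ _ (rI δ) l
    rw [hl_eq]
    refine rMul _ _ _ _ r2 (rAdd _ _ _ _ (rAdd _ _ _ _ (rMul _ _ _ _ (rI (r 0))
      (rMul _ _ _ _ hd hu)) (rMul _ _ _ _ (rI (r 1)) (rMul _ _ _ _ (rMul _ _ _ _ hd
      (rI (V a ε l))) (rPow _ _ hu 2)))) (rMul _ _ _ _ (rI (r 2)) (rMul _ _ _ _ ?_
      (rPow _ _ hu 3))))
    exact rPow _ _ (rMul _ _ _ _ (rI δ) (rI ε)) l
  constructor
  · intro K hK1 hK2
    rw [hCF a ε δ r h hSg K hK1, hS]
    have h1 : Rl a ε g (∑ l ∈ Icc 1 K, hl a ε δ r l) (∑ l ∈ Icc 1 K,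
        (2 * (((r 0 : ℤ) : F) * ((δ : F) ^ l * ((U a ε l : ℤ) : F)⁻¹) +
        ((r 1 : ℤ) : F) * ((δ : F) ^ l * ((V a ε l : ℤ) : F) * (((U a ε l : ℤ) : F)⁻¹) ^ 2) +
        ((r 2 : ℤ) : F) * (((δ : F) * (ε : F)) ^ l * (((U a ε l : ℤ) : F)⁻¹) ^ 3)))) := by
      refine rSum ℕ _ _ _ fun l hl => ?_
      rw [mem_Icc] at hl
      exact hhl l hl.1 (by omega) (by omega)
    exact ⟨_, rNeg _ _ (rMul _ _ _ _ (hpre K) (rSub _ _ _ _ (rI s) h1))⟩
  · intro K hK1 hK2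
    rw [hCF a ε δ r h hSg K (by omega), hS]
    have hUT0 : (U a ε (Tt ε m0) : ℝ) ≠ 0 := (Pool.Agent.H410.FC.U_pos h _ hT).ne'
    have hj : jt r ≠ 0 := by
      unfold jt
      split_ifs <;> omega
    have hUj : Rl a ε g ((U a ε (Tt ε m0) : ℝ) ^ jt r) 0 := by
      have h1 := rPow _ _ n5' (jt r)
      rwa [zero_pow hj] at h1
    -- the term `h_T`
    have hdT : Rl a ε g ((δ : ℝ) ^ Tt ε m0) ((δ : F) ^ Tt ε m0) := rPow _ _ (rI δ) _
    have hdT0 : (δ : F) ^ Tt ε m0 ≠ 0 := pow_ne_zero _ hd0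
    obtain ⟨c, hc0, hc⟩ : ∃ c : F, c ≠ 0 ∧
        Rl a ε g ((U a ε (Tt ε m0) : ℝ) ^ jt r * hl a ε δ r (Tt ε m0)) c := by
      by_cases hr2 : r 2 = 0
      · by_cases hr1 : r 1 = 0
        · have hr0 : r 0 ≠ 0 := by
            intro hr0
            apply hr
            funext i
            fin_cases i
            · exact hr0
            · exact hr1
            · exact hr2
          have hj1 : jt r = 1 := by
            unfold jt
            rw [if_neg (not_not.2 hr2), if_neg (not_not.2 hr1)]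
          refine ⟨2 * (((r 0 : ℤ) : F) * (δ : F) ^ Tt ε m0),
            mul_ne_zero D.h2 (mul_ne_zero (D.hr 0 hr0) hdT0), ?_⟩
          have e1 : (U a ε (Tt ε m0) : ℝ) ^ jt r * hl a ε δ r (Tt ε m0) =
              2 * ((r 0 : ℝ) * (δ : ℝ) ^ Tt ε m0) := by
            rw [hj1]
            unfold hl
            rw [hr1, hr2]
            push_cast
            field_simp
            ring
          rw [e1]
          exact rMul _ _ _ _ r2 (rMul _ _ _ _ (rI (r 0)) hdT)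
        · have hj1 : jt r = 2 := by
            unfold jt
            rw [if_neg (not_not.2 hr2), if_pos hr1]
          refine ⟨2 * (((r 0 : ℤ) : F) * (δ : F) ^ Tt ε m0 * 0 +
            ((r 1 : ℤ) : F) * ((δ : F) ^ Tt ε m0 * v)), ?_, ?_⟩
          · rw [mul_zero, zero_add]
            exact mul_ne_zero D.h2 (mul_ne_zero (D.hr 1 hr1) (mul_ne_zero hdT0 hv0))
          · have e1 : (U a ε (Tt ε m0) : ℝ) ^ jt r * hl a ε δ r (Tt ε m0) =
                2 * ((r 0 : ℝ) * (δ : ℝ) ^ Tt ε m0 * (U a ε (Tt ε m0) : ℝ) +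
                (r 1 : ℝ) * ((δ : ℝ) ^ Tt ε m0 * (V a ε (Tt ε m0) : ℝ))) := by
              rw [hj1]
              unfold hl
              rw [hr2]
              push_cast
              field_simp
              ring
            rw [e1]
            exact rMul _ _ _ _ r2 (rAdd _ _ _ _ (rMul _ _ _ _ (rMul _ _ _ _ (rI (r 0)) hdT) n5')
              (rMul _ _ _ _ (rI (r 1)) (rMul _ _ _ _ hdT hv)))
      · have hj1 : jt r = 3 := by
          unfold jt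
          rw [if_pos hr2]
        have hde : Rl a ε g (((δ : ℝ) * ε) ^ Tt ε m0) (((δ : F) * (ε : F)) ^ Tt ε m0) :=
          rPow _ _ (rMul _ _ _ _ (rI δ) (rI ε)) _
        refine ⟨2 * (((r 0 : ℤ) : F) * (δ : F) ^ Tt ε m0 * 0 ^ 2 +
          ((r 1 : ℤ) : F) * ((δ : F) ^ Tt ε m0 * v) * 0 +
          ((r 2 : ℤ) : F) * ((δ : F) * (ε : F)) ^ Tt ε m0), ?_, ?_⟩
        · rw [zero_pow two_ne_zero, mul_zero, mul_zero, zero_add, zero_add]
          exact mul_ne_zero D.h2 (mul_ne_zero (D.hr 2 hr2) (pow_ne_zero _ (mul_ne_zero hd0 he0)))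
        · have e1 : (U a ε (Tt ε m0) : ℝ) ^ jt r * hl a ε δ r (Tt ε m0) =
              2 * ((r 0 : ℝ) * (δ : ℝ) ^ Tt ε m0 * (U a ε (Tt ε m0) : ℝ) ^ 2 +
              (r 1 : ℝ) * ((δ : ℝ) ^ Tt ε m0 * (V a ε (Tt ε m0) : ℝ)) * (U a ε (Tt ε m0) : ℝ) +
              (r 2 : ℝ) * ((δ : ℝ) * ε) ^ Tt ε m0) := by
            rw [hj1]
            unfold hl
            field_simp
          rw [e1]
          exact rMul _ _ _ _ r2 (rAdd _ _ _ _ (rAdd _ _ _ _ (rMul _ _ _ _ (rMul _ _ _ _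
            (rI (r 0)) hdT) (rPow _ _ n5' 2)) (rMul _ _ _ _ (rMul _ _ _ _ (rI (r 1))
            (rMul _ _ _ _ hdT hv)) n5')) (rMul _ _ _ _ (rI (r 2)) hde))
    -- the sum
    have h1 : Rl a ε g (∑ l ∈ Icc 1 K, (U a ε (Tt ε m0) : ℝ) ^ jt r * hl a ε δ r l)
        (∑ l ∈ Icc 1 K, if l = Tt ε m0 then c else 0) := by
      refine rSum ℕ _ _ _ fun l hl => ?_
      rw [mem_Icc] at hl
      by_cases hlT : l = Tt ε m0
      · rw [if_pos hlT, hlT]
        exact hc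
      · rw [if_neg hlT]
        have h2 := rMul _ _ _ _ hUj (hhl l hl.1 (by omega) hlT)
        rwa [zero_mul] at h2
    rw [sum_ite_eq' (Icc 1 K) (Tt ε m0) (fun _ => c), if_pos (mem_Icc.2 ⟨hT, hK1⟩)] at h1
    have h2 : Rl a ε g ((U a ε (Tt ε m0) : ℝ) ^ jt r * (s : ℝ)) 0 := by
      have h3 := rMul _ _ _ _ hUj (rI s)
      rwa [zero_mul] at h3
    refine ⟨-(((δ : F) * ((a : F) - g)) ^ K * (0 - c)), ?_, ?_⟩
    · rw [zero_sub]
      exact neg_ne_zero.2 (mul_ne_zero (pow_ne_zero _ (mul_ne_zero hd0 hag)) (neg_ne_zero.2 hc0))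
    · have h5 : (U a ε (Tt ε m0) : ℝ) ^ jt r *
          -(((δ : ℝ) * be a ε) ^ K * ((s : ℝ) - ∑ l ∈ Icc 1 K, hl a ε δ r l)) =
          -(((δ : ℝ) * be a ε) ^ K * ((U a ε (Tt ε m0) : ℝ) ^ jt r * (s : ℝ) -
            ∑ l ∈ Icc 1 K, (U a ε (Tt ε m0) : ℝ) ^ jt r * hl a ε δ r l)) := by
        rw [← mul_sum]
        ring
      rw [h5]
      exact rNeg _ _ (rMul _ _ _ _ (hpre K) (rSub _ _ _ _ h2 h1))

end Pool.Agent.H410.FL
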