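import Pool.Agent.H410.FL.Stm

/-!
Choice of the prime (`S_PRM`).
-/

namespace Pool.Agent.H410.FL

namespace P_PRM

open Filter Polynomial

/-- a polynomial grows slower than `2 ^ m` -/
theorem growth (Q : ℤ[X]) : ∃ M : ℕ, ∀ m : ℕ, M ≤ m → |Q.eval (m : ℤ)| < 2 ^ m := by
  have h1 : (fun m : ℕ => (Q.map (Int.castRingHom ℝ)).eval (m : ℝ)) =o[atTop]
      fun m : ℕ => (2 : ℝ) ^ m := by
    simp only [Polynomial.eval_eq_sum_range]
    have h0 : ∀ i ∈ Finset.range ((Q.map (Int.castRingHom ℝ)).natDegree + 1),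
        (fun m : ℕ => (Q.map (Int.castRingHom ℝ)).coeff i * (m : ℝ) ^ i) =o[atTop]
          fun m : ℕ => (2 : ℝ) ^ m := by
      intro i _
      exact (isLittleO_pow_const_const_pow_of_one_lt (R := ℝ) (r := 2) i
        (by norm_num)).const_mul_left ((Q.map (Int.castRingHom ℝ)).coeff i)
    exact Asymptotics.IsLittleO.fun_sum h0
  have h2 := h1.bound (show (0 : ℝ) < 1 / 2 by norm_num)
  obtain ⟨M, hM⟩ := Filter.eventually_atTop.1 h2
  refine ⟨M, fun m hm => ?_⟩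
  have h3 := hM m hm
  have h4 : (Q.map (Int.castRingHom ℝ)).eval (m : ℝ) = ((Q.eval (m : ℤ) : ℤ) : ℝ) := by
    simp
  rw [h4, Real.norm_eq_abs, Real.norm_eq_abs, abs_of_pos (show (0 : ℝ) < 2 ^ m by positivity)]
    at h3
  have h5 : (0 : ℝ) < 2 ^ m := by positivity
  have h6 : ((|Q.eval (m : ℤ)| : ℤ) : ℝ) < ((2 ^ m : ℤ) : ℝ) := by
    push_cast
    linarith
  exact_mod_cast h6

/-- a nonzero polynomial has no large roots -/
theorem noroot (P : ℤ[X]) (hP : P ≠ 0) : ∃ M : ℕ, ∀ z : ℤ, (M : ℤ) ≤ z → P.eval z ≠ 0 := by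
  refine ⟨(∑ z ∈ P.roots.toFinset, z.natAbs) + 1, fun z hz h0 => ?_⟩
  have h1 : z ∈ P.roots.toFinset := by
    rw [Multiset.mem_toFinset, Polynomial.mem_roots hP]
    exact h0
  have h2 : z.natAbs ≤ ∑ z ∈ P.roots.toFinset, z.natAbs :=
    Finset.single_le_sum (f := fun z : ℤ => z.natAbs) (fun _ _ => Nat.zero_le _) h1
  push_cast at hz
  have h3 : (z.natAbs : ℤ) ≤ ((∑ z ∈ P.roots.toFinset, z.natAbs : ℕ) : ℤ) := by exact_mod_cast h2
  push_cast at h3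
  have h4 : z ≤ |z| := le_abs_self z
  linarith

/-- the polynomial `R` -/
noncomputable def R (D : ℤ) (r : Fin 3 → ℤ) : ℤ[X] :=
  (C (2 * D * r 1) * (2 * X + 1)) ^ 2 - C D * (C (2 * r 0) + C (D * r 2) * (X * (X + 1))) ^ 2

theorem R_eval (D : ℤ) (r : Fin 3 → ℤ) (z : ℤ) : (R D r).eval z =
    (2 * D * r 1 * (2 * z + 1)) ^ 2 - D * (2 * r 0 + D * r 2 * (z * (z + 1))) ^ 2 := by
  simp [R]

theorem R_ne (D : ℤ) (r : Fin 3 → ℤ) (hD : 5 ≤ D) (hr : r ≠ 0) : R D r ≠ 0 := by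
  intro h0
  apply hr
  have hev : ∀ z : ℤ, (2 * D * r 1 * (2 * z + 1)) ^ 2 -
      D * (2 * r 0 + D * r 2 * (z * (z + 1))) ^ 2 = 0 := by
    intro z
    rw [← R_eval, h0, Polynomial.eval_zero]
  have hD0 : D ≠ 0 := by omega
  have e0 := hev 0
  have e1 := hev 1
  have e2 := hev 2
  have f0 : 4 * D * r 1 ^ 2 = (2 * r 0) ^ 2 := by
    apply mul_left_cancel₀ hD0
    linarith
  have f1 : 9 * (4 * D * r 1 ^ 2) = (2 * r 0 + 2 * (D * r 2)) ^ 2 := by
    apply mul_left_cancel₀ hD0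
    linarith
  have f2 : 25 * (4 * D * r 1 ^ 2) = (2 * r 0 + 6 * (D * r 2)) ^ 2 := by
    apply mul_left_cancel₀ hD0
    linarith
  rw [f0] at f1 f2
  have g1 : (2 * (D * r 2) - 2 * (2 * r 0)) * (2 * (D * r 2) + 4 * (2 * r 0)) = 0 := by
    linarith
  have g2 : (6 * (D * r 2) - 4 * (2 * r 0)) * (6 * (D * r 2) + 6 * (2 * r 0)) = 0 := by
    linarith
  have hA : r 0 = 0 ∧ D * r 2 = 0 := by
    rcases mul_eq_zero.1 g1 with h1 | h1 <;> rcases mul_eq_zero.1 g2 with h2 | h2 <;>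
      exact ⟨by linarith, by linarith⟩
  obtain ⟨hr0, hr2⟩ := hA
  have hr2' : r 2 = 0 := (mul_eq_zero.1 hr2).resolve_left hD0
  rw [hr0] at f0
  have hr1 : r 1 = 0 := by
    have h1 : 4 * D * r 1 ^ 2 = 0 := by rw [f0]; norm_num
    rcases mul_eq_zero.1 h1 with h2 | h2
    · exfalso
      omega
    · exact pow_eq_zero_iff (by norm_num) |>.1 h2
  funext i
  fin_cases i
  · exact hr0
  · exact hr1
  · exact hr2'

end P_PRM

open P_PRM Polynomial in
/-- Choice of the prime. -/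
theorem t_PRM : S_PRM := by
  intro D r hD hr
  obtain ⟨M1, hM1⟩ := noroot (R D r) (R_ne D r hD hr)
  obtain ⟨M2, hM2⟩ := growth (R D r * (R D r).comp (3 * X + 1))
  refine ⟨max M1 M2, fun m hm W hW => ?_⟩
  have hm1 : M1 ≤ m := le_trans (le_max_left _ _) hm
  have hm2 : M2 ≤ m := le_trans (le_max_right _ _) hm
  have h1 : (R D r).eval (m : ℤ) ≠ 0 := hM1 _ (by exact_mod_cast hm1)
  have h2 : (R D r).eval (3 * (m : ℤ) + 1) ≠ 0 := by
    apply hM1
    have : (M1 : ℤ) ≤ m := by exact_mod_cast hm1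
    have h0 : (0 : ℤ) ≤ m := by positivity
    linarith
  have h3 := hM2 m hm2
  have h4 : (R D r * (R D r).comp (3 * X + 1)).eval (m : ℤ) =
      (R D r).eval (m : ℤ) * (R D r).eval (3 * (m : ℤ) + 1) := by
    rw [Polynomial.eval_mul, Polynomial.eval_comp]
    simp
  rw [h4] at h3
  rw [← R_eval, ← R_eval]
  set z : ℤ := (R D r).eval (m : ℤ) * (R D r).eval (3 * (m : ℤ) + 1) with hz
  have hz0 : z ≠ 0 := mul_ne_zero h1 h2
  have h5 : z.natAbs < W := by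
    have h6 : ((z.natAbs : ℕ) : ℤ) < ((2 ^ m : ℕ) : ℤ) := by
      push_cast
      exact h3
    have h7 : z.natAbs < 2 ^ m := by exact_mod_cast h6
    omega
  have h6 : ¬ W ∣ z.natAbs := by
    intro h7
    have h8 := Nat.le_of_dvd (Int.natAbs_pos.2 hz0) h7
    omega
  rw [Nat.dvd_iff_prime_pow_dvd_dvd] at h6
  push Not at h6
  obtain ⟨q, k, hq, hk1, hk2⟩ := h6
  obtain ⟨j, rfl⟩ : ∃ j, k = j + 1 := by
    rcases Nat.eq_zero_or_pos k with h0 | h0
    · exfalso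
      apply hk2
      rw [h0, pow_zero]
      exact one_dvd _
    · exact ⟨k - 1, by omega⟩
  refine ⟨q, j, hq, hk1, fun h7 => hk2 ?_⟩
  have h8 : ((q ^ (j + 1) : ℕ) : ℤ) ∣ z := by
    push_cast
    exact h7
  exact Int.natCast_dvd.1 h8

end Pool.Agent.H410.FL
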