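import Pool.Agent.H410.FL.Stm

/-!
# Part REC of project FL (helper233, for helper410; after FC.P_REC by helper800)
-/

set_option autoImplicit false

namespace Pool.Agent.H410.FL

theorem t_REC (hSUM : S_SUM) : S_REC := by
  intro w p x hp K hK J
  have hp0 : p ≠ 0 := by
    intro h
    have h1 := hp.1
    rw [h, abs_zero] at h1
    linarith
  have hpK : p ^ K ≠ 0 := pow_ne_zero _ hp0
  have hs := hSUM w p x hp K hK J
  have h1 := hs.tsum_eq_zero_add
  have h2 : ∀ e : ℕ, (p ^ (K * (e + 1 + 1)))⁻¹ * cc w p x (((e + 1 : ℕ) : ℤ) + 1 + J) =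
      (p ^ K)⁻¹ * ((p ^ (K * (e + 1)))⁻¹ * cc w p x ((e : ℤ) + 1 + (J + 1))) := by
    intro e
    have e1 : ((e + 1 : ℕ) : ℤ) + 1 + J = (e : ℤ) + 1 + (J + 1) := by
      push_cast
      ring
    rw [e1, show K * (e + 1 + 1) = K + K * (e + 1) by ring, pow_add, mul_inv]
    ring
  simp only [h2] at h1
  rw [tsum_mul_left] at h1
  have e2 : ((0 : ℕ) : ℤ) + 1 + J = J + 1 := by
    push_cast
    ring
  rw [e2, zero_add, mul_one] at h1
  unfold ac
  rw [h1, mul_add, ← mul_assoc, ← mul_assoc, mul_inv_cancel₀ hpK]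
  ring

end Pool.Agent.H410.FL
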