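import Pool.Agent.H410.FL.Stm

/-! Task FL UID (helper441). -/

set_option autoImplicit false

namespace Pool.Agent.H410.FL

open Finset Polynomial
open Pool.Agent.H475.QZ (nu)
open Pool.Agent.H410.FC (OK U sD al be pp DK Cj Rl Tt xt XX QQ pik VV EE FF ea ww C3 BF rr)

namespace P_UID

theorem V_eq {a ε : ℤ} (h : OK a ε) (n : ℕ) : (V a ε n : ℝ) = al a ε ^ n + be a ε ^ n := by
  induction n using Nat.strong_induction_on with
  | _ n ih =>
    match n, ih with
    | 0, _ =>
      have e : V a ε 0 = 2 := rfl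
      rw [e]
      norm_num
    | 1, _ =>
      have e : V a ε 1 = a := rfl
      rw [e, pow_one, pow_one, FC.al_add_be]
    | n + 2, ih =>
      have e : (V a ε (n + 2) : ℝ) = a * V a ε (n + 1) - ε * V a ε n := by
        have : V a ε (n + 2) = a * V a ε (n + 1) - ε * V a ε n := rfl
        rw [this]
        push_cast
        ring
      rw [e, ih (n + 1) (by omega), ih n (by omega)]
      have h1 := FC.al_sq h
      have h2 := FC.be_sq h
      have h3 : al a ε ^ (n + 2) = al a ε ^ n * al a ε ^ 2 := pow_add _ _ _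
      have h4 : be a ε ^ (n + 2) = be a ε ^ n * be a ε ^ 2 := pow_add _ _ _
      rw [h3, h4, h1, h2]
      ring

end P_UID

theorem t_UID : S_UID := by
  intro a ε δ hOK hSg m
  have hprod := FC.al_mul_be hOK
  refine ⟨fun hε => ?_, fun hε => ?_⟩
  · subst hε
    have hδ : (δ : ℝ) ^ 2 = 1 := by
      rcases hSg.1 with h | h <;> subst h <;> norm_num
    have h1 : ((-1 : ℝ) ^ m) ^ 2 = 1 := by
      rw [← pow_mul, mul_comm, pow_mul]
      norm_num
    have hV := P_UID.V_eq hOK (2 * m + 1)
    have hab : (al a (-1) * be a (-1)) ^ (2 * m + 1) = -1 := by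
      rw [hprod]
      push_cast
      exact Odd.neg_one_pow ⟨m, rfl⟩
    rw [mul_pow] at hab
    have hp : pp a (-1) ^ m = (-1) ^ m * al a (-1) ^ (2 * m) := by
      unfold pp
      rw [mul_pow, ← pow_mul]
      push_cast
      ring
    have hl : al a (-1) ^ (2 * m + 1) = al a (-1) ^ (2 * m) * al a (-1) := pow_succ _ _
    have hu : xd a (-1) δ * pp a (-1) ^ m = -((δ : ℝ) * (-1) ^ m * al a (-1) ^ (2 * m + 1)) := by
      rw [hp, hl]
      unfold xd
      ring
    rw [hu, hV]
    linear_combination (-(al a (-1) ^ (2 * m + 1)) * ((-1 : ℝ) ^ m) ^ 2) * hδ -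
      al a (-1) ^ (2 * m + 1) * h1 + ((δ : ℝ) * (-1) ^ m) * hab
  · have hδ : δ = 1 := hSg.2 hε
    subst hε hδ
    have hp : pp a 1 ^ m = al a 1 ^ (2 * m) := by
      unfold pp
      rw [mul_pow, ← pow_mul]
      push_cast
      ring
    have hab : (al a 1) ^ m * (be a 1) ^ m = 1 := by
      rw [← mul_pow, hprod]
      push_cast
      exact one_pow m
    have hprod' : al a 1 * be a 1 = 1 := by
      rw [hprod]
      norm_num
    have hU1 := FC.U_mul hOK (m + 1)
    have hU0 := FC.U_mul hOK m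
    have hs : al a 1 - be a 1 = sD a 1 := FC.al_sub_be
    have hs0 : sD a 1 ≠ 0 := (FC.sD_pos hOK).ne'
    have e1 : al a 1 ^ (m + 1) = al a 1 ^ m * al a 1 := pow_succ _ _
    have e2 : be a 1 ^ (m + 1) = be a 1 ^ m * be a 1 := pow_succ _ _
    have e3 : al a 1 ^ (2 * m) = al a 1 ^ m * al a 1 ^ m := by
      rw [two_mul, pow_add]
    rw [e1, e2] at hU1
    refine mul_right_cancel₀ hs0 ?_
    rw [hp, e3]
    unfold xd
    rw [← hs] at hU1 hU0 ⊢
    push_cast
    set A := al a 1 ^ m with hA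
    set B := be a 1 ^ m with hB
    linear_combination (al a 1 - 1) * A * hU1 + (al a 1 - 1) * A * hU0 +
      (al a 1 - 1) * (1 + be a 1) * hab * (-1) + (A ^ 2 - 1) * hprod'

end Pool.Agent.H410.FL
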