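import Pool.Agent.H410.FL.Stm

set_option autoImplicit false

namespace Pool.Agent.H410.FL

open Pool.Agent.H410.FC (OK U sD al be pp DK Cj Rl Tt xt XX QQ pik VV EE FF ea ww C3 BF rr)

namespace P_VW

/-- `A(m)`. -/
def IA (a ε : ℤ) (r : Fin 3 → ℤ) (m : ℤ) : ℤ :=
  2 * r 0 + (a ^ 2 - 4 * ε) * r 2 * (m * (m + 1))

/-- `B(m)`. -/
def IB (a ε : ℤ) (r : Fin 3 → ℤ) (m : ℤ) : ℤ :=
  2 * (a ^ 2 - 4 * ε) * r 1 * (2 * m + 1)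

theorem W1 (a ε : ℤ) (r : Fin 3 → ℤ) (h : OK a ε) (m : ℤ) :
    Wt (wr a ε r) (m : ℝ) = sD a ε * (IA a ε r m : ℝ) + (IB a ε r m : ℝ) := by
  have hs := Pool.Agent.H410.FC.sD_sq h
  have h3 : sD a ε ^ 3 = sD a ε * ((a : ℝ) ^ 2 - 4 * ε) := by
    rw [← hs]; ring
  unfold Wt wr IA IB
  simp only [Matrix.cons_val_zero, Matrix.cons_val_one, Matrix.cons_val]
  rw [h3, hs]
  push_cast
  ring

theorem W2 (a ε : ℤ) (r : Fin 3 → ℤ) (h : OK a ε) (m : ℤ) :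
    -Wt (wr a ε r) (((-1 - m : ℤ) : ℝ)) = -sD a ε * (IA a ε r m : ℝ) + (IB a ε r m : ℝ) := by
  rw [W1 a ε r h]
  unfold IA IB
  push_cast
  ring

end P_VW

open P_VW in
theorem t_VW (hCJ : Pool.Agent.H410.FC.S_CJ) : S_VW := by
  intro a ε r h m
  obtain ⟨hint, hadd, hmul, -, -, -, -, hsD, -⟩ := hCJ a ε h
  have hs := Pool.Agent.H410.FC.sD_sq h
  rw [W1 a ε r h, W2 a ε r h]
  refine ⟨hadd _ _ _ _ (hmul _ _ _ _ hsD (hint _)) (hint _), ?_⟩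
  have e : (sD a ε * (IA a ε r m : ℝ) + (IB a ε r m : ℝ)) *
      (-sD a ε * (IA a ε r m : ℝ) + (IB a ε r m : ℝ)) =
      (IB a ε r m : ℝ) ^ 2 - sD a ε ^ 2 * (IA a ε r m : ℝ) ^ 2 := by ring
  rw [e, hs]
  unfold IA IB
  push_cast
  ring

end Pool.Agent.H410.FL
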