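import Pool.Agent.H410.FC.Main
import Pool.Agent.H410.FL.P_AA
import Pool.Agent.H410.FL.P_ASER
import Pool.Agent.H410.FL.P_CB
import Pool.Agent.H410.FL.P_CF
import Pool.Agent.H410.FL.P_DDB
import Pool.Agent.H410.FL.P_DIVC
import Pool.Agent.H410.FL.P_DLB
import Pool.Agent.H410.FL.P_DLS
import Pool.Agent.H410.FL.P_ENB
import Pool.Agent.H410.FL.P_ENT
import Pool.Agent.H410.FL.P_EX
import Pool.Agent.H410.FL.P_FIN
import Pool.Agent.H410.FL.P_HLL
import Pool.Agent.H410.FL.P_HPX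
import Pool.Agent.H410.FL.P_KB
import Pool.Agent.H410.FL.P_KER
import Pool.Agent.H410.FL.P_LI
import Pool.Agent.H410.FL.P_NRM
import Pool.Agent.H410.FL.P_NV
import Pool.Agent.H410.FL.P_NV1
import Pool.Agent.H410.FL.P_NV2
import Pool.Agent.H410.FL.P_NV3
import Pool.Agent.H410.FL.P_NV4
import Pool.Agent.H410.FL.P_PRM
import Pool.Agent.H410.FL.P_REC
import Pool.Agent.H410.FL.P_RED
import Pool.Agent.H410.FL.P_RS1
import Pool.Agent.H410.FL.P_RS2
import Pool.Agent.H410.FL.P_SPL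
import Pool.Agent.H410.FL.P_SUM
import Pool.Agent.H410.FL.P_UID
import Pool.Agent.H410.FL.P_UP
import Pool.Agent.H410.FL.P_UP1
import Pool.Agent.H410.FL.P_VAN
import Pool.Agent.H410.FL.P_VW

/-!
Assembly (helper410).
-/

namespace Pool.Agent.H410.FL

theorem main : S_LI := by
  have hHPX := t_HPX
  have hCB := t_CB
  have hSUM := t_SUM hCB
  have hREC := t_REC hSUM
  have hCF := t_CF hHPX
  have hCJ := Pool.Agent.H410.FC.t_CJ
  have hDIVR := Pool.Agent.H410.FC.t_DIVR hCJ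
  have hVW := t_VW hCJ
  have hDIVC := t_DIVC hCJ
  have hDLS := t_DLS hCJ
  have hENT := t_ENT hHPX hCF hREC hCJ hDIVR hVW hDIVC hDLS
  have hNRM := t_NRM hENT hCJ hDLS
  have hPHI := Pool.Agent.H410.FC.t_PHI
  have hDDB := t_DDB (Pool.Agent.H410.FC.t_DKB hPHI Pool.Agent.H475.QZ.t_TOT)
    (t_DLB hPHI Pool.Agent.H410.FC.t_TOT2)
  have hHLL := t_HLL (t_ASER hCB t_KER) Pool.Agent.H410.FC.t_LAG
  have hNU := Pool.Agent.H475.QZ.t_NU
  have hNUX := Pool.Agent.H410.FC.t_NUX hNU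
  have hNUQ := Pool.Agent.H410.FC.t_NUQ hNU
  have hNUE := Pool.Agent.H410.FC.t_NUE hNU hNUX
  have hKB := t_KB hNU hNUX hNUQ hNUE
  have hUP1 := t_UP1 hHLL t_VAN hKB Pool.Agent.H410.FC.t_DVD
  have hDIV := Pool.Agent.H410.FC.t_DIV
  have hRED := t_RED hREC hDIV
  have hAA := t_AA hCB hSUM hDIV
  have hDEG := Pool.Agent.H410.FC.t_DEG
  have hENB := t_ENB hAA hRED hUP1 hDEG
  have hUP := t_UP Pool.Agent.H410.FC.t_DET hENB hDEG Pool.Agent.H410.FC.t_VB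
    Pool.Agent.H475.QZ.t_DU
  have hRL := Pool.Agent.H410.FC.t_RL
  have hEX := t_EX hRL hHPX hVW t_RS1 t_RS2 t_PRM t_UID
  have hNV1 := t_NV1 hRL hHPX
  have hNV2 := t_NV2 hRL hCF hNV1
  have hNV3 := t_NV3 hHPX hRL hREC hNV1 hNV2
  have hNV4 := t_NV4 hRL
  have hNV := t_NV hEX hNV1 hNV3 hNV4
  have hFIN := t_FIN hHPX hNV hNRM hDDB hUP
  exact t_LI t_SPL hFIN

end Pool.Agent.H410.FL
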