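import Pool.Agent.H410.FL.Stm
import Pool.Agent.H410.FC.Bas

/-! Proof of `S_HPX` (project FL of helper410), written by helper600. -/

namespace Pool.Agent.H410.FL

open Pool.Agent.H410.FC (OK U sD al be pp DK Cj Rl Tt xt XX QQ pik VV EE FF ea ww C3 BF rr)
open Pool.Agent.H410.FC (eps_sq eps_mul abs_eps al_ge al_pos abs_al abs_be_mul abs_be_le abs_pp
  pp_inv)

namespace P_HPX

theorem abs_del {ε δ : ℤ} (h : Sg ε δ) : |(δ : ℝ)| = 1 := by
  rcases h.1 with h | h <;> subst h <;> norm_num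

theorem del_sq {ε δ : ℤ} (h : Sg ε δ) : (δ : ℝ) ^ 2 = 1 := by
  rcases h.1 with h | h <;> subst h <;> norm_num

theorem abs_xd {a ε δ : ℤ} (h : OK a ε) (hd : Sg ε δ) : |xd a ε δ| = al a ε := by
  unfold xd
  rw [abs_neg, abs_mul, abs_del hd, one_mul, abs_al h]

theorem quarter {y : ℝ} (h : |y| ≤ 5 / 8) : 1 / 4 ≤ |1 + y| := by
  obtain ⟨h1, h2⟩ := abs_le.1 h
  rw [abs_of_nonneg (by linarith)]
  linarith

theorem quarter' {y : ℝ} (h : 8 / 5 ≤ |y|) : 1 / 4 ≤ |1 + y| := by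
  have h1 := abs_sub (1 + y) 1
  rw [abs_one, add_sub_cancel_left] at h1
  linarith

end P_HPX

open P_HPX in
theorem t_HPX : S_HPX := by
  intro a ε δ h hd
  have h1 := al_ge h
  have h2 := abs_xd h hd
  have h3 := abs_pp h
  refine ⟨⟨?_, ?_, ?_, ?_, ?_⟩, h2, ?_⟩
  · rw [h3]
    nlinarith
  · rw [h2]
    linarith
  · rw [h2, h3]
    nlinarith
  · exact quarter' (by rw [h2]; exact h1)
  · refine quarter ?_
    rw [abs_mul, h2, pp_inv h, abs_mul, abs_eps h, one_mul, abs_pow]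
    have h4 := abs_be_mul h
    have h5 := abs_be_le h
    calc al a ε * |be a ε| ^ 2 = (|be a ε| * al a ε) * |be a ε| := by ring
      _ = |be a ε| := by rw [h4, one_mul]
      _ ≤ 5 / 8 := h5
  · unfold xd pp
    have h4 := del_sq hd
    have h5 := eps_mul h
    calc (-((δ : ℝ) * al a ε)) ^ 2 = (δ : ℝ) ^ 2 * al a ε ^ 2 := by ring
      _ = ((ε : ℝ) * ε) * al a ε ^ 2 := by rw [h4, h5]
      _ = (ε : ℝ) * (ε * al a ε ^ 2) := by ring

end Pool.Agent.H410.FL
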