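import Pool.Agent.H410.FL.Stm
import Pool.Agent.H410.FC.Bas

/-!
Splitting of the sum (by helper348).
-/

namespace Pool.Agent.H410.FL

open Finset
open Pool.Agent.H410.FC (OK U sD al be)

namespace P_SPL

variable {a ε δ : ℤ}

theorem V_eq (h : OK a ε) (n : ℕ) : (V a ε n : ℝ) = al a ε ^ n + be a ε ^ n := by
  induction n using Nat.strong_induction_on with
  | _ n ih =>
    match n with
    | 0 =>
      simp only [V, pow_zero]
      norm_num
    | 1 =>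
      simp only [V, pow_one]
      exact FC.al_add_be.symm
    | (n + 2) =>
      have h0 := ih n (by omega)
      have h1 := ih (n + 1) (by omega)
      have e : (V a ε (n + 2) : ℝ) = a * V a ε (n + 1) - ε * V a ε n := by
        simp [V]
      rw [e, h0, h1]
      have ha := FC.al_sq h
      have hb := FC.be_sq h
      calc (a : ℝ) * (al a ε ^ (n + 1) + be a ε ^ (n + 1)) - ε * (al a ε ^ n + be a ε ^ n)
          = al a ε ^ n * (a * al a ε - ε) + be a ε ^ n * (a * be a ε - ε) := by ring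
        _ = al a ε ^ (n + 2) + be a ε ^ (n + 2) := by
            rw [← ha, ← hb]; ring

theorem q_lt (h : OK a ε) : (al a ε)⁻¹ < 1 :=
  inv_lt_one_of_one_lt₀ (by linarith [FC.al_ge h])

theorem abs_be_pow (h : OK a ε) (n : ℕ) : |be a ε| ^ (n + 1) ≤ 5 / 8 := by
  have h1 := FC.abs_be_le h
  calc |be a ε| ^ (n + 1) ≤ |be a ε| ^ 1 :=
        pow_le_pow_of_le_one (abs_nonneg _) (by linarith) (by omega)
    _ ≤ 5 / 8 := by rw [pow_one]; exact h1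

theorem al_pow (h : OK a ε) (n : ℕ) : 8 / 5 ≤ al a ε ^ (n + 1) := by
  have h1 := FC.al_ge h
  calc (8 / 5 : ℝ) ≤ al a ε ^ 1 := by rw [pow_one]; exact h1
    _ ≤ al a ε ^ (n + 1) := pow_le_pow_right₀ (by linarith) (by omega)

theorem U_ge (h : OK a ε) (n : ℕ) : al a ε ^ (n + 1) ≤ 2 * sD a ε * U a ε (n + 1) := by
  have h1 := FC.U_mul h (n + 1)
  have h2 := al_pow h n
  have h3 : be a ε ^ (n + 1) ≤ |be a ε| ^ (n + 1) := by
    rw [← abs_pow]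
    exact le_abs_self _
  have h4 := abs_be_pow h n
  nlinarith

theorem inv_U_le (h : OK a ε) (n : ℕ) :
    ((U a ε (n + 1) : ℝ))⁻¹ ≤ 2 * sD a ε * (al a ε)⁻¹ ^ (n + 1) := by
  have h1 := U_ge h n
  have h2 := FC.U_pos h (n + 1) (by omega)
  have h3 : 0 < al a ε ^ (n + 1) := pow_pos (FC.al_pos h) _
  rw [inv_pow, ← div_eq_mul_inv, inv_eq_one_div, div_le_div_iff₀ h2 h3, one_mul]
  exact h1

theorem abs_V_le (h : OK a ε) (n : ℕ) : |(V a ε (n + 1) : ℝ)| ≤ 2 * al a ε ^ (n + 1) := by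
  rw [V_eq h]
  have h1 := abs_add_le (al a ε ^ (n + 1)) (be a ε ^ (n + 1))
  rw [abs_pow, abs_pow, FC.abs_al h] at h1
  have h2 := abs_be_pow h n
  have h3 := al_pow h n
  linarith

theorem abs_sign (h : Sg ε δ) : |(δ : ℝ)| = 1 := by
  rcases h.1 with h | h <;> subst h <;> norm_num

theorem sum_q (h : OK a ε) (C : ℝ) : Summable fun n : ℕ => C * (al a ε)⁻¹ ^ (n + 1) := by
  have h0 : 0 ≤ (al a ε)⁻¹ := inv_nonneg.2 (FC.al_pos h).le
  have h1 := summable_geometric_of_lt_one h0 (q_lt h)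
  exact ((summable_nat_add_iff 1).2 h1).mul_left C

theorem summable1 (h : OK a ε) (hs : Sg ε δ) :
    Summable fun n : ℕ => (δ : ℝ) ^ (n + 1) / (U a ε (n + 1) : ℝ) := by
  refine Summable.of_norm_bounded (sum_q h (2 * sD a ε)) fun n => ?_
  rw [Real.norm_eq_abs, abs_div, abs_pow, abs_sign hs, one_pow,
    abs_of_pos (FC.U_pos h (n + 1) (by omega)), one_div]
  exact inv_U_le h n

theorem summable2 (h : OK a ε) (hs : Sg ε δ) :
    Summable fun n : ℕ => (δ : ℝ) ^ (n + 1) * (V a ε (n + 1) : ℝ) / (U a ε (n + 1) : ℝ) ^ 2 := by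
  refine Summable.of_norm_bounded (sum_q h (2 * (2 * sD a ε) ^ 2)) fun n => ?_
  have hU := FC.U_pos h (n + 1) (by omega)
  have h1 := inv_U_le h n
  have h2 := abs_V_le h n
  have h3 : 0 < al a ε ^ (n + 1) := pow_pos (FC.al_pos h) _
  have h5 : (0 : ℝ) ≤ ((U a ε (n + 1) : ℝ))⁻¹ := (inv_pos.2 hU).le
  rw [Real.norm_eq_abs, abs_div, abs_mul, abs_pow, abs_sign hs, one_pow, one_mul,
    abs_of_pos (pow_pos hU 2), div_eq_mul_inv, ← inv_pow]
  calc |(V a ε (n + 1) : ℝ)| * ((U a ε (n + 1) : ℝ))⁻¹ ^ 2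
      ≤ (2 * al a ε ^ (n + 1)) * (2 * sD a ε * (al a ε)⁻¹ ^ (n + 1)) ^ 2 :=
        mul_le_mul h2 (pow_le_pow_left₀ h5 h1 2) (by positivity) (by positivity)
    _ = 2 * (2 * sD a ε) ^ 2 * (al a ε)⁻¹ ^ (n + 1) := by
        rw [inv_pow]
        field_simp

theorem summable3 (h : OK a ε) (hs : Sg ε δ) :
    Summable fun n : ℕ => ((δ : ℝ) * ε) ^ (n + 1) / (U a ε (n + 1) : ℝ) ^ 3 := by
  refine Summable.of_norm_bounded (sum_q h ((2 * sD a ε) ^ 3)) fun n => ?_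
  have hU := FC.U_pos h (n + 1) (by omega)
  have h1 := inv_U_le h n
  have h5 : (0 : ℝ) ≤ ((U a ε (n + 1) : ℝ))⁻¹ := (inv_pos.2 hU).le
  have hq0 : 0 ≤ (al a ε)⁻¹ := inv_nonneg.2 (FC.al_pos h).le
  have hq1 : (al a ε)⁻¹ ^ (n + 1) ≤ 1 := pow_le_one₀ hq0 (q_lt h).le
  have hq2 : 0 ≤ (al a ε)⁻¹ ^ (n + 1) := pow_nonneg hq0 _
  rw [Real.norm_eq_abs, abs_div, abs_pow, abs_mul, abs_sign hs, FC.abs_eps h, one_mul, one_pow,
    abs_of_pos (pow_pos hU 3), one_div, ← inv_pow]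
  calc ((U a ε (n + 1) : ℝ))⁻¹ ^ 3
      ≤ (2 * sD a ε * (al a ε)⁻¹ ^ (n + 1)) ^ 3 := pow_le_pow_left₀ h5 h1 3
    _ = (2 * sD a ε) ^ 3 * ((al a ε)⁻¹ ^ (n + 1)) ^ 3 := by rw [mul_pow]
    _ ≤ (2 * sD a ε) ^ 3 * (al a ε)⁻¹ ^ (n + 1) := by
        apply mul_le_mul_of_nonneg_left
        · exact pow_le_of_le_one hq2 hq1 (by norm_num)
        · have := FC.sD_pos h
          positivity

end P_SPL

open P_SPL in
theorem t_SPL : S_SPL := by
  intro a ε δ r h hs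
  have s1 := (summable1 h hs).mul_left (r 0 : ℝ)
  have s2 := (summable2 h hs).mul_left (r 1 : ℝ)
  have s3 := (summable3 h hs).mul_left (r 2 : ℝ)
  have h1 : SH a ε δ r = ∑' n : ℕ, 2 * ((r 0 : ℝ) * ((δ : ℝ) ^ (n + 1) / (U a ε (n + 1) : ℝ)) +
    (r 1 : ℝ) * ((δ : ℝ) ^ (n + 1) * (V a ε (n + 1) : ℝ) / (U a ε (n + 1) : ℝ) ^ 2) +
    (r 2 : ℝ) * (((δ : ℝ) * ε) ^ (n + 1) / (U a ε (n + 1) : ℝ) ^ 3)) := rfl
  rw [h1, tsum_mul_left, (s1.add s2).tsum_add s3, s1.tsum_add s2, tsum_mul_left, tsum_mul_left,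
    tsum_mul_left]
  rfl

end Pool.Agent.H410.FL
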