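import Pool.Agent.H410.FL.Defs
import Pool.Agent.H410.FC.Stm

/-!
Statements (with complete paper proofs in the docstrings) for the linear independence over `ℚ` of
`1, ∑ δ^n/U_n, ∑ δ^n V_n/U_n^2, ∑ (δε)^n/U_n^3` for the Lucas sequences `U_n, V_n` with
`αβ = ε = ±1` (helper410). Definitions in `Defs.lean`; basic facts about `α = al a ε`,
`β = be a ε`, `p = pp a ε = ε α²` in `Pool/Agent/H410/FC/Bas.lean` (please look at the list there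
first). This is the generalisation of the project `Pool.Agent.H410.FC` (all proved: statement
`S_NAME` of `Pool/Agent/H410/FC/Stm.lean` is proved in `Pool/Agent/H410/FC/P_NAME.lean`) from the
weight `m(m+1)` to general weights `W(m) = w 0 + w 1 m + w 2 m²` and from `x = -εα` to `x = -δα`.
Most statements are adapted from a statement with the same name there, `[FC: NAME]`.
-/

namespace Pool.Agent.H410.FL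

open Finset Polynomial
open Pool.Agent.H475.QZ (nu)
open Pool.Agent.H410.FC (OK U sD al be pp DK Cj Rl Tt xt XX QQ pik VV EE FF ea ww C3 BF rr)

/-! ## A. series -/

/-- `p = εα²`, `x = -δα` are admissible, and `x² = ε p`.
Proof. `|p| = α² ≥ 2`, `|x| = α ≤ α²` (`al_ge`: `α ≥ 8/5`). `1 + x = 1 - δα`, absolute value at
least `α - 1 ≥ 3/5`. `x p⁻¹ = -δα ε α⁻² = -δε/α`, so `|1 + x p⁻¹| ≥ 1 - 5/8 = 3/8`.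
`x² = α² = ε·εα²`. -/
def S_HPX : Prop := ∀ a ε δ : ℤ, OK a ε → Sg ε δ →
  Hpx (pp a ε) (xd a ε δ) ∧ |xd a ε δ| = al a ε ∧ xd a ε δ ^ 2 = ε * pp a ε

/-- Bound for `c_m`. [FC: CB]
Proof. `|W(m)| ≤ nw w (|m|+1)²`. `|1 + x p^m| ≥ 1/4`: for `m ≥ 1` it is
`≥ |x||p|^m - 1 ≥ 1`, for `m = 0, -1` by `Hpx`, for `m ≤ -2` `|x p^m| ≤ |p|^(m+1) ≤ 1/2`. -/
def S_CB : Prop := ∀ (w : Fin 3 → ℝ) (p x : ℝ), Hpx p x → ∀ m : ℤ,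
  |cc w p x m| ≤ 4 * nw w * (|(m : ℝ)| + 1) ^ 2 ∧ 1 + x * p ^ m ≠ 0

/-- Summability (`K ≥ 1`). [FC: SUM] -/
def S_SUM : Prop := ∀ (w : Fin 3 → ℝ) (p x : ℝ), Hpx p x → ∀ K : ℕ, 1 ≤ K → ∀ J : ℤ,
  Summable (fun e : ℕ => (p ^ (K * (e + 1)))⁻¹ * cc w p x ((e : ℤ) + 1 + J))

/-- The recurrence in `J`. [FC: REC]
Proof. `a(K,J) = p^{-K} c_{J+1} + ∑_{e ≥ 1} p^{-K(e+1)} c_{e+1+J} = p^{-K}(c_{J+1} + a(K,J+1))`. -/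
def S_REC : Prop := ∀ (w : Fin 3 → ℝ) (p x : ℝ), Hpx p x → ∀ K : ℕ, 1 ≤ K → ∀ J : ℤ,
  ac w p x K (J + 1) = p ^ K * ac w p x K J - cc w p x (J + 1)

/-- Closed form of `a(K,-1)`. [FC: CF, there for `a(K,0)` and one weight]
Proof. `z_l = (β/α)^l = ε^l α^{-2l}`, `R_m = δ ε^m α^{-(2m+1)}`, so `R_m^l = δ^l α^{-l} z_l^m` and
`R_m⁻¹ = δ ε^m α^{2m+1} = -x p^m`. With `α^l(1-z_l) = √D U_l`, `α^l (1+z_l) = V_l`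
(`α^l + β^l = V_l`), `D = (√D)²`:
`∑_{m≥0} R_m^l = δ^l/(√D U_l)`, `∑_{m≥0} (2m+1) R_m^l = δ^l α^{-l} (1+z_l)/(1-z_l)² =
δ^l V_l/(D U_l²)`, `∑_{m≥0} m(m+1) R_m^l = 2 δ^l α^{-l} z_l/(1-z_l)³ = 2 (δε)^l/(√D³ U_l³)`. Since
`W(m) = √D (2 r 0 + D r 2 m(m+1)) + 2 D r 1 (2m+1)` (`Wt (wr a ε r) m`), `∑_m W(m) R_m^l = h_l`.
Sum over `l > K` (absolutely convergent double series): `∑_{l>K} R_m^l = R_m^K/(R_m⁻¹-1) =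
-(-x p^m)^{-K}/(1+x p^m)`. So `∑_{l>K} h_l = -(-x)^{-K} ∑_{m≥0} p^{-Km} c_m =
-(-x)^{-K} p^K a(K,-1)` and `(-x)^K p^{-K} = (δα)^K (εα²)^{-K} = (δβ)^K` (`β = ε/α`). -/
def S_CF : Prop := ∀ (a ε δ : ℤ) (r : Fin 3 → ℤ), OK a ε → Sg ε δ → ∀ K : ℕ, 1 ≤ K →
  ac (wr a ε r) (pp a ε) (xd a ε δ) K (-1) =
    -((δ * be a ε) ^ K * (SH a ε δ r - ∑ l ∈ Icc 1 K, hl a ε δ r l))

/-- Splitting of the sum.
Proof. The three series converge absolutely: `√D U_n = α^n - β^n`, so `U_n ≥ c α^n` with `c > 0`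
(e.g. `|β^n| ≤ (5/8)^n`, `α^n ≥ (8/5)^n`, so `√D U_n ≥ α^n - 5/8 ≥ α^n/2`), and
`|V_n| = |α^n+β^n| ≤ 2 α^n`. `tsum_add`, `tsum_mul_left`. -/
def S_SPL : Prop := ∀ (a ε δ : ℤ) (r : Fin 3 → ℤ), OK a ε → Sg ε δ →
  SH a ε δ r = 2 * ((r 0 : ℝ) * S1 a ε δ + (r 1 : ℝ) * S2 a ε δ + (r 2 : ℝ) * S3 a ε δ)

/-! ## B. integrality (conjugate pairs) -/

/-- Weights: `(W(m), -W(-1-m))` is a conjugate pair, and the product is the integer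
`B² - D A²`, `A = 2 r 0 + D r 2 m(m+1)`, `B = 2 D r 1 (2m+1)`, `D = a² - 4ε`.
Proof. `W(m) = √D A + B`, `W(-1-m) = √D A - B`; `√D² = D`; `S_CJ` (`(√D, -√D)` is a pair). Here
`m ∈ ℤ`. -/
def S_VW : Prop := ∀ (a ε : ℤ) (r : Fin 3 → ℤ), OK a ε → ∀ m : ℤ,
  Cj a ε (Wt (wr a ε r) (m : ℝ)) (-Wt (wr a ε r) (((-1 - m : ℤ) : ℝ))) ∧
  Wt (wr a ε r) (m : ℝ) * (-Wt (wr a ε r) (((-1 - m : ℤ) : ℝ))) =
    (((2 * (a ^ 2 - 4 * ε) * r 1 * (2 * m + 1)) ^ 2 -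
      (a ^ 2 - 4 * ε) * (2 * r 0 + (a ^ 2 - 4 * ε) * r 2 * (m * (m + 1))) ^ 2 : ℤ) : ℝ)

/-- Column denominators: `1 + x p^m ∣ Δ_J(α)` for `0 ≤ m ≤ J`. [FC: DIVC]
Proof. Let `e = 2m+1`, `η = δ ε^m = eta ε δ e`, `η = ±1`. Then `x p^m = -δ ε^m α^{2m+1} =
-(η α)^e` (as `η^e = η`), so `1 + x p^m = 1 - (ηα)^e = -∏_{d ∣ e} Φ_d(η α)`. If `d ∣ e` then `d`
is odd, `d ≤ 2J+1`, `eta ε δ d = ±1`, so `η = eta ε δ d` or `η = -eta ε δ d`; in the second case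
`d ≠ e`, so `e ≥ 3d` (`e/d` odd) and `d ≤ (2J+1)/3`. So the factors `Φ_d(ηα)`, `d ∣ e`, are
factors of `Δ_J(α)` for different `d` (in the first or second product), and
`Δ_J(α)/(1+x p^m)` is minus the product of the remaining factors (all of the form
`Φ_d(± α)`). The same with `β`: `x p^{-1-m} = -δ ε^{m+1} α^{-(2m+1)} = -δ ε^m β^{2m+1}`, so
`1 + x p^{-1-m} = 1 - (ηβ)^e`. -/
def S_DIVC : Prop := ∀ a ε δ : ℤ, OK a ε → Sg ε δ → ∀ J m : ℕ, m ≤ J →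
  Cj a ε (Dl ε δ (al a ε) J / (1 + xd a ε δ * pp a ε ^ (m : ℤ)))
    (Dl ε δ (be a ε) J / (1 + xd a ε δ * pp a ε ^ (-1 - (m : ℤ))))

/-- `Δ_J ∣ Δ_{J+1}` (as conjugate pairs), and `Δ_J ≠ 0`. [FC: DLS] -/
def S_DLS : Prop := ∀ a ε δ : ℤ, OK a ε → Sg ε δ → ∀ J : ℕ,
  Dl ε δ (al a ε) J ≠ 0 ∧ Dl ε δ (be a ε) J ≠ 0 ∧
  Cj a ε (Dl ε δ (al a ε) (J + 1) / Dl ε δ (al a ε) J)
    (Dl ε δ (be a ε) (J + 1) / Dl ε δ (be a ε) J)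

/-- The entries, if `SH = s` is an integer. [FC: ENT] Write `a(J) = a(K,J)`,
`a'(J) = p^K a(K,-2-J)`, `M = D_K(p)³`, `M' = D_K(p⁻¹)³`.
Proof. (0) `J = -1`: by `S_CF` `M a(-1) = -(δβ)^K D_K(p)³ (s - ∑_{l≤K} h_l)`, and
`a'(-1) = p^K a(-1) = -(δα)^K (s - ∑ h_l)` (`p^K (δβ)^K = (εα²δβ)^K = (δα)^K`), so
`M' a'(-1) = -(δα)^K D_K(p⁻¹)³ (s - ∑ h_l)`. `D_K(p)³ h_l` and `D_K(p⁻¹)³ h_l` are a
conjugate pair: `h_l` is an integral combination of `1/U_l`, `V_l/U_l²`, `1/U_l³` (`δ, ε = ±1`) and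
`(D_K(p)/U_l, D_K(p⁻¹)/U_l)` is one by `FC.S_DIVR` (multiply by the pair `(D_K(p), D_K(p⁻¹))`, a
value of an integral polynomial, where needed). `(β, α)` is a pair.
(i) `J ≥ -1`, induction: `(M Dc_J a(J), M' Dc'_J a'(J))` with `Dc_J = Δ_J(α)`, `Dc'_J = Δ_J(β)` for
`J ≥ 0` and `1` for `J = -1`. By `S_REC`: `a(J+1) = p^K a(J) - c_{J+1}` and
`a'(J+1) = p^K a(-3-J) = a(-2-J) + c_{-2-J} = p^{-K} a'(J) + c_{-2-J}`. Multiply by `M Δ_{J+1}(α)`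
resp. `M' Δ_{J+1}(β)`; `S_DLS` (for `J = -1`: `(Δ_0(α), Δ_0(β))` is a pair, e.g. `S_DIVC` times
the pair of `1 + x p^0`, or directly from the definition), and with `m = J+1 ≥ 0`:
`Δ_m(α) c_m = W(m) Δ_m(α)/(1+x p^m)`, `Δ_m(β) (-c_{-1-m}) = -W(-1-m) Δ_m(β)/(1+x p^{-1-m})` is a
conjugate pair by `S_VW`, `S_DIVC`.
(ii) `J = -2-j`, `j ≥ 0`: `(M Δ_j(β) a(-2-j), M' Δ_j(α) a'(-2-j))`, `a'(-2-j) = p^K a(j)`, by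
induction on `j` from `J = -1`: `a(-2-j) = p^{-K}(a(-1-j) + c_{-1-j})` and
`a'(-2-j) = p^K a(j) = p^K (p^K a(j-1) - c_j) = p^K (a'(-1-j) - c_j)`, and
`(Δ_j(β) c_{-1-j}, -Δ_j(α) c_j)` is a conjugate pair (swap and negative of the above). -/
def S_ENT : Prop := ∀ (a ε δ : ℤ) (r : Fin 3 → ℤ), OK a ε → Sg ε δ → ∀ s : ℤ,
  SH a ε δ r = s → ∀ K : ℕ, 1 ≤ K → ∀ J : ℤ,
  Cj a ε
    (DK (pp a ε) K ^ 3 * Dc ε δ (al a ε) (be a ε) J * ac (wr a ε r) (pp a ε) (xd a ε δ) K J)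
    (DK (pp a ε)⁻¹ K ^ 3 * Dc ε δ (be a ε) (al a ε) J *
      (pp a ε ^ K * ac (wr a ε r) (pp a ε) (xd a ε δ) K (-2 - J)))

/-- The norm inequality. With `N = 2n+1`. [FC: NRM] -/
def S_NRM : Prop := ∀ (a ε δ : ℤ) (r : Fin 3 → ℤ), OK a ε → Sg ε δ → ∀ s : ℤ,
  SH a ε δ r = s → ∀ n : ℕ,
  (AM (wr a ε r) (pp a ε) (xd a ε δ) (-(n : ℤ)) (2 * n + 1)).det ≠ 0 →
  1 ≤ (DD ε δ (pp a ε) (al a ε) (be a ε) n * DD ε δ (pp a ε)⁻¹ (be a ε) (al a ε) n) *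
    |pp a ε| ^ ((2 * n + 1) * (n + 1)) *
    (|(AM (wr a ε r) (pp a ε) (xd a ε δ) (-(n : ℤ)) (2 * n + 1)).det| *
      |(AM (wr a ε r) (pp a ε) (xd a ε δ) (-((n + 2 : ℕ) : ℤ)) (2 * n + 1)).det|)

/-! ## C. size of the denominators -/

/-- Bound for `Δ_J(α) Δ_J(β)` (power 75). [FC: DLB; only `eta = ±1` is used] -/
def S_DLB : Prop := ∀ a ε δ : ℤ, OK a ε → Sg ε δ → ∀ J : ℕ,
  (|Dl ε δ (al a ε) J| * |Dl ε δ (be a ε) J|) ^ 75 ≤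
    al a ε ^ (1800 * (J + 1) + 16 * (2 * J + 31) * (2 * J + 61) +
      16 * ((2 * J + 1) / 3 + 30) * ((2 * J + 1) / 3 + 60))

/-- Bound for all denominators. [FC: DDB] -/
def S_DDB : Prop := ∀ a ε δ : ℤ, OK a ε → Sg ε δ → ∃ C : ℕ, ∀ n : ℕ, 1 ≤ n →
  (DD ε δ (pp a ε) (al a ε) (be a ε) n * DD ε δ (pp a ε)⁻¹ (be a ε) (al a ε) n) ^ 2025 ≤
    al a ε ^ (11648 * n ^ 3 + C * n ^ 2)

/-! ## D. analytic upper bound for the determinants -/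

/-- The kernel identity. [FC: KER]
Proof. Put `E = exp`, `y = u/P`, `|y| ≤ 1/2`, `s = 1/(1-y)`. `E^m` has the coefficients
`1, m, m²/2`, `(C P - C u E)⁻¹ = C P⁻¹ (1 - C y E)⁻¹` and `(1 - C y E)⁻¹` has the coefficients
`s, y s², y s²/2 + y² s³`. So the coefficients of the product are
`P⁻¹ u^m (s, m s + y s², m² s/2 + m y s² + y s²/2 + y² s³)`, and with
`∑ y^e = s`, `∑ e y^e = y s²`, `∑ e² y^e = y(1+y) s³` these are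
`∑_e (P^{e+1})⁻¹ (1, (e+m), (e+m)²/2) u^{e+m}`. Take `w 0 f_0 + w 1 f_1 + 2 w 2 f_2`. -/
def S_KER : Prop := ∀ (w : Fin 3 → ℝ) (u P : ℝ), |u| ≤ 1 / 2 → 1 ≤ |P| → ∀ m : ℕ, 1 ≤ m →
  Dg w ((PowerSeries.C u * PowerSeries.exp ℝ) ^ m *
    (PowerSeries.C P - PowerSeries.C u * PowerSeries.exp ℝ)⁻¹) =
  ∑' e : ℕ, (P ^ (e + 1))⁻¹ * Wt w (((e + m : ℕ) : ℝ)) * u ^ (e + m)

/-- Series for `a(K,J)`, `K ≥ 1`, `J ≥ 0`. [FC: ASER] -/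
def S_ASER : Prop := ∀ (w : Fin 3 → ℝ) (p x : ℝ), Hpx p x → ∀ K J : ℕ, 1 ≤ K →
  HasSum (fun t : ℕ => wt x (t + 1) * Dg w (XX p (t + 1) ^ (J + 1) *
    (PowerSeries.C (p ^ K) - XX p (t + 1))⁻¹)) (ac w p x K J)

/-- Series for `L(F,G)`. [FC: HLL] -/
def S_HLL : Prop := ∀ (w : Fin 3 → ℝ) (p x : ℝ), Hpx p x → ∀ (N : ℕ) (F G : Polynomial ℝ),
  F.natDegree < N → G.natDegree < N →
  HasSum (fun t : ℕ => kap w p x N (t + 1) (F * G)) (LL w p x N F G)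

/-- Vanishing. [FC: VAN] `D_w` of a multiple of `X^3` is `0`. -/
def S_VAN : Prop := ∀ (w : Fin 3 → ℝ) (p x : ℝ) (N t : ℕ) (F : Polynomial ℝ),
  (Polynomial.X - Polynomial.C (xt p t)) ^ 3 ∣ F → kap w p x N t F = 0

/-- Bound for `κ_t`, `t > max(a,a')`. [FC: KB]
Proof. `|D_w f| ≤ 2 nw w · ν(f)`; the rest as there. -/
def S_KB : Prop := ∀ (w : Fin 3 → ℝ) (p x : ℝ), Hpx p x → ∀ N t a a' c c' j : ℕ, a < t → a' < t →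
  c ≤ 2 → c' ≤ 2 →
  |kap w p x N t (X ^ j * (FF p a c * FF p a' c'))| ≤
    C3 * nw w * ((j : ℝ) + 2) ^ 2 * |xt p t| * ea p a ^ 3 * ea p a' ^ 3 * ww p N

/-- Upper bound for `L(F,G)` when `F G = X^j FF FF`. [FC: UP1] -/
def S_UP1 : Prop := ∀ (w : Fin 3 → ℝ) (p x : ℝ), Hpx p x →
  ∀ (N : ℕ) (F G : Polynomial ℝ) (a a' c c' j : ℕ),
  c ≤ 2 → c' ≤ 2 → F.natDegree < N → G.natDegree < N →
  F * G = X ^ j * (FF p a c * FF p a' c') →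
  |LL w p x N F G| ≤ C3 * nw w * ((j : ℝ) + 2) ^ 2 * ea p a ^ 3 * ea p a' ^ 3 * ww p N

/-- Reduction of `LW` to `LL`. [FC: RED] -/
def S_RED : Prop := ∀ (w : Fin 3 → ℝ) (p x : ℝ), Hpx p x → ∀ (N n0 : ℕ),
  (∀ F1 G : Polynomial ℝ, F1.natDegree + n0 < N → G.natDegree < N →
    LW w p x N n0 (X ^ n0 * F1) G = LL w p x N F1 G) ∧
  (∀ F G1 : Polynomial ℝ, F.natDegree < N → G1.natDegree + n0 < N →
    LW w p x N n0 F (X ^ n0 * G1) = LL w p x N F G1)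

/-- The block of the negative columns. [FC: AA, there with `1800`; now
`|c_{e+J}| ≤ 4 nw w (|i+f+j-n0| + 1)^2` gives `80·45 = 3600`] -/
def S_AA : Prop := ∀ (w : Fin 3 → ℝ) (p x : ℝ), Hpx p x → ∀ (N n0 i j : ℕ), n0 ≤ N → i < n0 →
  j < n0 → |LW w p x N n0 (X ^ i) (X ^ j)| ≤ 3600 * nw w * ((N : ℝ) + 2) ^ 2 * ww p N

/-- Bound for all entries in the basis `BF`. [FC: ENB] (`C3 ≥ 3600`) -/
def S_ENB : Prop := ∀ (w : Fin 3 → ℝ) (p x : ℝ), Hpx p x → ∀ (N n0 i j : ℕ), n0 ≤ N → i < N →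
  j < N → |LW w p x N n0 (BF p n0 i) (BF p n0 j)| ≤
    (C3 * nw w * ((N : ℝ) + 2) ^ 2 * ww p N) * rr p n0 i * rr p n0 j

/-- Upper bound for the determinant of the window `J ≥ -n0`, `N = n0 + h`. [FC: UP] (the
constant `C` depends on `w`, `p`, `x`; `(nw w)^{18N} ≤ 2^{C'N}`) -/
def S_UP : Prop := ∀ (w : Fin 3 → ℝ) (p x : ℝ), Hpx p x → ∃ C : ℕ, ∀ n0 h : ℕ, 1 ≤ n0 + h →
  |(AM w p x (-(n0 : ℤ)) (n0 + h)).det| ^ 18 * |p| ^ (3 * (n0 + h) ^ 3 + 2 * h ^ 3) ≤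
    |p| ^ (C * (n0 + h) ^ 2)

/-! ## E. nonvanishing -/

/-- Residue fields, `ε = -1`. [FC: EX1, the same proof, now for every prime factor `q` of `W` and
both signs]
Proof. Let `ℓ = 2 m0 + 1` be a prime with `ℓ > max(a, 2B+1, 7)`. `V_ℓ = a W` (`ℓ` odd), and
`gcd(W, a) = 1` (`W ≡ ±ℓ mod a`). `W ≥ 2^{m0}`: `V_ℓ = α^ℓ - α^{-ℓ} ≥ α^ℓ - 1` and
`a ≤ α` (`α - 1/α = a`), so `W ≥ α^{2 m0} - 1 ≥ 2.56^{m0} - 1 ≥ 2^{m0}` for `m0 ≥ 3`. Let `q` be a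
prime factor of `W`; `q ∤ a`. `F` = algebraic closure of `ZMod q`, `g, g'` the roots of
`X² - aX - 1`. `g^ℓ + g'^ℓ = 0` and `g^ℓ g'^ℓ = -1` give `g^{2ℓ} = 1`, so `g^ℓ = ±1`,
`g'^ℓ = ∓1`: one of the two roots has `g^ℓ = σ`. `q ≠ 2`, the order of `-g²` is `2ℓ`, `a² + 4 ≠ 0`
in `F` and `q ≥ 2ℓ - 1 = 4 m0 + 1` as in `FC.S_EX1`. -/
def S_RS1 : Prop := ∀ a : ℤ, 1 ≤ a → ∀ B : ℕ, ∃ m0 : ℕ, B ≤ m0 ∧ ∃ W : ℕ, 2 ^ m0 ≤ W ∧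
  V a (-1) (2 * m0 + 1) = a * (W : ℤ) ∧
  ∀ q : ℕ, q.Prime → q ∣ W → 4 * m0 + 1 ≤ q ∧ ∀ σ : ℤ, (σ = 1 ∨ σ = -1) →
    ∃ (F : Type) (_ : Field F) (g : F), CharP F q ∧ g ^ 2 = (a : F) * g + 1 ∧
      g ^ (2 * m0 + 1) = (σ : F) ∧ (∀ k : ℕ, 0 < k → k < 2 * (2 * m0 + 1) → (-g ^ 2) ^ k ≠ 1) ∧
      (((a ^ 2 + 4 : ℤ)) : F) ≠ 0

/-- Residue fields, `ε = 1`. [FC: EX2, the same proof, now for every prime factor `q` of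
`W = U_{m0+1} + U_{m0}`]
Proof. `ℓ = 2 m0 + 1` a prime with `ℓ > max(a, 2B+1, 7)`. `U_{n+1} ≥ 2 U_n + 1`-type induction gives
`W ≥ 2^{m0}`. The rest as in `FC.S_EX2`. -/
def S_RS2 : Prop := ∀ a : ℤ, 3 ≤ a → ∀ B : ℕ, ∃ m0 : ℕ, B ≤ m0 ∧ ∃ W : ℕ, 2 ^ m0 ≤ W ∧
  U a 1 (m0 + 1) + U a 1 m0 = (W : ℤ) ∧
  ∀ q : ℕ, q.Prime → q ∣ W → 4 * m0 + 1 ≤ q ∧
    ∃ (F : Type) (_ : Field F) (g : F), CharP F q ∧ g ^ 2 = (a : F) * g - 1 ∧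
      g ^ (2 * m0 + 1) = 1 ∧ (∀ k : ℕ, 0 < k → k < 2 * m0 + 1 → (g ^ 2) ^ k ≠ 1) ∧
      (((a ^ 2 - 4 : ℤ)) : F) ≠ 0

/-- Choice of the prime.
Proof. `R(m) = (2 D r 1 (2m+1))² - D (2 r 0 + D r 2 m(m+1))²` is a polynomial in `m` of degree
at most `4`, not `0` for large `m` (`r 2 ≠ 0`: the leading coefficient is `-D³ (r 2)²`;
`r 2 = 0 ≠ r 1`: `16 D² (r 1)²`; else `-4 D (r 0)²`), so `0 < |R(m) R(3m+1)| < 2^m ≤ W` for large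
`m`. So `W` does not divide the positive integer `|R(m)R(3m+1)|`, and there is a prime `q` and
`k` with `q^{k+1} ∣ W`, `q^k ∣ R(m) R(3m+1)`, `q^{k+1} ∤ R(m) R(3m+1)` (`k` the exact exponent).
(`Nat.factorization_le_iff_dvd` or `(Nat.dvd_iff_prime_pow_dvd_dvd ..)`.) Here `D ≥ 5` is an
integer. -/
def S_PRM : Prop := ∀ (D : ℤ) (r : Fin 3 → ℤ), 5 ≤ D → r ≠ 0 → ∃ M : ℕ, ∀ m : ℕ, M ≤ m →
  ∀ W : ℕ, 2 ^ m ≤ W → ∃ q k : ℕ, q.Prime ∧ q ^ (k + 1) ∣ W ∧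
    ¬ ((q : ℤ) ^ (k + 1) ∣
      ((2 * D * r 1 * (2 * (m : ℤ) + 1)) ^ 2 - D * (2 * r 0 + D * r 2 * ((m : ℤ) * (m + 1))) ^ 2) *
      ((2 * D * r 1 * (2 * (3 * (m : ℤ) + 1) + 1)) ^ 2 -
        D * (2 * r 0 + D * r 2 * ((3 * (m : ℤ) + 1) * ((3 * (m : ℤ) + 1) + 1))) ^ 2))

/-- Identities for `u = 1 + x p^m`, `ℓ = 2m+1`.
Proof. `ε = -1`: `x p^m = -σ α^ℓ`, `σ = δ (-1)^m`, so `u (α^ℓ + σ) = (1 - σα^ℓ)(α^ℓ+σ) =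
σ (1 - α^{2ℓ})` (`σ² = 1`) and `α^ℓ V_ℓ = α^{2ℓ} + (αβ)^ℓ = α^{2ℓ} - 1`
(`V_ℓ = α^ℓ + β^ℓ`). `ε = 1`, `δ = 1`: `u = 1 - α^ℓ` and
`(α-1) α^m (U_{m+1}+U_m) = α^ℓ - 1`: multiply by `α - β`, use `(α-β) U_n = α^n - β^n` and
`αβ = 1`. -/
def S_UID : Prop := ∀ a ε δ : ℤ, OK a ε → Sg ε δ → ∀ m : ℕ,
  (ε = -1 → (1 + xd a ε δ * pp a ε ^ m) * (al a ε ^ (2 * m + 1) + δ * (-1) ^ m) =
    -((δ : ℝ) * (-1) ^ m * al a ε ^ (2 * m + 1) * (V a ε (2 * m + 1) : ℝ))) ∧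
  (ε = 1 → 1 + xd a ε δ * pp a ε ^ m =
    -((al a ε - 1) * al a ε ^ m * ((U a ε (m + 1) : ℝ) + (U a ε m : ℝ))))

/-- Existence of the residue field.
Proof. Take `m0` from `S_RS1` (`ε = -1`) or `S_RS2` (`ε = 1`), large (also `m0 ≥ 2`,
`4 m0 + 1 > |r i|` for all `i`, `m0 ≥ M` of `S_PRM` with `D = a² - 4ε ≥ 5`), and the prime `q` and
`k` of `S_PRM`; `F, g` for this `q`, in the case `ε = -1` with `σ = δ (-1)^{m0}`. `hw`: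
`δ g (ε g²)^{m0} = δ ε^{m0} g^ℓ = 1` (`σ² = 1`; for `ε = 1`, `δ = 1`). `h2, h3, hr`: nonzero
integers of absolute value `< q` are nonzero in `F` (`q ≥ 4 m0 + 1 ≥ 9`). `hD`, `hord` clear
(`Tt`). `hc`: with `m = m0`, `u = 1 + x p^m`, `R(m) = W(m)·(-W(-1-m))` the integer of `S_VW`
(nonzero since `q^{k+1} ∤ R(m)R(3m+1)`), so `c_m ≠ 0` and `c_m⁻¹ = u/W(m) = u (-W(-1-m))/R(m)`. By
`S_UID` `u = κ W` with `κ` having a reduction (`ε = -1`: `κ = -σ α^ℓ a/(α^ℓ+σ)`, where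
`α^ℓ + σ` reduces to `g^ℓ + σ = 2σ ≠ 0`; `ε = 1`: `κ = -(α-1)α^m`). `W(-1-m)` has a reduction
(it is in `ℤ[α]`, e.g. `S_RL` with `√D = 2α - a`). And the rational number `W/R(m)` reduces to
`0`: `R(m) = q^j R'`, `j ≤ k`, `q ∤ R'` (because `q^{k+1} ∤ R(m) R(3m+1)`), `W = q^{k+1} W'`, so
`W/R(m) = q (q^{k-j} W')/R'` and the witnesses of `Rl` are `s = R'`, `y = q (…)`. `hc'`:
`w := x p^m`, `w² = ε p^{2m+1}` (`x² = ε p`), so `p^T = w²` (`ε = 1`), `p^T = w⁴` (`ε = -1`), and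
`1 + x p^{m-T} = u/w` resp. `u (w²-w+1)/w³`, where `w` reduces to `-1` and `w²-w+1` to `3 ≠ 0`.
`ε = 1`: `m - T = -1-m`, `W(-1-m) ≠ 0`, `c⁻¹ = (u/w)/W(-1-m) = -(u/w) W(m)/R(m)`. `ε = -1`:
`m - T = -1-(3m+1)`, the same with `3m+1` in the place of `m` in `R`. -/
def S_EX : Prop := ∀ (a ε δ : ℤ) (r : Fin 3 → ℤ), OK a ε → Sg ε δ → r ≠ 0 → ∀ B : ℕ,
  ∃ m0 : ℕ, B ≤ m0 ∧ ∃ (F : Type) (_ : Field F) (g : F), Dat a ε δ r m0 F g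

/-- Reductions of the `c_m` and of `U_l`. [FC: NV1] Notation: `P = ε g²`, `T = Tt ε m0`,
`xF = -δ g` (the reduction of `x`).
Proof. `p = ε α²` reduces to `P`, `x` to `-δ g`, `u = 1 + x p^{m0}` to `1 - δ g P^{m0} = 0`
(`hw`). `P^T = 1`: `w = x p^{m0}` reduces to `-1`, `w² = ε p^{2m0+1}`, so `p^T = w²` (`ε = 1`) or
`w⁴` (`ε = -1`). For `|m| < T`, `m ≠ m0, m0 - T`: `1 + xF P^m ≠ 0`, otherwise `P^m = P^{m0}`,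
`T ∣ m - m0` (`hord` and `P^T = 1`), but `-2T < m - m0 < T`, `m - m0 ≠ 0, -T`. So `1 + x p^m`
reduces to a nonzero element, and `W(m)` has a reduction (`√D = 2α - a`). `U_l`:
`p^l - 1 = (εα)^l √D U_l` (`pp_pow_sub`), `√D` reduces to `2g - a`, `(2g-a)² = a²-4ε ≠ 0`. So
`U_l = (p^l-1)/((εα)^l √D)` reduces to `(P^l - 1)/(..)`, which is `≠ 0` for `1 ≤ l < 2T`,
`l ≠ T`, and `0` for `l = T`. `V_l = α^l + β^l`, `V_T² = D U_T² + 4 ε^T`, so the reduction `v` of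
`V_T` has `v² = 4 ε^T ≠ 0`. -/
def S_NV1 : Prop := ∀ (a ε δ : ℤ) (r : Fin 3 → ℤ), OK a ε → Sg ε δ →
  ∀ (m0 : ℕ) (F : Type) (_ : Field F) (g : F), Dat a ε δ r m0 F g →
  Rl a ε g (pp a ε) ((ε : F) * g ^ 2) ∧ ((ε : F) * g ^ 2 ≠ 0) ∧
  ((ε : F) * g ^ 2) ^ Tt ε m0 = 1 ∧
  (∀ m : ℤ, -(Tt ε m0 : ℤ) < m → m < Tt ε m0 → m ≠ m0 → m ≠ m0 - Tt ε m0 →
    ∃ f : F, Rl a ε g (cc (wr a ε r) (pp a ε) (xd a ε δ) m) f) ∧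
  (∀ l : ℕ, 1 ≤ l → l < 2 * Tt ε m0 → l ≠ Tt ε m0 →
    ∃ f : F, f ≠ 0 ∧ Rl a ε g (U a ε l : ℝ) f) ∧
  Rl a ε g (U a ε (Tt ε m0) : ℝ) 0 ∧
  (∃ v : F, v ≠ 0 ∧ Rl a ε g (V a ε (Tt ε m0) : ℝ) v)

/-- Reductions of `a(K,-1)`, if `SH = s` is an integer. [FC: NV2]
Proof. `S_CF`: `a(K,-1) = -(δβ)^K (s - ∑_{l≤K} h_l)`, `β = a - α` reduces to `a - g = ε/g ≠ 0`.
`h_l` has a reduction for `l ≠ T`, `l < 2T` by `S_NV1`. For `K ≥ T` multiply by `U_T^j`,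
`j = jt r`: everything except the term `h_T` reduces to `0` (`j ≥ 1`), and `U_T^j h_T` reduces to
`2 r_2 (δε)^T` (`j = 3`), `2 r_1 δ^T v` (`j = 2`, then `r 2 = 0`), `2 r_0 δ^T` (`j = 1`), nonzero
(`h2`, `hr`). (`U_T ≠ 0` as a real number.) -/
def S_NV2 : Prop := ∀ (a ε δ : ℤ) (r : Fin 3 → ℤ), OK a ε → Sg ε δ → r ≠ 0 → ∀ s : ℤ,
  SH a ε δ r = s → ∀ (m0 : ℕ) (F : Type) (_ : Field F) (g : F), Dat a ε δ r m0 F g →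
  (∀ K : ℕ, 1 ≤ K → K < Tt ε m0 →
    ∃ f : F, Rl a ε g (ac (wr a ε r) (pp a ε) (xd a ε δ) K (-1)) f) ∧
  (∀ K : ℕ, Tt ε m0 ≤ K → K < 2 * Tt ε m0 →
    ∃ f : F, f ≠ 0 ∧ Rl a ε g ((U a ε (Tt ε m0) : ℝ) ^ jt r *
      ac (wr a ε r) (pp a ε) (xd a ε δ) K (-1)) f)

/-- Reductions of the `a(K,J)`. [FC: NV3] Notation as in `S_NV1`; `C = c_{m0}`,
`C' = c_{m0-T}`, `t = U_T^{jt r}` (reduces to `0`).
Proof. `S_REC` in both directions: `a(J+1) = p^K a(J) - c_{J+1}`,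
`a(J-1) = p^{-K}(a(J) + c_J)`. (i) `K < T`, `m0 - T ≤ J ≤ m0 - 1`: start at `J = -1`
(`S_NV2`), only `c_m` with `m0 - T < m ≤ m0 - 1` are needed, which have reductions by `S_NV1`.
(ii) `K < T`, `J ≥ m0`: `C⁻¹ a(m0) = C⁻¹ p^K a(m0-1) - 1` reduces to `-1` (`C⁻¹` reduces to `0`),
and inductively `C⁻¹ a(J)` reduces to `-P^{K(J-m0)}` (the `c_m` with `m0 < m ≤ T-1` have
reductions, times `C⁻¹` reduces to `0`). (iii) `J ≤ m0 - T - 1`: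
`C'⁻¹ a(m0-T-1) = p^{-K}(C'⁻¹ a(m0-T) + 1)` reduces to `P^{-K}`, inductively
`C'⁻¹ a(J)` reduces to `P^{K(J - m0 + T)}`. (iv) `T ≤ K < 2T`, `m0 - T ≤ J ≤ m0 - 1`:
`t a(-1)` reduces to `b_K ≠ 0` and the `t c_m` to `0`, so `t a(J)` reduces to
`P^{K(J+1)} b_K`. (v) `T ≤ K < 2T`, `J ≥ m0`: `C⁻¹ t a(m0) = C⁻¹ (p^K t a(m0-1)) - t` reduces to
`0`, and so does `C⁻¹ t a(J)` for all `m0 ≤ J < T` (induction). (vi) the same for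
`J < m0 - T` with `C'`. -/
def S_NV3 : Prop := ∀ (a ε δ : ℤ) (r : Fin 3 → ℤ), OK a ε → Sg ε δ → r ≠ 0 → ∀ s : ℤ,
  SH a ε δ r = s → ∀ (m0 : ℕ) (F : Type) (_ : Field F) (g : F), Dat a ε δ r m0 F g →
  (∀ K : ℕ, 1 ≤ K → K < Tt ε m0 → ∀ J : ℤ, (m0 : ℤ) - Tt ε m0 ≤ J → J < m0 →
    ∃ f : F, Rl a ε g (ac (wr a ε r) (pp a ε) (xd a ε δ) K J) f) ∧
  (∀ K : ℕ, 1 ≤ K → K < Tt ε m0 → ∀ J : ℤ, (m0 : ℤ) ≤ J → J < Tt ε m0 →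
    Rl a ε g ((cc (wr a ε r) (pp a ε) (xd a ε δ) m0)⁻¹ *
      ac (wr a ε r) (pp a ε) (xd a ε δ) K J) (-((ε : F) * g ^ 2) ^ ((K : ℤ) * (J - m0)))) ∧
  (∀ K : ℕ, 1 ≤ K → K < Tt ε m0 → ∀ J : ℤ, -(Tt ε m0 : ℤ) < J → J < (m0 : ℤ) - Tt ε m0 →
    Rl a ε g ((cc (wr a ε r) (pp a ε) (xd a ε δ) ((m0 : ℤ) - Tt ε m0))⁻¹ *
      ac (wr a ε r) (pp a ε) (xd a ε δ) K J)
      (((ε : F) * g ^ 2) ^ ((K : ℤ) * (J - m0 + Tt ε m0)))) ∧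
  (∀ K : ℕ, Tt ε m0 ≤ K → K < 2 * Tt ε m0 → ∃ b : F, b ≠ 0 ∧ ∀ J : ℤ,
    (m0 : ℤ) - Tt ε m0 ≤ J → J < m0 →
    Rl a ε g ((U a ε (Tt ε m0) : ℝ) ^ jt r * ac (wr a ε r) (pp a ε) (xd a ε δ) K J)
      (((ε : F) * g ^ 2) ^ ((K : ℤ) * (J + 1)) * b)) ∧
  (∀ K : ℕ, Tt ε m0 ≤ K → K < 2 * Tt ε m0 → ∀ J : ℤ, (m0 : ℤ) ≤ J → J < Tt ε m0 →
    Rl a ε g ((cc (wr a ε r) (pp a ε) (xd a ε δ) m0)⁻¹ * ((U a ε (Tt ε m0) : ℝ) ^ jt r *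
      ac (wr a ε r) (pp a ε) (xd a ε δ) K J)) 0) ∧
  (∀ K : ℕ, Tt ε m0 ≤ K → K < 2 * Tt ε m0 → ∀ J : ℤ, -(Tt ε m0 : ℤ) < J →
    J < (m0 : ℤ) - Tt ε m0 →
    Rl a ε g ((cc (wr a ε r) (pp a ε) (xd a ε δ) ((m0 : ℤ) - Tt ε m0))⁻¹ *
      ((U a ε (Tt ε m0) : ℝ) ^ jt r * ac (wr a ε r) (pp a ε) (xd a ε δ) K J)) 0)

/-- The linear algebra of the nonvanishing, abstract form. [FC: NV4; here simpler, no
column differences are needed]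
Proof. Suppose the determinant is `0`. Multiply the rows `K ≥ T` by `t`, the columns `J ≥ m0` by
`C`, the columns `J < m0 - T` by `C'`: the determinant of the new matrix `B` is still `0`. Its
entries have reductions; order the rows as `K < T` (`T-1` of them), `K ≥ T` (`T` of them) and the
columns as `J ∉ C₀` (`T-1`), `J ∈ C₀ = [m0-T, m0-1]` (`T`). The reduced matrix is block
triangular: `K ≥ T`, `J ∉ C₀` reduces to `0`; the diagonal blocks are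
`(ρ_J P^{K i})`, `K = 1..T-1`, `i = J - m0 ∈ [0, T-1-m0]` resp. `i = J-m0+T ∈ [1-m0, -1]`, that is
`T-1` consecutive integers: the product of the `ρ` and of a Vandermonde determinant in the
`T-1` different numbers `P^i` (or `P^K`) up to a factor `∏ P^..`, nonzero; and
`(b_K P^{K(J+1)})`, `K = T..2T-1`, `J` in `T` consecutive integers: `∏ b_K` times a
Vandermonde determinant in the different numbers `P^K`, nonzero. By the last rule of `FC.S_RL`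
`det B ≠ 0`, contradiction. -/
def S_NV4 : Prop := ∀ a ε : ℤ, OK a ε → ∀ (F : Type) (_ : Field F) (g : F),
  g ^ 2 = (a : F) * g - (ε : F) →
  ∀ (T m0 : ℕ) (t C C' : ℝ) (P : F) (A : ℕ → ℤ → ℝ) (ρ ρ' : F) (b : ℕ → F) (f : ℕ → ℤ → F),
  1 ≤ m0 → m0 < T → P ^ T = 1 → (∀ k : ℕ, 0 < k → k < T → P ^ k ≠ 1) →
  ρ ≠ 0 → ρ' ≠ 0 → (∀ K, T ≤ K → K < 2 * T → b K ≠ 0) →
  (∀ K : ℕ, 1 ≤ K → K < T → ∀ J : ℤ, (m0 : ℤ) - T ≤ J → J < m0 → Rl a ε g (A K J) (f K J)) →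
  (∀ K : ℕ, 1 ≤ K → K < T → ∀ J : ℤ, (m0 : ℤ) ≤ J → J < T →
    Rl a ε g (C * A K J) (P ^ ((K : ℤ) * (J - m0)) * ρ)) →
  (∀ K : ℕ, 1 ≤ K → K < T → ∀ J : ℤ, -(T : ℤ) < J → J < (m0 : ℤ) - T →
    Rl a ε g (C' * A K J) (P ^ ((K : ℤ) * (J - m0 + T)) * ρ')) →
  (∀ K : ℕ, T ≤ K → K < 2 * T → ∀ J : ℤ, (m0 : ℤ) - T ≤ J → J < m0 →
    Rl a ε g (t * A K J) (P ^ ((K : ℤ) * (J + 1)) * b K)) →
  (∀ K : ℕ, T ≤ K → K < 2 * T → ∀ J : ℤ, (m0 : ℤ) ≤ J → J < T →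
    Rl a ε g (C * (t * A K J)) 0) →
  (∀ K : ℕ, T ≤ K → K < 2 * T → ∀ J : ℤ, -(T : ℤ) < J → J < (m0 : ℤ) - T →
    Rl a ε g (C' * (t * A K J)) 0) →
  (Matrix.of fun k j : Fin (2 * (T - 1) + 1) =>
    A ((k : ℕ) + 1) (-((T - 1 : ℕ) : ℤ) + ((j : ℕ) : ℤ))).det ≠ 0

/-- Nonvanishing for infinitely many `n` (if `SH` is an integer). [FC: NV]
Proof. `S_EX` with the bound `B`, then `S_NV1`, `S_NV3` and `S_NV4` with `T = Tt ε m0`,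
`n = T - 1 ≥ m0 ≥ B`, `C = c_{m0}⁻¹`, `C' = c_{m0-T}⁻¹`, `t = U_T^{jt r}`, `ρ = -1`, `ρ' = 1`. -/
def S_NV : Prop := ∀ (a ε δ : ℤ) (r : Fin 3 → ℤ), OK a ε → Sg ε δ → r ≠ 0 → ∀ s : ℤ,
  SH a ε δ r = s → ∀ B : ℕ,
  ∃ n : ℕ, B ≤ n ∧ (AM (wr a ε r) (pp a ε) (xd a ε δ) (-(n : ℤ)) (2 * n + 1)).det ≠ 0

/-! ## F. conclusion -/

/-- `SH` is not an integer. [FC: FIN]
Proof. Suppose `SH = s`. For `n ≥ 1` with `det ≠ 0` (`S_NV`, `n` arbitrarily large) take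
`S_NRM` to the power `4050 = 2·2025 = 225·18`. `S_DDB`: `(DD DD')^4050 ≤ α^{23296 n³ + 2C n²}`.
`S_UP` (`w = wr a ε r`) with `(n0,h) = (n, n+1)` and `(n+2, n-1)`, `|p| = α²`, product of the two:
`(|det||det'|)^18 α^{2(6(2n+1)³ + 2(n+1)³ + 2(n-1)³)} ≤ α^{4C'(2n+1)²}`, and
`6(2n+1)³ + 2(n+1)³ + 2(n-1)³ ≥ 52 n³`; to the power 225:
`(|det||det'|)^4050 α^{23400 n³} ≤ α^{C'' n²}`. `|p|^{(2n+1)(n+1)} = α^{2(2n+1)(n+1)}`. So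
`α^{23400 n³} ≤ α^{23296 n³ + C n²}`, `104 n³ ≤ C n²`, a contradiction for large `n`. -/
def S_FIN : Prop := ∀ (a ε δ : ℤ) (r : Fin 3 → ℤ), OK a ε → Sg ε δ → r ≠ 0 → ∀ s : ℤ,
  SH a ε δ r ≠ s

/-- Linear independence.
Proof. A rational relation `q + r 0 S1 + r 1 S2 + r 2 S3 = 0`, not all coefficients `0`; multiply
by a common denominator, so all are integers. If `r = 0` then `q = 0`, contradiction. So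
`r ≠ 0` and `SH = 2(r 0 S1 + r 1 S2 + r 2 S3) = -2q` by `S_SPL`, against `S_FIN`. -/
def S_LI : Prop := ∀ a ε δ : ℤ, OK a ε → Sg ε δ →
  LinearIndependent ℚ ![(1 : ℝ), S1 a ε δ, S2 a ε δ, S3 a ε δ]

end Pool.Agent.H410.FL
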