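import Pool.Agent.H410.FC.Sub
import Pool.Agent.H410.FL.Main

/-!
Every `k`-th term of a Lucas sequence (helper410).
-/

set_option autoImplicit false

namespace Pool.Agent.H410.FL

open Pool.Agent.H410.FC (OK U)

namespace Sub

variable (a ε : ℤ)

theorem vstep (n : ℕ) : V a ε (n + 2) = a * V a ε (n + 1) - ε * V a ε n := rfl

theorem V_eq (n : ℕ) : V a ε n = 2 * U a ε (n + 1) - a * U a ε n := by
  induction n using Nat.strong_induction_on with
  | _ n ih =>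
    match n with
    | 0 => simp [U, V]
    | 1 => simp [U, V]; ring
    | (n + 2) =>
      have h1 := ih n (by omega)
      have h2 := ih (n + 1) (by omega)
      have h3 := Pool.Agent.H410.FC.Sub.step a ε (n + 1)
      have h4 := Pool.Agent.H410.FC.Sub.step a ε n
      have h5 : U a ε (n + 1 + 1) = U a ε (n + 2) := rfl
      have h6 : U a ε (n + 2 + 1) = U a ε (n + 1 + 2) := rfl
      rw [vstep, h1, h2, h6, h3, h5, h4]
      ring

theorem Vk (j : ℕ) : V a ε (j + 1) = U a ε (j + 2) - ε * U a ε j := by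
  rw [V_eq]
  have h4 := Pool.Agent.H410.FC.Sub.step a ε j
  have h5 : U a ε (j + 1 + 1) = U a ε (j + 2) := rfl
  rw [h5, h4]
  ring

theorem vrec (m j : ℕ) :
    V a ε (m + (j + 1) + (j + 1)) =
      (U a ε (j + 2) - ε * U a ε j) * V a ε (m + (j + 1)) - ε ^ (j + 1) * V a ε m := by
  rw [V_eq, V_eq, V_eq]
  have h1 := Pool.Agent.H410.FC.Sub.rec a ε m j
  have h2 := Pool.Agent.H410.FC.Sub.rec a ε (m + 1) j
  have h3 : m + (j + 1) + (j + 1) + 1 = m + 1 + (j + 1) + (j + 1) := by ring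
  have h4 : m + (j + 1) + 1 = m + 1 + (j + 1) := by ring
  rw [h3, h4, h1, h2]
  ring

theorem veq (j n : ℕ) :
    V a ε ((j + 1) * n) = V (U a ε (j + 2) - ε * U a ε j) (ε ^ (j + 1)) n := by
  induction n using Nat.strong_induction_on with
  | _ n ih =>
    match n with
    | 0 => simp [V]
    | 1 =>
      rw [mul_one, Vk]
      simp [V]
    | (n + 2) =>
      have h1 := ih n (by omega)
      have h2 := ih (n + 1) (by omega)
      have h3 := vrec a ε ((j + 1) * n) j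
      have h4 : (j + 1) * (n + 2) = (j + 1) * n + (j + 1) + (j + 1) := by ring
      have h5 : (j + 1) * n + (j + 1) = (j + 1) * (n + 1) := by ring
      rw [h4, h3, h5, h2, h1, vstep (U a ε (j + 2) - ε * U a ε j) (ε ^ (j + 1)) n]

end Sub

/-- Scaling of three of four numbers. -/
theorem scale (x y z : ℝ) (r s t : ℚ) (hr : r ≠ 0) (hs : s ≠ 0) (ht : t ≠ 0)
    (h : LinearIndependent ℚ ![(1 : ℝ), (r : ℝ) * x, (s : ℝ) * y, (t : ℝ) * z]) :
    LinearIndependent ℚ ![(1 : ℝ), x, y, z] := by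
  rw [Fintype.linearIndependent_iff] at h ⊢
  intro g hg
  have h1 := h ![g 0, g 1 / r, g 2 / s, g 3 / t] (by
    rw [Fin.sum_univ_four] at hg ⊢
    simp only [Matrix.cons_val_zero, Matrix.cons_val_one, Matrix.cons_val, Rat.smul_def] at hg ⊢
    rw [← hg]
    have hr' : (r : ℝ) ≠ 0 := by exact_mod_cast hr
    have hs' : (s : ℝ) ≠ 0 := by exact_mod_cast hs
    have ht' : (t : ℝ) ≠ 0 := by exact_mod_cast ht
    push_cast
    field_simp)
  intro i
  have e0 : g 0 = 0 := h1 0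
  have e1 : g 1 / r = 0 := h1 1
  have e2 : g 2 / s = 0 := h1 2
  have e3 : g 3 / t = 0 := h1 3
  rw [div_eq_zero_iff] at e1 e2 e3
  fin_cases i
  · exact e0
  · exact e1.resolve_right hr
  · exact e2.resolve_right hs
  · exact e3.resolve_right ht

theorem sub (a ε : ℤ) (h : OK a ε) (k : ℕ) (hk : 1 ≤ k) (δ : ℤ) (hδ : Sg (ε ^ k) δ) :
    LinearIndependent ℚ ![(1 : ℝ),
      ∑' n : ℕ, (δ : ℝ) ^ (n + 1) / (U a ε (k * (n + 1)) : ℝ),
      ∑' n : ℕ, (δ : ℝ) ^ (n + 1) * (V a ε (k * (n + 1)) : ℝ) / (U a ε (k * (n + 1)) : ℝ) ^ 2,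
      ∑' n : ℕ, ((δ : ℝ) * (ε : ℝ) ^ k) ^ (n + 1) / (U a ε (k * (n + 1)) : ℝ) ^ 3] := by
  obtain ⟨j, rfl⟩ : ∃ j, k = j + 1 := ⟨k - 1, by omega⟩
  have h1 := main _ _ δ (Pool.Agent.H410.FC.Sub.ok a ε h j) hδ
  have hf : U a ε (j + 1) ≠ 0 := by
    have := Pool.Agent.H410.FC.Sub.pos a ε h j
    omega
  have hfq : (U a ε (j + 1) : ℚ) ≠ 0 := by exact_mod_cast hf
  have hfr : (U a ε (j + 1) : ℝ) ≠ 0 := by exact_mod_cast hf
  have hU : ∀ n : ℕ, (U a ε ((j + 1) * (n + 1)) : ℝ) = (U a ε (j + 1) : ℝ) *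
      (U (U a ε (j + 2) - ε * U a ε j) (ε ^ (j + 1)) (n + 1) : ℝ) := by
    intro n
    exact_mod_cast Pool.Agent.H410.FC.Sub.eq a ε j (n + 1)
  have hV : ∀ n : ℕ, (V a ε ((j + 1) * (n + 1)) : ℝ) =
      (V (U a ε (j + 2) - ε * U a ε j) (ε ^ (j + 1)) (n + 1) : ℝ) := by
    intro n
    exact_mod_cast Sub.veq a ε j (n + 1)
  refine scale _ _ _ (U a ε (j + 1) : ℚ) ((U a ε (j + 1) : ℚ) ^ 2) ((U a ε (j + 1) : ℚ) ^ 3)
    hfq (pow_ne_zero _ hfq) (pow_ne_zero _ hfq) ?_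
  have e1 : ((U a ε (j + 1) : ℚ) : ℝ) *
      (∑' n : ℕ, (δ : ℝ) ^ (n + 1) / (U a ε ((j + 1) * (n + 1)) : ℝ)) =
      S1 (U a ε (j + 2) - ε * U a ε j) (ε ^ (j + 1)) δ := by
    unfold S1
    rw [← tsum_mul_left]
    refine tsum_congr fun n => ?_
    rw [hU n]
    push_cast
    field_simp
  have e2 : (((U a ε (j + 1) : ℚ) ^ 2 : ℚ) : ℝ) *
      (∑' n : ℕ, (δ : ℝ) ^ (n + 1) * (V a ε ((j + 1) * (n + 1)) : ℝ) /
        (U a ε ((j + 1) * (n + 1)) : ℝ) ^ 2) =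
      S2 (U a ε (j + 2) - ε * U a ε j) (ε ^ (j + 1)) δ := by
    unfold S2
    rw [← tsum_mul_left]
    refine tsum_congr fun n => ?_
    rw [hU n, hV n]
    push_cast
    field_simp
  have e3 : (((U a ε (j + 1) : ℚ) ^ 3 : ℚ) : ℝ) *
      (∑' n : ℕ, ((δ : ℝ) * (ε : ℝ) ^ (j + 1)) ^ (n + 1) /
        (U a ε ((j + 1) * (n + 1)) : ℝ) ^ 3) =
      S3 (U a ε (j + 2) - ε * U a ε j) (ε ^ (j + 1)) δ := by
    unfold S3
    rw [← tsum_mul_left]
    refine tsum_congr fun n => ?_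
    rw [hU n]
    push_cast
    field_simp
  rw [e1, e2, e3]
  exact h1

end Pool.Agent.H410.FL
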